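import Pool.Agent.Lib.PolyTime.Main

/-!
# From encodings to bit lists and back
-/

namespace Pool.Agent.Lib.PolyTime

open Turing Function N487b59b3 N68a2faeb Prog

variable {α β γ δ : Type} [N487b59b3 α] [N487b59b3 β] [N487b59b3 γ] [N487b59b3 δ]

theorem bitEncode_bits (l : List Bool) : bitEncode l = l.flatMap fun b => [true, b, false] := by
  induction l with
  | nil => rfl
  | cons b l ih =>
    have e1 : bitEncode (b :: l) = [true, b, false] ++ bitEncode l := rfl
    rw [e1, ih]
    rfl

theorem sz_bits (l : List Bool) : sz l = 3 * l.length := by
  unfold sz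
  rw [bitEncode_bits, List.length_flatMap]
  simp [mul_comm]

/-- put `[true, b, false]` on `r'` for all bits `b` of `r` -/
def quoteP {R C : Type} (r r' : R) : Prog R C :=
  .while r (.case r .skip
    (.seq (.push r' false) (.seq (.push r' false) (.push r' true)))
    (.seq (.push r' false) (.seq (.push r' true) (.push r' true))))

theorem quoteP_run {R C : Type} [DecidableEq R] (subs : C → Sub) {r r' : R} (hr : r ≠ r') :
    ∀ (l : List Bool) (m : List Bool) (s : R → List Bool), s r = l → s r' = bitEncode m →
    PRun subs (quoteP r r') s (2 * l.length + 1)
      (update (update s r []) r' (bitEncode (l.reverse ++ m))) := by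
  intro l
  induction l with
  | nil =>
    intro m s hs hs'
    have e : update (update s r []) r' (bitEncode ([].reverse ++ m)) = s := by
      have e1 : update s r [] = s := by rw [update_eq_iff]; exact ⟨hs.symm, fun _ _ => rfl⟩
      rw [e1, update_eq_iff]
      exact ⟨by simp [hs'], fun _ _ => rfl⟩
    rw [e]
    exact PRun.while_done hs
  | cons b l ih =>
    intro m s hs hs'
    have hb : PRun subs (.case r .skip
        (.seq (.push r' false) (.seq (.push r' false) (.push r' true)))
        (.seq (.push r' false) (.seq (.push r' true) (.push r' true)))) s 1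
        (update (update s r l) r' (bitEncode (b :: m))) := by
      have e1 : bitEncode (b :: m) = true :: b :: false :: bitEncode m := rfl
      cases b
      · refine PRun.case_false (l := l) hs ((PRun.seq (PRun.push r' false (update s r l))
          (PRun.seq (PRun.push r' false _) (PRun.push r' true _))).cast subs rfl ?_)
        rw [e1, update_idem, update_idem, update_self, update_self, update_of_ne hr.symm, hs']
      · refine PRun.case_true (l := l) hs ((PRun.seq (PRun.push r' false (update s r l))
          (PRun.seq (PRun.push r' true _) (PRun.push r' true _))).cast subs rfl ?_)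
        rw [e1, update_idem, update_idem, update_self, update_self, update_of_ne hr.symm, hs']
    have h3 := ih (b :: m) (update (update s r l) r' (bitEncode (b :: m))) (by
      rw [update_of_ne hr, update_self]) (by rw [update_self])
    refine (PRun.while_step (by rw [hs]; simp) hb h3).cast subs (by simp; ring) ?_
    funext x
    by_cases hx1 : x = r'
    · subst hx1; simp
    · by_cases hx : x = r
      · subst hx; simp [hx1]
      · simp [hx, hx1]

/-- the encoding, as a list of bits -/
theorem pt_quote' : IsPolyTime (fun a : α => (bitEncode a : List Bool)) := by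
  refine of_prog0 (R := Fin 2) _ (.seq (move 0 1) (.seq (quoteP 1 0) .skip)) 0 0
    (fun n => 4 * n + 2) (((PolyBd.const 4).mul PolyBd.id).add (PolyBd.const 2)) ?_
  intro a
  have e1 := move_run noSubs (r := (0 : Fin 2)) (r' := 1) (by decide) (bitEncode a)
    (update (fun _ => []) 0 (bitEncode a)) (by simp)
  set s1 := update (update (update (fun _ => []) (0 : Fin 2) (bitEncode a)) 0 []) 1
    ((bitEncode a).reverse ++ update (fun _ => []) (0 : Fin 2) (bitEncode a) 1) with hs1
  have e2 := quoteP_run noSubs (r := (1 : Fin 2)) (r' := 0) (by decide) (bitEncode a).reverse []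
    s1 (by simp [hs1]) (by simp [hs1]; rfl)
  refine ⟨_, ?_, (PRun.seq e1 (PRun.seq e2 (PRun.skip _))).cast noSubs rfl ?_⟩
  · simp only [List.length_reverse]
    change 2 * sz a + 1 + (2 * sz a + 1 + 0) ≤ _
    omega
  · funext x
    fin_cases x
    · simp
    · simp

@[fun_prop]
theorem pt_quote {f : α → β} (hf : IsPolyTime f) :
    IsPolyTime (fun a => (bitEncode (f a) : List Bool)) :=
  pt_comp pt_quote' hf

/-- read an encoded bit list from `r`, and put the bits on `r'` -/
def unquoteP {R C : Type} (r r' : R) : Prog R C :=
  .while r (.case r .skip .skip (.case r .skip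
    (.seq (.push r' false) (.case r .skip .skip .skip))
    (.seq (.push r' true) (.case r .skip .skip .skip))))

theorem unquoteP_run {R C : Type} [DecidableEq R] (subs : C → Sub) {r r' : R} (hr : r ≠ r') :
    ∀ (l : List Bool) (s : R → List Bool), s r = bitEncode l →
    PRun subs (unquoteP r r') s (4 * l.length + 1)
      (update (update s r []) r' (l.reverse ++ s r')) := by
  intro l
  induction l with
  | nil =>
    intro s hs
    have hs0 : s r = [] := hs
    have e : update (update s r []) r' ([].reverse ++ s r') = s := by
      have e1 : update s r [] = s := by rw [update_eq_iff]; exact ⟨hs0.symm, fun _ _ => rfl⟩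
      rw [e1, update_eq_iff]
      exact ⟨by simp, fun _ _ => rfl⟩
    rw [e]
    exact PRun.while_done hs0
  | cons b l ih =>
    intro s hs
    have hs0 : s r = true :: b :: false :: bitEncode l := hs
    have hb : PRun subs (.case r .skip .skip (.case r .skip
        (.seq (.push r' false) (.case r .skip .skip .skip))
        (.seq (.push r' true) (.case r .skip .skip .skip)))) s 3
        (update (update s r (bitEncode l)) r' (b :: s r')) := by
      refine PRun.case_true (l := b :: false :: bitEncode l) hs0 ?_
      cases b
      · refine PRun.case_false (l := false :: bitEncode l) (by simp) ?_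
        refine (PRun.seq (PRun.push r' false _) (PRun.case_false (l := bitEncode l) ?_
          (PRun.skip _))).cast subs rfl ?_
        · rw [update_of_ne hr]; simp
        · funext x
          by_cases hx1 : x = r'
          · subst hx1; simp [hr.symm]
          · by_cases hx : x = r
            · subst hx; simp [hx1]
            · simp [hx, hx1]
      · refine PRun.case_true (l := false :: bitEncode l) (by simp) ?_
        refine (PRun.seq (PRun.push r' true _) (PRun.case_false (l := bitEncode l) ?_
          (PRun.skip _))).cast subs rfl ?_
        · rw [update_of_ne hr]; simp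
        · funext x
          by_cases hx1 : x = r'
          · subst hx1; simp [hr.symm]
          · by_cases hx : x = r
            · subst hx; simp [hx1]
            · simp [hx, hx1]
    have h3 := ih (update (update s r (bitEncode l)) r' (b :: s r')) (by
      rw [update_of_ne hr, update_self])
    refine (PRun.while_step (by rw [hs0]; simp) hb h3).cast subs (by simp; ring) ?_
    funext x
    by_cases hx1 : x = r'
    · subst hx1; simp
    · by_cases hx : x = r
      · subst hx; simp [hx1]
      · simp [hx, hx1]

/-- If the bits of the encoding of `g a` are computed by `f`, then `g` is computable. -/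
theorem pt_unquote {f : α → List Bool} {g : α → β} (hf : IsPolyTime f)
    (h : ∀ a, bitEncode (g a) = f a) : IsPolyTime g := by
  obtain ⟨sf, pf, qf, hf⟩ := exists_sub hf
  refine of_prog (R := Fin 2) (C := Unit) (fun _ => sf) _
    (.seq (.call () 0) (.seq (unquoteP 0 1) (move 1 0))) 0 0
    (fun n => (2 * pf.eval n + 2 * n + 2 * qf.eval n + 5) +
      ((4 * qf.eval n + 1) + (2 * qf.eval n + 1))) ?_ ?_
  · have hpf := PolyBd.poly pf
    have hqf := PolyBd.poly qf
    have h1 := PolyBd.const 1
    have h2 := PolyBd.const 2
    have h4 := PolyBd.const 4
    have h5 := PolyBd.const 5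
    exact ((((h2.mul hpf).add (h2.mul PolyBd.id)).add (h2.mul hqf)).add h5).add
      (((h4.mul hqf).add h1).add ((h2.mul hqf).add h1))
  · intro a
    have e1 := PRun.call (subs := fun _ : Unit => sf) (c := ()) (r := (0 : Fin 2))
      (s := update (fun _ => []) 0 (bitEncode a)) (out := bitEncode (f a))
      (t := pf.eval (sz a)) (by simpa using (hf a).1)
    have e2 := unquoteP_run (fun _ : Unit => sf) (r := (0 : Fin 2)) (r' := 1) (by decide) (f a)
      (update (update (fun _ => []) 0 (bitEncode a)) 0 (bitEncode (f a))) (by simp)
    set s2 := update (update (update (update (fun _ => []) (0 : Fin 2) (bitEncode a)) 0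
      (bitEncode (f a))) 0 []) 1 ((f a).reverse ++ update (update (fun _ => [])
        (0 : Fin 2) (bitEncode a)) 0 (bitEncode (f a)) 1) with hs2
    have e3 := move_run (fun _ : Unit => sf) (r := (1 : Fin 2)) (r' := 0) (by decide)
      (f a).reverse s2 (by simp [hs2])
    refine ⟨_, ?_, (PRun.seq e1 (PRun.seq e2 e3)).cast _ rfl ?_⟩
    · have l1 := (hf a).2
      rw [sz_bits] at l1
      have l2 : (update (fun _ => []) (0 : Fin 2) (bitEncode a) 0).length = sz a := by simp
      rw [l2]
      have l3 : (bitEncode (f a)).length ≤ qf.eval (sz a) := (hf a).2
      simp only [List.length_reverse]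
      omega
    · funext x
      fin_cases x
      · simp [hs2, h a]
      · simp

@[fun_prop]
theorem pt_natOfBits {f : α → List Bool} (hf : IsPolyTime f) :
    IsPolyTime (fun a => natOfBits (f a)) := by
  have h1 : IsPolyTime (fun a => f a ++ [true]) := by fun_prop
  exact pt_unquote h1 (fun a => encodeNat_natOfBits (f a))

end Pool.Agent.Lib.PolyTime
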