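import Pool.Agent.Lib.PolyTime.Quote

/-!
# Polynomial time decoding
-/

namespace Pool.Agent.Lib.PolyTime

open Turing Function N487b59b3 N68a2faeb

/-- types whose encodings can be recognised and decoded in polynomial time -/
class PolyDec (α : Type) [N487b59b3 α] : Prop where
  exists_dec : ∃ dec : List Bool → List α, IsPolyTime dec ∧ (∀ a, dec (bitEncode a) = [a]) ∧
    ∀ l a, a ∈ dec l → l = bitEncode a

/-- a decoder: `dec l = [a]` if `l = bitEncode a`, and `dec l = []` if `l` is not an encoding -/
noncomputable def dec (α : Type) [N487b59b3 α] [PolyDec α] : List Bool → List α :=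
  (PolyDec.exists_dec (α := α)).choose

variable {α β γ δ : Type} [N487b59b3 α] [N487b59b3 β] [N487b59b3 γ] [N487b59b3 δ]

theorem pt_dec' [PolyDec α] : IsPolyTime (dec α) :=
  (PolyDec.exists_dec (α := α)).choose_spec.1

@[fun_prop]
theorem pt_dec [PolyDec α] {f : β → List Bool} (hf : IsPolyTime f) :
    IsPolyTime (fun b => dec α (f b)) := pt_comp pt_dec' hf

@[simp]
theorem dec_bitEncode [PolyDec α] (a : α) : dec α (bitEncode a) = [a] :=
  (PolyDec.exists_dec (α := α)).choose_spec.2.1 a

theorem mem_dec [PolyDec α] {l : List Bool} {a : α} : a ∈ dec α l ↔ l = bitEncode a := by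
  constructor
  · exact (PolyDec.exists_dec (α := α)).choose_spec.2.2 l a
  · rintro rfl
    simp

theorem dec_eq [PolyDec α] {l : List Bool} {a : α} (h : a ∈ dec α l) : dec α l = [a] := by
  rw [mem_dec] at h
  rw [h, dec_bitEncode]

instance : PolyDec Bool where
  exists_dec := by
    refine ⟨fun l => cond (decide (l.length = 1)) l [], by fun_prop, ?_, ?_⟩
    · intro a; rfl
    · intro l a h
      by_cases hl : l.length = 1
      · simp only [hl, decide_true, cond_true] at h
        rw [List.length_eq_one_iff] at hl
        obtain ⟨b, rfl⟩ := hl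
        rw [List.mem_singleton] at h
        subst h
        rfl
      · simp [hl] at h

theorem encodePosNum_ends (n : PosNum) : ∃ l, Computability.encodePosNum n = l ++ [true] := by
  induction n with
  | one => exact ⟨[], rfl⟩
  | bit1 n ih =>
    obtain ⟨l, hl⟩ := ih
    exact ⟨true :: l, by simp [Computability.encodePosNum, hl]⟩
  | bit0 n ih =>
    obtain ⟨l, hl⟩ := ih
    exact ⟨false :: l, by simp [Computability.encodePosNum, hl]⟩

theorem encodeNat_ends (n : ℕ) : Computability.encodeNat n = [] ∨
    ∃ l, Computability.encodeNat n = l ++ [true] := by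
  unfold Computability.encodeNat
  cases (n : Num) with
  | zero => exact Or.inl rfl
  | pos m => exact Or.inr (encodePosNum_ends m)

instance : PolyDec ℕ where
  exists_dec := by
    refine ⟨fun l => cond l.isEmpty [0] (cond (l.reverse.headD false)
      [natOfBits l.reverse.tail.reverse] []), by fun_prop, ?_, ?_⟩
    · intro n
      have hn : bitEncode n = Computability.encodeNat n := rfl
      rcases encodeNat_ends n with h | ⟨l, h⟩
      · rw [← hn] at h
        have h0 : n = 0 := bitEncode_injective (h.trans rfl)
        rw [h]
        simp [h0]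
      · rw [← hn] at h
        rw [h]
        have h1 : (l ++ [true]).isEmpty = false := by simp
        have h2 : natOfBits l = n := bitEncode_injective ((encodeNat_natOfBits l).trans h.symm)
        simp only [h1, cond_false, List.reverse_append, List.reverse_cons, List.reverse_nil,
          List.nil_append, List.cons_append, List.headD_cons, cond_true, List.tail_cons,
          List.reverse_reverse, h2]
    · intro l n h
      by_cases hl : l = []
      · subst hl
        simp only [List.isEmpty_nil, cond_true, List.mem_singleton] at h
        subst h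
        rfl
      · have h1 : l.isEmpty = false := by simpa using hl
        simp only [h1, cond_false] at h
        obtain ⟨l', b, rfl⟩ : ∃ l' b, l = l' ++ [b] :=
          ⟨l.dropLast, l.getLast hl, (List.dropLast_append_getLast hl).symm⟩
        simp only [List.reverse_append, List.reverse_cons, List.reverse_nil, List.nil_append,
          List.cons_append, List.headD_cons, List.tail_cons, List.reverse_reverse] at h
        cases b with
        | false => simp at h
        | true =>
          simp only [cond_true, List.mem_singleton] at h
          rw [h]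
          exact (encodeNat_natOfBits l').symm

/-- the body of a delimited block -/
def dl (e : List Bool) : List Bool := e.flatMap fun b => [true, b]

theorem delimit_eq (e : List Bool) : delimit e = dl e ++ [false] := by
  induction e with
  | nil => rfl
  | cons b e ih => simp [delimit, dl, ih]

theorem dl_append (e e' : List Bool) : dl (e ++ e') = dl e ++ dl e' := by
  simp [dl]

theorem length_dl (e : List Bool) : (dl e).length = 2 * e.length := by
  simp [dl, List.length_flatMap, mul_comm]

/-- one step of splitting a block off -/
def spStep (s : ℕ × List Bool × List Bool) (b : Bool) : ℕ × List Bool × List Bool :=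
  cond (decide (s.1 = 0)) (cond b (1, s.2) (2, s.2))
    (cond (decide (s.1 = 1)) (0, s.2.1 ++ [b], s.2.2) (2, s.2.1, s.2.2 ++ [b]))

/-- invariant of splitting -/
def SpInv (l : List Bool) (s : ℕ × List Bool × List Bool) : Prop :=
  (s.1 = 0 ∧ s.2.2 = [] ∧ l = dl s.2.1) ∨ (s.1 = 1 ∧ s.2.2 = [] ∧ l = dl s.2.1 ++ [true]) ∨
    (s.1 = 2 ∧ l = dl s.2.1 ++ [false] ++ s.2.2)

theorem SpInv.step {l : List Bool} {s : ℕ × List Bool × List Bool} (h : SpInv l s) (b : Bool) :
    SpInv (l ++ [b]) (spStep s b) := by
  obtain ⟨m, e, r⟩ := s
  rcases h with ⟨h1, h2, h3⟩ | ⟨h1, h2, h3⟩ | ⟨h1, h3⟩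
  · simp only at h1 h2 h3
    subst h1 h2 h3
    cases b
    · right; right; simp [spStep]
    · right; left; simp [spStep]
  · simp only at h1 h2 h3
    subst h1 h2 h3
    left
    simp [spStep, dl_append]
    simp [dl]
  · simp only at h1 h3
    subst h1 h3
    right; right
    simp [spStep]

theorem SpInv.foldl : ∀ (l' l : List Bool) (s : ℕ × List Bool × List Bool), SpInv l s →
    SpInv (l ++ l') (l'.foldl spStep s) := by
  intro l'
  induction l' with
  | nil => intro l s h; simpa using h
  | cons b l' ih =>
    intro l s h
    rw [List.foldl_cons]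
    have := ih (l ++ [b]) _ (h.step b)
    simpa using this

theorem spInv_foldl (l : List Bool) : SpInv l (l.foldl spStep (0, [], [])) :=
  SpInv.foldl l [] (0, [], []) (Or.inl ⟨rfl, rfl, rfl⟩)

theorem foldl_spStep_two : ∀ (l e r : List Bool),
    l.foldl spStep (2, e, r) = (2, e, r ++ l) := by
  intro l
  induction l with
  | nil => intro e r; simp
  | cons b l ih => intro e r; rw [List.foldl_cons]; simp [spStep, ih]

theorem foldl_spStep_delimit : ∀ (e₁ e₂ e : List Bool),
    (delimit e₁ ++ e₂).foldl spStep (0, e, []) = (2, e ++ e₁, e₂) := by
  intro e₁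
  induction e₁ with
  | nil =>
    intro e₂ e
    simp only [delimit, List.cons_append, List.nil_append, List.foldl_cons, List.append_nil]
    have : spStep (0, e, []) false = (2, e, []) := rfl
    rw [this, foldl_spStep_two]
    simp
  | cons b e₁ ih =>
    intro e₂ e
    simp only [delimit, List.cons_append, List.foldl_cons]
    have : spStep (spStep (0, e, []) true) b = (0, e ++ [b], []) := rfl
    rw [this, ih]
    simp

/-- split an encoded pair -/
def split (l : List Bool) : List (List Bool × List Bool) :=
  cond (decide ((l.foldl spStep (0, [], [])).1 = 2)) [(l.foldl spStep (0, [], [])).2] []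

theorem split_delimit (e₁ e₂ : List Bool) : split (delimit e₁ ++ e₂) = [(e₁, e₂)] := by
  unfold split
  rw [foldl_spStep_delimit]
  simp

theorem mem_split {l e₁ e₂ : List Bool} (h : (e₁, e₂) ∈ split l) : l = delimit e₁ ++ e₂ := by
  unfold split at h
  by_cases h2 : (l.foldl spStep (0, [], [])).1 = 2
  · simp only [h2, decide_true, cond_true, List.mem_singleton] at h
    have h3 := spInv_foldl l
    rcases h3 with ⟨h4, _⟩ | ⟨h4, _⟩ | ⟨_, h5⟩
    · rw [h2] at h4; simp at h4
    · rw [h2] at h4; simp at h4
    · rw [← h] at h5
      rw [delimit_eq]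
      exact h5
  · simp [h2] at h

theorem sz_nil' : sz ([] : List α) = 0 := by simp [sz_nil]

theorem SpInv.size {l : List Bool} {s : ℕ × List Bool × List Bool} (h : SpInv l s) :
    sz s ≤ 6 + 6 * l.length := by
  obtain ⟨m, e, r⟩ := s
  rw [sz_pair, sz_pair, sz_bits, sz_bits]
  have hm : sz m ≤ m := sz_nat_le m
  rcases h with ⟨h1, h2, h3⟩ | ⟨h1, h2, h3⟩ | ⟨h1, h3⟩
  · simp only at h1 h2 h3
    subst h1 h2 h3
    rw [length_dl]
    simp only [List.length_nil]
    omega
  · simp only at h1 h2 h3
    subst h1 h2 h3
    rw [List.length_append, length_dl]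
    simp only [List.length_nil, List.length_singleton]
    omega
  · simp only at h1 h3
    subst h1 h3
    rw [List.length_append, List.length_append, length_dl]
    simp only [List.length_singleton]
    omega

theorem pt_spStep {f : α → ℕ × List Bool × List Bool} {g : α → Bool} (hf : IsPolyTime f)
    (hg : IsPolyTime g) : IsPolyTime (fun a => spStep (f a) (g a)) := by
  unfold spStep
  fun_prop

@[fun_prop]
theorem pt_split {f : α → List Bool} (hf : IsPolyTime f) : IsPolyTime (fun a => split (f a)) := by
  have h : IsPolyTime (fun l : List Bool => l.foldl spStep (0, [], [])) := by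
    refine pt_foldl (α := List Bool) (β := Bool) (g := fun _ s b => spStep s b)
      (l := fun l => l) (s := fun _ => (0, [], [])) (pt_spStep (by fun_prop) (by fun_prop))
      pt_id (pt_const _) (6 + 6 * Polynomial.X) ?_
    intro l k
    have h1 := (spInv_foldl (l.take k)).size
    have h2 : (l.take k).length ≤ l.length := by rw [List.length_take]; omega
    have h3 := length_le_sz l
    simp only [Polynomial.eval_add, Polynomial.eval_mul, Polynomial.eval_ofNat,
      Polynomial.eval_X]
    refine h1.trans ?_
    omega
  have h' : IsPolyTime (fun l : List Bool => split l) := by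
    unfold split
    fun_prop
  exact pt_comp h' hf

instance [PolyDec α] [PolyDec β] : PolyDec (α × β) where
  exists_dec := by
    refine ⟨fun l => (split l).flatMap fun e => (dec α e.1).flatMap fun a =>
      (dec β e.2).map fun b => (a, b), by fun_prop, ?_, ?_⟩
    · rintro ⟨a, b⟩
      have h : bitEncode (a, b) = delimit (bitEncode a) ++ bitEncode b := rfl
      simp only [h, split_delimit]
      simp
    · rintro l ⟨a, b⟩ h
      simp only [List.mem_flatMap, List.mem_map, Prod.mk.injEq] at h
      obtain ⟨⟨e₁, e₂⟩, he, a', ha', b', hb', rfl, rfl⟩ := h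
      rw [mem_split he]
      rw [mem_dec] at ha' hb'
      simp only at ha' hb'
      rw [ha', hb']
      rfl

/-- one step of splitting into blocks -/
def blStep (s : ℕ × List Bool × List (List Bool)) (b : Bool) : ℕ × List Bool × List (List Bool) :=
  cond (decide (s.1 = 0)) (cond b (1, s.2) (0, [], s.2.2 ++ [s.2.1])) (0, s.2.1 ++ [b], s.2.2)

/-- invariant -/
def BlInv (l : List Bool) (s : ℕ × List Bool × List (List Bool)) : Prop :=
  (s.1 = 0 ∧ l = (s.2.2.map delimit).flatten ++ dl s.2.1) ∨
    (s.1 = 1 ∧ l = (s.2.2.map delimit).flatten ++ dl s.2.1 ++ [true])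

theorem BlInv.step {l : List Bool} {s : ℕ × List Bool × List (List Bool)} (h : BlInv l s)
    (b : Bool) : BlInv (l ++ [b]) (blStep s b) := by
  obtain ⟨m, e, r⟩ := s
  rcases h with ⟨h1, h3⟩ | ⟨h1, h3⟩
  · simp only at h1 h3
    subst h1 h3
    cases b
    · left
      simp [blStep, delimit_eq, dl]
    · right; simp [blStep]
  · simp only at h1 h3
    subst h1 h3
    left
    simp [blStep, dl_append]
    simp [dl]

theorem BlInv.foldl : ∀ (l' l : List Bool) (s : ℕ × List Bool × List (List Bool)), BlInv l s →
    BlInv (l ++ l') (l'.foldl blStep s) := by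
  intro l'
  induction l' with
  | nil => intro l s h; simpa using h
  | cons b l' ih =>
    intro l s h
    rw [List.foldl_cons]
    have := ih (l ++ [b]) _ (h.step b)
    simpa using this

theorem blInv_foldl (l : List Bool) : BlInv l (l.foldl blStep (0, [], [])) :=
  BlInv.foldl l [] (0, [], []) (Or.inl ⟨rfl, rfl⟩)

theorem foldl_blStep_delimit : ∀ (e₁ e₂ e : List Bool) (r : List (List Bool)),
    (delimit e₁ ++ e₂).foldl blStep (0, e, r) = e₂.foldl blStep (0, [], r ++ [e ++ e₁]) := by
  intro e₁
  induction e₁ with
  | nil =>
    intro e₂ e r
    simp only [delimit, List.cons_append, List.nil_append, List.foldl_cons, List.append_nil]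
    rfl
  | cons b e₁ ih =>
    intro e₂ e r
    simp only [delimit, List.cons_append, List.foldl_cons]
    have : blStep (blStep (0, e, r) true) b = (0, e ++ [b], r) := rfl
    rw [this, ih]
    simp

theorem foldl_blStep_blocks : ∀ (bs r : List (List Bool)),
    ((bs.map delimit).flatten).foldl blStep (0, [], r) = (0, [], r ++ bs) := by
  intro bs
  induction bs with
  | nil => intro r; simp
  | cons e bs ih =>
    intro r
    rw [List.map_cons, List.flatten_cons, foldl_blStep_delimit, ih]
    simp

/-- the blocks, `[bs]` if the list is correctly formed -/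
def blocksOf (l : List Bool) : List (List (List Bool)) :=
  cond (decide ((l.foldl blStep (0, [], [])).1 = 0) &&
    (l.foldl blStep (0, [], [])).2.1.isEmpty) [(l.foldl blStep (0, [], [])).2.2] []

theorem blocksOf_flatten (bs : List (List Bool)) :
    blocksOf ((bs.map delimit).flatten) = [bs] := by
  unfold blocksOf
  rw [foldl_blStep_blocks]
  simp

theorem mem_blocksOf {l : List Bool} {bs : List (List Bool)} (h : bs ∈ blocksOf l) :
    l = (bs.map delimit).flatten := by
  unfold blocksOf at h
  by_cases h2 : (l.foldl blStep (0, [], [])).1 = 0 ∧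
    (l.foldl blStep (0, [], [])).2.1 = []
  · simp only [h2.1, h2.2, decide_true, Bool.true_and, List.isEmpty_nil, cond_true,
      List.mem_singleton] at h
    have h3 := blInv_foldl l
    rcases h3 with ⟨_, h5⟩ | ⟨h4, _⟩
    · rw [h2.2, ← h] at h5
      simpa [dl] using h5
    · rw [h2.1] at h4; simp at h4
  · have h3 : (decide ((l.foldl blStep (0, [], [])).1 = 0) &&
      (l.foldl blStep (0, [], [])).2.1.isEmpty) = false := by
      rw [Bool.eq_false_iff]
      simpa using h2
    rw [h3] at h
    simp at h

theorem sz_blocks_le (bs : List (List Bool)) : sz bs ≤ 3 * ((bs.map delimit).flatten).length := by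
  induction bs with
  | nil => simp [sz_nil]
  | cons e bs ih =>
    rw [sz_cons, sz_bits, List.map_cons, List.flatten_cons, List.length_append, length_delimit]
    omega

theorem BlInv.size {l : List Bool} {s : ℕ × List Bool × List (List Bool)} (h : BlInv l s) :
    sz s ≤ 6 + 6 * l.length := by
  obtain ⟨m, e, r⟩ := s
  rw [sz_pair, sz_pair, sz_bits]
  have hm : sz m ≤ m := sz_nat_le m
  have hr := sz_blocks_le r
  rcases h with ⟨h1, h3⟩ | ⟨h1, h3⟩
  · simp only at h1 h3
    subst h1 h3
    rw [List.length_append, length_dl]
    omega
  · simp only at h1 h3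
    subst h1 h3
    rw [List.length_append, List.length_append, length_dl]
    simp only [List.length_singleton]
    omega

theorem pt_blStep {f : α → ℕ × List Bool × List (List Bool)} {g : α → Bool} (hf : IsPolyTime f)
    (hg : IsPolyTime g) : IsPolyTime (fun a => blStep (f a) (g a)) := by
  unfold blStep
  fun_prop

@[fun_prop]
theorem pt_blocksOf {f : α → List Bool} (hf : IsPolyTime f) :
    IsPolyTime (fun a => blocksOf (f a)) := by
  have h : IsPolyTime (fun l : List Bool => l.foldl blStep (0, [], [])) := by
    refine pt_foldl (α := List Bool) (β := Bool) (g := fun _ s b => blStep s b)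
      (l := fun l => l) (s := fun _ => (0, [], [])) (pt_blStep (by fun_prop) (by fun_prop))
      pt_id (pt_const _) (6 + 6 * Polynomial.X) ?_
    intro l k
    have h1 := (blInv_foldl (l.take k)).size
    have h2 : (l.take k).length ≤ l.length := by rw [List.length_take]; omega
    have h3 := length_le_sz l
    simp only [Polynomial.eval_add, Polynomial.eval_mul, Polynomial.eval_ofNat,
      Polynomial.eval_X]
    refine h1.trans ?_
    omega
  have h' : IsPolyTime (fun l : List Bool => blocksOf l) := by
    unfold blocksOf
    fun_prop
  exact pt_comp h' hf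

instance [PolyDec α] : PolyDec (List α) where
  exists_dec := by
    refine ⟨fun l => (blocksOf l).flatMap fun bs =>
      cond (bs.all fun b => !(dec α b).isEmpty) [bs.flatMap fun b => dec α b] [],
      by fun_prop, ?_, ?_⟩
    · intro as
      have h : bitEncode as = ((as.map bitEncode).map delimit).flatten := rfl
      simp only [h, blocksOf_flatten]
      have h1 : ((as.map bitEncode).all fun b => !(dec α b).isEmpty) = true := by
        rw [List.all_eq_true]
        intro b hb
        rw [List.mem_map] at hb
        obtain ⟨a, _, rfl⟩ := hb
        simp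
      have h2 : ((as.map bitEncode).flatMap fun b => dec α b) = as := by
        rw [List.flatMap_map]
        simp
      simp only [List.flatMap_cons, List.flatMap_nil, List.append_nil, h1, cond_true, h2]
    · intro l as h
      rw [List.mem_flatMap] at h
      obtain ⟨bs, hbs, h⟩ := h
      rw [mem_blocksOf hbs]
      by_cases h1 : (bs.all fun b => !(dec α b).isEmpty) = true
      · rw [h1, cond_true, List.mem_singleton] at h
        subst h
        have h2 : bitEncode (bs.flatMap fun b => dec α b) =
          (((bs.flatMap fun b => dec α b).map bitEncode).map delimit).flatten := rfl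
        rw [h2]
        congr 2
        rw [List.all_eq_true] at h1
        clear hbs h2
        induction bs with
        | nil => rfl
        | cons b bs ih =>
          have h3 := h1 b List.mem_cons_self
          have h4 : ∃ a, a ∈ dec α b := by
            cases hd : dec α b with
            | nil => rw [hd] at h3; simp at h3
            | cons a as => exact ⟨a, List.mem_cons_self⟩
          obtain ⟨a, ha⟩ := h4
          rw [List.flatMap_cons, dec_eq ha, List.map_append,
            ← ih (fun x hx => h1 x (List.mem_cons_of_mem _ hx))]
          rw [mem_dec] at ha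
          rw [ha]
          rfl
      · simp only [Bool.not_eq_true] at h1
        rw [h1] at h
        simp at h

end Pool.Agent.Lib.PolyTime
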