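import Pool.Agent.Lib.PolyTime.Lists

/-!
# Polynomial time functions: `fun_prop` set-up and more list functions

After `import Pool.Agent.Lib.PolyTime.Main` and `open N68a2faeb N487b59b3`, goals of the form
`IsPolyTime (fun a => ...)` built from pairs, list operations, `cond`, `if`, equality tests,
successor ... are proved by `by fun_prop`.
-/

namespace Pool.Agent.Lib.PolyTime

open Turing Function N487b59b3 N68a2faeb

attribute [fun_prop] N68a2faeb.IsPolyTime

attribute [fun_prop] pt_id pt_const pt_comp pt_pair pt_fst pt_snd pt_cons pt_append pt_succ
  pt_name pt_tail pt_headD pt_isEmpty pt_and pt_or pt_not pt_flatMap pt_map pt_filter pt_cond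
  pt_ite pt_eq pt_any pt_all pt_reverse pt_length pt_mem

variable {α β γ δ : Type} [N487b59b3 α] [N487b59b3 β] [N487b59b3 γ] [N487b59b3 δ]

@[fun_prop]
theorem pt_flatten {l : α → List (List β)} (hl : IsPolyTime l) :
    IsPolyTime (fun a => (l a).flatten) := by
  have h : IsPolyTime (fun a => (l a).flatMap (fun b => b)) := by fun_prop
  exact pt_congr h (fun a => by simp)

/-- numbering the elements of a list -/
@[fun_prop]
theorem pt_zipIdx {l : α → List β} (hl : IsPolyTime l) : IsPolyTime (fun a => (l a).zipIdx) := by
  obtain ⟨ql, hql⟩ := exists_size hl
  have hfold : ∀ (L : List β) (s : List (β × ℕ)) (n : ℕ),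
      L.foldl (fun (s : List (β × ℕ) × ℕ) b => (s.1 ++ [(b, s.2)], s.2 + 1)) (s, n) =
        (s ++ L.zipIdx n, n + L.length) := by
    intro L
    induction L with
    | nil => intro s n; simp
    | cons b L ih =>
      intro s n
      rw [List.foldl_cons, ih]
      simp only [List.zipIdx_cons, List.append_assoc, List.singleton_append, List.length_cons,
        Prod.mk.injEq, true_and]
      omega
  have h := pt_foldl (α := α) (β := β)
    (g := fun (_ : α) (s : List (β × ℕ) × ℕ) (b : β) => (s.1 ++ [(b, s.2)], s.2 + 1))
    (s := fun _ => (([] : List (β × ℕ)), 0)) (by fun_prop) hl (by fun_prop)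
    (2 * (ql * (2 * (2 * ql + 1 + ql) + 1)) + 1 + ql) (by
      intro a k
      rw [hfold, List.nil_append, zero_add, sz_pair]
      have hlen : ((l a).take k).length ≤ ql.eval (sz a) :=
        ((length_le_sz _).trans (sz_take_le _ _)).trans (hql a)
      have h1 : ∀ x ∈ ((l a).take k).zipIdx, sz x ≤ 2 * ql.eval (sz a) + 1 + ql.eval (sz a) := by
        rintro ⟨b, i⟩ hx
        rw [List.mem_zipIdx_iff_getElem?] at hx
        obtain ⟨hi, hb⟩ := List.getElem?_eq_some_iff.mp hx
        simp only at hi hb
        have hmem : b ∈ (l a).take k := hb ▸ List.getElem_mem hi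
        have h2 := sz_le_of_mem hmem
        have h3 := sz_take_le (l a) k
        have h4 := hql a
        have h5 := sz_nat_le i
        rw [sz_pair]
        omega
      have h6 := sz_le_mul h1
      have h7 := sz_nat_le ((l a).take k).length
      have h8 : ((l a).take k).zipIdx.length * (2 * (2 * ql.eval (sz a) + 1 +
          ql.eval (sz a)) + 1) ≤ ql.eval (sz a) * (2 * (2 * ql.eval (sz a) + 1 +
          ql.eval (sz a)) + 1) := by
        rw [List.length_zipIdx]
        exact Nat.mul_le_mul_right _ hlen
      simp only [Polynomial.eval_add, Polynomial.eval_mul, Polynomial.eval_ofNat,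
          Polynomial.eval_one]
      omega)
  exact pt_congr (pt_fst h) (fun a => by rw [hfold, List.nil_append])

/-- the list `0, 1, .., length - 1` -/
theorem pt_range {l : α → List β} (hl : IsPolyTime l) :
    IsPolyTime (fun a => List.range (l a).length) := by
  have h : IsPolyTime (fun a => (l a).zipIdx.map (fun x => x.2)) := by fun_prop
  refine pt_congr h (fun a => ?_)
  rw [List.range_eq_range']
  exact List.zipIdx_map_snd 0 (l a)

/-- unary numbers: a list whose length is a polynomial of the length of `l a` -/
theorem pt_upoly (p : Polynomial ℕ) {l : α → List β} (hl : IsPolyTime l) :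
    IsPolyTime (fun a => List.replicate (p.eval (l a).length) true) := by
  induction p using Polynomial.induction_on' with
  | add p q hp hq =>
    have h : IsPolyTime (fun a => List.replicate (p.eval (l a).length) true ++
      List.replicate (q.eval (l a).length) true) := by fun_prop
    refine pt_congr h (fun a => ?_)
    rw [Polynomial.eval_add, List.replicate_add]
  | monomial n c =>
    induction n with
    | zero =>
      refine pt_congr (pt_const (List.replicate c true)) (fun a => ?_)
      simp
    | succ n ih =>
      have h : IsPolyTime (fun a => (l a).flatMap (fun _ =>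
        List.replicate ((Polynomial.monomial n c).eval (l a).length) true)) :=
        pt_flatMap hl (pt_comp ih pt_fst')
      refine pt_congr h (fun a => ?_)
      rw [List.eq_replicate_iff]
      constructor
      · rw [List.length_flatMap]
        simp only [List.length_replicate, List.map_const', List.sum_replicate, smul_eq_mul,
          Polynomial.eval_monomial]
        ring
      · intro b hb
        rw [List.mem_flatMap] at hb
        obtain ⟨_, _, hb⟩ := hb
        exact List.eq_of_mem_replicate hb

/-- the range of a polynomial of the length of `l a` -/
theorem pt_range_poly (p : Polynomial ℕ) {l : α → List β} (hl : IsPolyTime l) :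
    IsPolyTime (fun a => List.range (p.eval (l a).length)) := by
  refine pt_congr (pt_range (pt_upoly p hl)) (fun a => ?_)
  rw [List.length_replicate]

/-- `getD` -/
theorem pt_getD (d : β) {l : α → List β} {i : α → ℕ} (hl : IsPolyTime l) (hi : IsPolyTime i) :
    IsPolyTime (fun a => (l a).getD (i a) d) := by
  have h : IsPolyTime (fun a => (((l a).zipIdx.filter (fun x => decide (x.2 = i a))).map
    (fun x => x.1)).headD d) := by fun_prop
  refine pt_congr h (fun a => ?_)
  have key : ∀ (L : List β) (n i : ℕ), (((L.zipIdx n).filter (fun x => decide (x.2 = n + i))).map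
    (fun x => x.1)).headD d = L.getD i d := by
    intro L
    induction L with
    | nil => intro n i; simp
    | cons b L ih =>
      intro n i
      rw [List.zipIdx_cons, List.filter_cons]
      cases i with
      | zero => simp
      | succ i =>
        have h1 : ¬ (n = n + (i + 1)) := by omega
        have h2 := ih (n + 1) i
        have h3 : n + 1 + i = n + (i + 1) := by omega
        rw [h3] at h2
        simp only [decide_eq_true_eq, h1, if_false]
        rw [h2]
        simp
  have := key (l a) 0 (i a)
  simpa using this

/-- conditional selection from a constant finite list of alternatives -/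
theorem pt_flatMap_const {ι : Type} (L : List ι) {f : ι → α → List β}
    (hf : ∀ i ∈ L, IsPolyTime (f i)) : IsPolyTime (fun a => L.flatMap (fun i => f i a)) := by
  induction L with
  | nil => exact pt_const []
  | cons i L ih =>
    have h1 := hf i List.mem_cons_self
    have h2 := ih (fun j hj => hf j (List.mem_cons_of_mem _ hj))
    simp only [List.flatMap_cons]
    exact pt_append h1 h2

example (f : α → List ℕ) (hf : IsPolyTime f) :
    IsPolyTime (fun p : α => (f p).map (fun n => (n+1, f p))) := by fun_prop

end Pool.Agent.Lib.PolyTime
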