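import Pool.Agent.Lib.PolyTime.Mul
import Pool.Agent.Lib.PolyTime.Quote

/-!
# Polynomially bounded numbers and ranges
-/

namespace Pool.Agent.Lib.PolyTime

open N487b59b3 N68a2faeb

variable {α β γ δ : Type} [N487b59b3 α] [N487b59b3 β] [N487b59b3 γ] [N487b59b3 δ]

/-- the value of `f` is bounded by a polynomial of the size of the argument -/
def PB (f : α → ℕ) : Prop := ∃ p : Polynomial ℕ, ∀ a, f a ≤ p.eval (sz a)

theorem pb_mono {f g : α → ℕ} (hg : PB g) (h : ∀ a, f a ≤ g a) : PB f := by
  obtain ⟨p, hp⟩ := hg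
  exact ⟨p, fun a => (h a).trans (hp a)⟩

theorem pb_const (c : ℕ) : PB (fun _ : α => c) := ⟨Polynomial.C c, fun a => by simp⟩

theorem pb_add {f g : α → ℕ} (hf : PB f) (hg : PB g) : PB (fun a => f a + g a) := by
  obtain ⟨p, hp⟩ := hf
  obtain ⟨q, hq⟩ := hg
  exact ⟨p + q, fun a => by rw [Polynomial.eval_add]; exact Nat.add_le_add (hp a) (hq a)⟩

theorem pb_mul {f g : α → ℕ} (hf : PB f) (hg : PB g) : PB (fun a => f a * g a) := by
  obtain ⟨p, hp⟩ := hf
  obtain ⟨q, hq⟩ := hg
  exact ⟨p * q, fun a => by rw [Polynomial.eval_mul]; exact Nat.mul_le_mul (hp a) (hq a)⟩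

theorem pb_sub {f g : α → ℕ} (hf : PB f) : PB (fun a => f a - g a) :=
  pb_mono hf (fun _ => Nat.sub_le _ _)

theorem pb_ite {c : α → Prop} [DecidablePred c] {f g : α → ℕ} (hf : PB f) (hg : PB g) :
    PB (fun a => if c a then f a else g a) := by
  refine pb_mono (pb_add hf hg) (fun a => ?_)
  split_ifs <;> omega

theorem pb_length {l : α → List β} (hl : IsPolyTime l) : PB (fun a => (l a).length) := by
  obtain ⟨q, hq⟩ := exists_size hl
  exact ⟨q, fun a => (length_le_sz _).trans (hq a)⟩

theorem pb_comp {f : β → ℕ} {g : α → β} (hf : PB f) (hg : IsPolyTime g) :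
    PB (fun a => f (g a)) := by
  obtain ⟨p, hp⟩ := hf
  obtain ⟨q, hq⟩ := exists_size hg
  refine ⟨p.comp q, fun a => ?_⟩
  rw [Polynomial.eval_comp]
  exact (hp _).trans (eval_mono p (hq a))

theorem filter_range {m n : ℕ} (h : m ≤ n) :
    (List.range n).filter (fun i => decide (i < m)) = List.range m := by
  obtain ⟨k, rfl⟩ := Nat.exists_eq_add_of_le h
  rw [List.range_add, List.filter_append]
  have h1 : (List.range m).filter (fun i => decide (i < m)) = List.range m := by
    rw [List.filter_eq_self]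
    intro a ha
    simpa using ha
  have h2 : ((List.range k).map (m + ·)).filter (fun i => decide (i < m)) = [] := by
    rw [List.filter_eq_nil_iff]
    intro a ha
    rw [List.mem_map] at ha
    obtain ⟨b, _, rfl⟩ := ha
    simp
  rw [h1, h2, List.append_nil]

/-- the range of a polynomially bounded number -/
theorem pt_rangeN {f : α → ℕ} (hf : IsPolyTime f) (hb : PB f) :
    IsPolyTime (fun a => List.range (f a)) := by
  obtain ⟨p, hp⟩ := hb
  have h1 : IsPolyTime (fun a : α => List.range (p.eval (bitEncode a : List Bool).length)) :=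
    pt_range_poly p pt_quote'
  have h2 : IsPolyTime (fun x : α × ℕ => f x.1) := pt_comp hf pt_fst'
  have h3 : IsPolyTime (fun a : α =>
      (List.range (p.eval (bitEncode a : List Bool).length)).filter
        (fun i => decide (i < f a))) := pt_filter h1 (pt_lt pt_snd' h2)
  exact pt_congr h3 (fun a => filter_range (hp a))

end Pool.Agent.Lib.PolyTime
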