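import Pool.Agent.Lib.PolyTime.Main

/-!
# Binary arithmetic in polynomial time

Natural numbers are encoded in binary.  Here: conversion between numbers and lists of binary
digits, doubling, addition, truncated subtraction, comparison, maximum, parity, and integers.
-/

namespace Pool.Agent.Lib.PolyTime

open Turing Function N487b59b3 N68a2faeb Prog

variable {α β γ δ : Type} [N487b59b3 α] [N487b59b3 β] [N487b59b3 γ] [N487b59b3 δ]

/-! ### Digits -/

/-- the binary digits of a number, least significant first -/
def bitsOf (n : ℕ) : List Bool := Computability.encodeNat n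

/-- value of a list of binary digits, least significant first -/
def ofBits : List Bool → ℕ
  | [] => 0
  | b :: l => 2 * ofBits l + cond b 1 0

theorem bitsOf_zero : bitsOf 0 = [] := rfl

theorem bitsOf_double {n : ℕ} (h : n ≠ 0) : bitsOf (2 * n) = false :: bitsOf n := by
  unfold bitsOf Computability.encodeNat
  have h1 : ((n : Num) : ℕ) = n := Num.to_of_nat n
  cases hm : (n : Num) with
  | zero => rw [hm] at h1; exact absurd h1.symm h
  | pos p =>
    rw [hm] at h1
    have h2 : ((2 * n : ℕ) : Num) = Num.pos (PosNum.bit0 p) := by
      apply Num.to_nat_inj.mp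
      rw [Num.to_of_nat, ← h1]
      simp only [Num.cast_pos, PosNum.cast_bit0]
      ring
    rw [h2]; rfl

theorem bitsOf_double_add_one (n : ℕ) : bitsOf (2 * n + 1) = true :: bitsOf n := by
  unfold bitsOf Computability.encodeNat
  have h1 : ((n : Num) : ℕ) = n := Num.to_of_nat n
  cases hm : (n : Num) with
  | zero =>
    rw [hm] at h1
    have : n = 0 := h1.symm
    subst this
    rfl
  | pos p =>
    rw [hm] at h1
    have h2 : ((2 * n + 1 : ℕ) : Num) = Num.pos (PosNum.bit1 p) := by
      apply Num.to_nat_inj.mp
      rw [Num.to_of_nat, ← h1]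
      simp only [Num.cast_pos, PosNum.cast_bit1]
      ring
    rw [h2]; rfl

theorem ofBits_bitsOf (n : ℕ) : ofBits (bitsOf n) = n := by
  induction n using Nat.strong_induction_on with
  | _ n ih =>
    rcases Nat.even_or_odd' n with ⟨m, rfl | rfl⟩
    · by_cases hm : m = 0
      · subst hm; rfl
      · rw [bitsOf_double hm, ofBits, ih m (by omega)]; simp
    · rw [bitsOf_double_add_one, ofBits, ih m (by omega)]; simp

theorem sz_nat (n : ℕ) : sz n = (bitsOf n).length := rfl

theorem sz_double_le (n : ℕ) : sz (2 * n) ≤ sz n + 1 := by
  by_cases h : n = 0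
  · subst h; simp [sz_nat, bitsOf_zero]
  · rw [sz_nat, bitsOf_double h, sz_nat]; simp

theorem sz_double_add_one (n : ℕ) : sz (2 * n + 1) = sz n + 1 := by
  rw [sz_nat, bitsOf_double_add_one, sz_nat]; simp

theorem sz_ofBits_le (l : List Bool) : sz (ofBits l) ≤ l.length := by
  induction l with
  | nil => simp [ofBits, sz_nat, bitsOf_zero]
  | cons b l ih =>
    cases b
    · have := sz_double_le (ofBits l)
      simp only [ofBits, cond_false, add_zero, List.length_cons]
      omega
    · have := sz_double_add_one (ofBits l)
      simp only [ofBits, cond_true, List.length_cons]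
      omega

theorem lt_two_pow_sz (n : ℕ) : n < 2 ^ sz n := by
  induction n using Nat.strong_induction_on with
  | _ n ih =>
    rcases Nat.even_or_odd' n with ⟨m, rfl | rfl⟩
    · by_cases hm : m = 0
      · subst hm; simp
      · rw [sz_nat, bitsOf_double hm, List.length_cons, pow_succ]
        have := ih m (by omega)
        rw [sz_nat] at this
        omega
    · rw [sz_nat, bitsOf_double_add_one, List.length_cons, pow_succ]
      have := ih m (by omega)
      rw [sz_nat] at this
      omega

theorem sz_mono {m n : ℕ} (h : m ≤ n) : sz m ≤ sz n := by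
  induction m using Nat.strong_induction_on generalizing n with
  | _ m ih =>
    have key : ∀ k : ℕ, k ≠ 0 → sz k = sz (k / 2) + 1 := by
      intro k hk
      rcases Nat.even_or_odd' k with ⟨j, rfl | rfl⟩
      · have hj : j ≠ 0 := by omega
        rw [sz_nat, bitsOf_double hj, List.length_cons, sz_nat]
        congr 2
        congr 1
        omega
      · rw [sz_double_add_one]
        congr 2
        omega
    by_cases hm : m = 0
    · subst hm; rw [sz_nat, bitsOf_zero]; simp
    · have hn : n ≠ 0 := by omega
      rw [key m hm, key n hn]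
      have := ih (m / 2) (by omega) (n := n / 2) (by omega)
      omega

theorem sz_two_pow_mul_le (k n : ℕ) : sz (2 ^ k * n) ≤ sz n + k := by
  induction k with
  | zero => simp
  | succ k ih =>
    have h1 : 2 ^ (k + 1) * n = 2 * (2 ^ k * n) := by ring
    rw [h1]
    have := sz_double_le (2 ^ k * n)
    omega

theorem sz_add_le (m n : ℕ) : sz (m + n) ≤ max (sz m) (sz n) + 1 := by
  have h1 : sz (m + n) ≤ sz (2 * max m n) := sz_mono (by omega)
  have h2 := sz_double_le (max m n)
  rcases le_total m n with h | h
  · rw [max_eq_right h] at h1 h2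
    have := sz_mono h
    rw [max_eq_right this]; omega
  · rw [max_eq_left h] at h1 h2
    have := sz_mono h
    rw [max_eq_left this]; omega

/-- doubling -/
theorem pt_double' : IsPolyTime (fun n : ℕ => 2 * n) := by
  have h1 : IsPolyTime (fun n : ℕ => (([] : List Bool), if n = 0 then 1 else n)) := by fun_prop
  have h2 : IsPolyTime (fun n : ℕ => 2 * (if n = 0 then 1 else n)) := by
    refine pt_congr_enc (fun n => ?_) h1
    have h3 : (if n = 0 then 1 else n) ≠ 0 := by split_ifs <;> omega
    rw [enc_pair, enc_nil]
    change delimit [] ++ bitsOf _ = bitsOf _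
    rw [bitsOf_double h3]
    rfl
  have h3 : IsPolyTime (fun n : ℕ => if n = 0 then 0 else 2 * (if n = 0 then 1 else n)) :=
    pt_ite (by fun_prop) (pt_const 0) h2
  refine pt_congr h3 (fun n => ?_)
  split_ifs with h
  · subst h; rfl
  · rfl

@[fun_prop]
theorem pt_double {f : α → ℕ} (hf : IsPolyTime f) : IsPolyTime (fun a => 2 * f a) :=
  pt_comp pt_double' hf

/-- the digits of a number as a list -/
theorem pt_bitsOf' : IsPolyTime (fun n : ℕ => bitsOf n) := by
  refine of_prog0 (R := Fin 2) _
    (.seq (.while 0 (.case 0 .skip
      (.seq (.push 1 true) (.seq (.push 1 false) (.push 1 false)))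
      (.seq (.push 1 true) (.seq (.push 1 true) (.push 1 false))))) (move 1 0)) 0 0
    (fun n => 8 * n + 8) (((PolyBd.const 8).mul PolyBd.id).add (PolyBd.const 8)) ?_
  have key : ∀ (l : List Bool) (s : Fin 2 → List Bool), s 0 = l →
      ∃ t ≤ 2 * l.length + 1, PRun noSubs (.while 0 (.case 0 .skip
      (.seq (.push 1 true) (.seq (.push 1 false) (.push 1 false)))
      (.seq (.push 1 true) (.seq (.push 1 true) (.push 1 false))))) s t
      (update (update s 0 []) 1 ((bitEncode l).reverse ++ s 1)) := by
    intro l
    induction l with
    | nil =>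
      intro s h0
      refine ⟨1, by simp, (PRun.while_done h0).cast noSubs rfl ?_⟩
      funext x
      fin_cases x
      · simp [h0]
      · simp [enc_nil]
    | cons b l ih =>
      intro s h0
      have hbody : ∃ t ≤ 1, PRun noSubs (.case 0 .skip
          (.seq (.push 1 true) (.seq (.push 1 false) (.push 1 false)))
          (.seq (.push 1 true) (.seq (.push 1 true) (.push 1 false)))) s t
          (update (update s 0 l) 1 ([false, b, true] ++ s 1)) := by
        cases b
        · have e1 := PRun.push (subs := noSubs) 1 true (update s 0 l)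
          have e2 := PRun.push (subs := noSubs) 1 false (update (update s 0 l) 1
            (true :: update s 0 l 1))
          have e3 := PRun.push (subs := noSubs) 1 false (update (update (update s 0 l) 1
            (true :: update s 0 l 1)) 1 (false :: update (update s 0 l) 1
            (true :: update s 0 l 1) 1))
          refine ⟨_, ?_, (PRun.case_false h0 (PRun.seq e1 (PRun.seq e2 e3))).cast noSubs rfl ?_⟩
          · simp
          · funext x
            fin_cases x <;> simp
        · have e1 := PRun.push (subs := noSubs) 1 true (update s 0 l)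
          have e2 := PRun.push (subs := noSubs) 1 true (update (update s 0 l) 1
            (true :: update s 0 l 1))
          have e3 := PRun.push (subs := noSubs) 1 false (update (update (update s 0 l) 1
            (true :: update s 0 l 1)) 1 (true :: update (update s 0 l) 1
            (true :: update s 0 l 1) 1))
          refine ⟨_, ?_, (PRun.case_true h0 (PRun.seq e1 (PRun.seq e2 e3))).cast noSubs rfl ?_⟩
          · simp
          · funext x
            fin_cases x <;> simp
      obtain ⟨t1, ht1, hr1⟩ := hbody
      obtain ⟨t2, ht2, hr2⟩ := ih (update (update s 0 l) 1 ([false, b, true] ++ s 1)) (by simp)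
      refine ⟨1 + t1 + t2, ?_, (PRun.while_step (by rw [h0]; simp) hr1 hr2).cast noSubs rfl ?_⟩
      · simp only [List.length_cons]; omega
      · funext x
        fin_cases x
        · simp
        · simp [enc_cons, enc_bool, delimit]
  intro n
  obtain ⟨t, ht, hr⟩ := key (bitEncode n) (update (fun _ => []) (0 : Fin 2) (bitEncode n))
    (by simp)
  set s2 := update (update (update (fun _ => []) (0 : Fin 2) (bitEncode n)) 0 []) 1
    ((bitEncode (bitEncode n)).reverse ++ update (fun _ => []) (0 : Fin 2) (bitEncode n) 1)
    with hs2
  have e3 := move_run noSubs (r := (1 : Fin 2)) (r' := 0) (by decide)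
    ((bitEncode (bitEncode n)).reverse) s2 (by simp [hs2])
  refine ⟨_, ?_, (PRun.seq hr e3).cast noSubs rfl ?_⟩
  · have h1 : (bitEncode (bitEncode n)).length = 3 * (bitEncode n).length := by
      have : ∀ l : List Bool, (bitEncode l).length = 3 * l.length := by
        intro l
        induction l with
        | nil => rfl
        | cons b l ih =>
          rw [enc_cons, List.length_append, ih, delimit_length, enc_bool]
          simp only [List.length_cons, List.length_nil]; ring
      exact this _
    rw [List.length_reverse, h1]
    change t + _ ≤ 8 * (bitEncode n).length + 8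
    omega
  · funext x
    fin_cases x
    · simp [hs2]; rfl
    · simp

@[fun_prop]
theorem pt_bitsOf {f : α → ℕ} (hf : IsPolyTime f) : IsPolyTime (fun a => bitsOf (f a)) :=
  pt_comp pt_bitsOf' hf

theorem sz_list_bool (l : List Bool) : sz l = 3 * l.length := by
  induction l with
  | nil => rfl
  | cons b l ih =>
    rw [sz_cons, ih, sz_bool, List.length_cons]; ring

theorem pt_ofBits' : IsPolyTime (fun l : List Bool => ofBits l) := by
  have h := pt_foldl (α := List Bool) (β := Bool) (γ := ℕ)
    (g := fun _ n b => cond b (2 * n + 1) (2 * n)) (s := fun _ => 0)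
    (by fun_prop) (pt_reverse pt_id) (pt_const 0) Polynomial.X (by
      intro l k
      have hfold : ∀ (L : List Bool) (n : ℕ),
          sz (L.foldl (fun n b => cond b (2 * n + 1) (2 * n)) n) ≤ sz n + L.length := by
        intro L
        induction L with
        | nil => intro n; simp
        | cons b L ih =>
          intro n
          rw [List.foldl_cons]
          refine (ih _).trans ?_
          cases b
          · have := sz_double_le n
            simp only [cond_false, List.length_cons]; omega
          · have := sz_double_add_one n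
            simp only [cond_true, List.length_cons]; omega
      refine (hfold _ _).trans ?_
      rw [Polynomial.eval_X, sz_list_bool, List.length_take, List.length_reverse]
      have : sz (0 : ℕ) = 0 := rfl
      omega)
  refine pt_congr h (fun l => ?_)
  rw [List.foldl_reverse]
  induction l with
  | nil => rfl
  | cons b l ih =>
    rw [List.foldr_cons, ih, ofBits]
    cases b <;> rfl

@[fun_prop]
theorem pt_ofBits {f : α → List Bool} (hf : IsPolyTime f) : IsPolyTime (fun a => ofBits (f a)) :=
  pt_comp pt_ofBits' hf

/-- Any Boolean function of three polynomial time Boolean functions. -/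
theorem pt_bool3 (o : Bool → Bool → Bool → Bool) {f g h : α → Bool} (hf : IsPolyTime f)
    (hg : IsPolyTime g) (hh : IsPolyTime h) : IsPolyTime (fun a => o (f a) (g a) (h a)) := by
  have : IsPolyTime (fun a => cond (f a)
      (cond (g a) (cond (h a) (o true true true) (o true true false))
        (cond (h a) (o true false true) (o true false false)))
      (cond (g a) (cond (h a) (o false true true) (o false true false))
        (cond (h a) (o false false true) (o false false false)))) := by fun_prop
  refine pt_congr this (fun a => ?_)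
  cases f a <;> cases g a <;> cases h a <;> rfl

/-- One step of a digitwise transducer on two lists. -/
def trStep (o m : Bool → Bool → Bool → Bool)
    (s : (List Bool × List Bool) × (Bool × List Bool)) :
    (List Bool × List Bool) × (Bool × List Bool) :=
  ((s.1.1.tail, s.1.2.tail),
    (m (s.1.1.headD false) (s.1.2.headD false) s.2.1,
      o (s.1.1.headD false) (s.1.2.headD false) s.2.1 :: s.2.2))

theorem pt_trStep (o m : Bool → Bool → Bool → Bool) : IsPolyTime (trStep o m) := by
  unfold trStep
  refine pt_pair (by fun_prop) (pt_pair ?_ (pt_cons ?_ (by fun_prop)))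
  · exact pt_bool3 m (by fun_prop) (by fun_prop) (by fun_prop)
  · exact pt_bool3 o (by fun_prop) (by fun_prop) (by fun_prop)

/-- iterating the transducer -/
def trRun (o m : Bool → Bool → Bool → Bool) (c : Bool) (k : ℕ) (x y : List Bool) :
    (List Bool × List Bool) × (Bool × List Bool) := (trStep o m)^[k] ((x, y), (c, []))

theorem trRun_size (o m : Bool → Bool → Bool → Bool) (c : Bool) (k : ℕ) (x y : List Bool) :
    (trRun o m c k x y).1.1 = x.drop k ∧ (trRun o m c k x y).1.2 = y.drop k ∧
      (trRun o m c k x y).2.2.length = k := by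
  induction k with
  | zero => simp [trRun]
  | succ k ih =>
    obtain ⟨h1, h2, h3⟩ := ih
    have e : trRun o m c (k + 1) x y = trStep o m (trRun o m c k x y) := by
      simp only [trRun, Function.iterate_succ_apply']
    rw [e]
    refine ⟨?_, ?_, ?_⟩
    · simp only [trStep, h1, List.tail_drop]
    · simp only [trStep, h2, List.tail_drop]
    · simp only [trStep, List.length_cons, h3]

theorem pt_trRun (o m : Bool → Bool → Bool → Bool) (c : Bool) {f g : α → List Bool}
    (hf : IsPolyTime f) (hg : IsPolyTime g) :
    IsPolyTime (fun a => (trRun o m c (sz (f a, g a)) (f a) (g a)).2) := by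
  obtain ⟨q, hq⟩ := exists_size (pt_pair hf hg)
  refine pt_snd (pt_iter (c := fun a => (f a, g a)) (i := fun a => ((f a, g a), (c, [])))
    (pt_trStep o m) (pt_pair hf hg) (by fun_prop) (2 * q + 1 + (2 * 1 + 1 + 3 * q)) ?_)
  intro a k hk
  have h := trRun_size o m c k (f a) (g a)
  rw [trRun] at h
  set s := (trStep o m)^[k] ((f a, g a), (c, [])) with hs
  obtain ⟨h1, h2, h3⟩ := h
  have e : s = ((s.1.1, s.1.2), (s.2.1, s.2.2)) := rfl
  rw [e, sz_pair, sz_pair, sz_pair, sz_bool, sz_list_bool s.2.2, h3, h1, h2]
  have e1 := sz_drop_le (f a) k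
  have e2 := sz_drop_le (g a) k
  have e3 := hq a
  rw [sz_pair] at e3 hk
  simp only [Polynomial.eval_add, Polynomial.eval_mul, Polynomial.eval_ofNat,
    Polynomial.eval_one]
  omega

/-- value of a reversed digit list -/
theorem ofBits_append_singleton (l : List Bool) (b : Bool) :
    ofBits (l ++ [b]) = ofBits l + 2 ^ l.length * cond b 1 0 := by
  induction l with
  | nil => cases b <;> rfl
  | cons c l ih =>
    rw [List.cons_append, ofBits, ih, ofBits, List.length_cons, pow_succ]
    ring

theorem ofBits_lt (l : List Bool) : ofBits l < 2 ^ l.length := by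
  induction l with
  | nil => simp [ofBits]
  | cons b l ih =>
    rw [ofBits, List.length_cons, pow_succ]
    cases b <;> simp <;> omega

theorem ofBits_tail (l : List Bool) : ofBits l = 2 * ofBits l.tail + cond (l.headD false) 1 0 := by
  cases l with
  | nil => rfl
  | cons b l => rfl

/-! ### Addition -/

/-- carry -/
def carry (a b c : Bool) : Bool := (a && b) || (a && c) || (b && c)

/-- sum digit -/
def sumDigit (a b c : Bool) : Bool := xor a (xor b c)

theorem sum_digit (a b c : Bool) :
    (cond a 1 0 + cond b 1 0 + cond c 1 0 : ℕ) =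
      2 * cond (carry a b c) 1 0 + cond (sumDigit a b c) 1 0 := by
  cases a <;> cases b <;> cases c <;> rfl

theorem add_inv (k : ℕ) (x y : List Bool) :
    ofBits (trRun sumDigit carry false k x y).2.2.reverse + 2 ^ k *
      (ofBits (trRun sumDigit carry false k x y).1.1 +
        ofBits (trRun sumDigit carry false k x y).1.2 +
        cond (trRun sumDigit carry false k x y).2.1 1 0) = ofBits x + ofBits y := by
  induction k with
  | zero => simp [trRun, ofBits]
  | succ k ih =>
    have h3 := (trRun_size sumDigit carry false k x y).2.2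
    have e : trRun sumDigit carry false (k + 1) x y =
        trStep sumDigit carry (trRun sumDigit carry false k x y) := by
      simp only [trRun, Function.iterate_succ_apply']
    rw [e, ← ih]
    set s := trRun sumDigit carry false k x y with hs
    simp only [trStep, List.reverse_cons]
    rw [ofBits_append_singleton, List.length_reverse, h3, pow_succ]
    have e1 := ofBits_tail s.1.1
    have e2 := ofBits_tail s.1.2
    have e3 := sum_digit (s.1.1.headD false) (s.1.2.headD false) s.2.1
    generalize hA : ofBits s.1.1 = A at e1 ⊢
    generalize hB : ofBits s.1.2 = B at e2 ⊢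
    rw [e1, e2]
    have e4 : 2 * ofBits s.1.1.tail + cond (s.1.1.headD false) 1 0 +
        (2 * ofBits s.1.2.tail + cond (s.1.2.headD false) 1 0) + cond s.2.1 1 0 =
        2 * (ofBits s.1.1.tail + ofBits s.1.2.tail +
          cond (carry (s.1.1.headD false) (s.1.2.headD false) s.2.1) 1 0) +
          cond (sumDigit (s.1.1.headD false) (s.1.2.headD false) s.2.1) 1 0 := by
      omega
    rw [e4]
    ring

theorem carry_end (o m : Bool → Bool → Bool → Bool) (hm : m false false false = false)
    (hm' : m false false true = false) (k : ℕ) (x y : List Bool) (hx : x.length < k)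
    (hy : y.length < k) : (trRun o m false k x y).2.1 = false := by
  obtain ⟨j, rfl⟩ : ∃ j, k = j + 1 := ⟨k - 1, by omega⟩
  have h := trRun_size o m false j x y
  have e : trRun o m false (j + 1) x y = trStep o m (trRun o m false j x y) := by
    simp only [trRun, Function.iterate_succ_apply']
  rw [e]
  simp only [trStep, h.1, h.2.1]
  rw [List.drop_eq_nil_of_le (by omega), List.drop_eq_nil_of_le (by omega)]
  simp only [List.headD_nil]
  cases (trRun o m false j x y).2.1
  · exact hm
  · exact hm'

theorem length_lt_sz_pair (x y : List Bool) : x.length < sz (x, y) ∧ y.length < sz (x, y) := by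
  rw [sz_pair, sz_list_bool, sz_list_bool]; omega

@[fun_prop]
theorem pt_add {f g : α → ℕ} (hf : IsPolyTime f) (hg : IsPolyTime g) :
    IsPolyTime (fun a => f a + g a) := by
  have h := pt_ofBits (pt_reverse (pt_snd (pt_trRun sumDigit carry false (pt_bitsOf hf)
    (pt_bitsOf hg))))
  refine pt_congr h (fun a => ?_)
  set x := bitsOf (f a)
  set y := bitsOf (g a)
  obtain ⟨hx, hy⟩ := length_lt_sz_pair x y
  have h1 := add_inv (sz (x, y)) x y
  have h2 := trRun_size sumDigit carry false (sz (x, y)) x y
  rw [h2.1, h2.2.1, List.drop_eq_nil_of_le hx.le, List.drop_eq_nil_of_le hy.le,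
    carry_end sumDigit carry rfl rfl _ x y hx hy] at h1
  simp only [ofBits, cond_false, add_zero, mul_zero] at h1
  rw [h1, ofBits_bitsOf, ofBits_bitsOf]

/-! ### Comparison -/

/-- comparison digit -/
def ltDigit (a b c : Bool) : Bool := cond (xor a b) b c

theorem lt_inv (k : ℕ) (x y : List Bool) :
    (ofBits (trRun ltDigit ltDigit false k x y).1.1 <
        ofBits (trRun ltDigit ltDigit false k x y).1.2 ∨
      (ofBits (trRun ltDigit ltDigit false k x y).1.1 =
        ofBits (trRun ltDigit ltDigit false k x y).1.2 ∧
        (trRun ltDigit ltDigit false k x y).2.1 = true)) ↔ ofBits x < ofBits y := by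
  induction k with
  | zero => simp [trRun]
  | succ k ih =>
    have e : trRun ltDigit ltDigit false (k + 1) x y =
        trStep ltDigit ltDigit (trRun ltDigit ltDigit false k x y) := by
      simp only [trRun, Function.iterate_succ_apply']
    rw [e, ← ih]
    set s := trRun ltDigit ltDigit false k x y with hs
    simp only [trStep]
    have e1 := ofBits_tail s.1.1
    have e2 := ofBits_tail s.1.2
    generalize hA : ofBits s.1.1 = A at e1 ⊢
    generalize hB : ofBits s.1.2 = B at e2 ⊢
    rw [e1, e2]
    generalize ofBits s.1.1.tail = A'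
    generalize ofBits s.1.2.tail = B'
    generalize s.1.1.headD false = a
    generalize s.1.2.headD false = b
    generalize s.2.1 = c
    cases a <;> cases b <;> cases c <;> simp [ltDigit] <;> omega

@[fun_prop]
theorem pt_lt {f g : α → ℕ} (hf : IsPolyTime f) (hg : IsPolyTime g) :
    IsPolyTime (fun a => decide (f a < g a)) := by
  have h := pt_fst (pt_trRun ltDigit ltDigit false (pt_bitsOf hf) (pt_bitsOf hg))
  refine pt_congr h (fun a => ?_)
  set x := bitsOf (f a) with hxd
  set y := bitsOf (g a) with hyd
  obtain ⟨hx, hy⟩ := length_lt_sz_pair x y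
  have h1 := lt_inv (sz (x, y)) x y
  have h2 := trRun_size ltDigit ltDigit false (sz (x, y)) x y
  rw [h2.1, h2.2.1, List.drop_eq_nil_of_le hx.le, List.drop_eq_nil_of_le hy.le,
    hxd, hyd, ofBits_bitsOf, ofBits_bitsOf] at h1
  simp only [ofBits, lt_self_iff_false, true_and, false_or] at h1
  by_cases h3 : f a < g a
  · rw [decide_eq_true h3]; exact h1.mpr h3
  · rw [decide_eq_false h3]
    by_contra h4
    exact h3 (h1.mp (by simpa using h4))

@[fun_prop]
theorem pt_le {f g : α → ℕ} (hf : IsPolyTime f) (hg : IsPolyTime g) :
    IsPolyTime (fun a => decide (f a ≤ g a)) :=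
  pt_congr (pt_not (pt_lt hg hf)) (fun a => by
    by_cases h : f a ≤ g a
    · simp [h]
    · simp [h, not_le.mp h])

@[fun_prop]
theorem pt_max {f g : α → ℕ} (hf : IsPolyTime f) (hg : IsPolyTime g) :
    IsPolyTime (fun a => max (f a) (g a)) :=
  pt_congr (pt_ite (P := fun a => f a ≤ g a) (pt_le hf hg) hg hf) (fun a => by
    split_ifs with h
    · rw [max_eq_right h]
    · rw [max_eq_left (not_le.mp h).le])

@[fun_prop]
theorem pt_min {f g : α → ℕ} (hf : IsPolyTime f) (hg : IsPolyTime g) :
    IsPolyTime (fun a => min (f a) (g a)) :=
  pt_congr (pt_ite (P := fun a => f a ≤ g a) (pt_le hf hg) hf hg) (fun a => by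
    split_ifs with h
    · rw [min_eq_left h]
    · rw [min_eq_right (not_le.mp h).le])

/-! ### Truncated subtraction -/

/-- borrow -/
def borrow (a b c : Bool) : Bool := (!a && b) || (!a && c) || (b && c)

theorem diff_digit (a b c : Bool) :
    (cond a 1 0 + 2 * cond (borrow a b c) 1 0 : ℕ) =
      cond b 1 0 + cond c 1 0 + cond (sumDigit a b c) 1 0 := by
  cases a <;> cases b <;> cases c <;> rfl

theorem sub_inv (k : ℕ) (x y : List Bool) :
    ofBits (trRun sumDigit borrow false k x y).2.2.reverse + 2 ^ k *
      ofBits (trRun sumDigit borrow false k x y).1.1 + ofBits y =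
      ofBits x + 2 ^ k * (ofBits (trRun sumDigit borrow false k x y).1.2 +
        cond (trRun sumDigit borrow false k x y).2.1 1 0) := by
  induction k with
  | zero => simp [trRun, ofBits]
  | succ k ih =>
    have h3 := (trRun_size sumDigit borrow false k x y).2.2
    have e : trRun sumDigit borrow false (k + 1) x y =
        trStep sumDigit borrow (trRun sumDigit borrow false k x y) := by
      simp only [trRun, Function.iterate_succ_apply']
    rw [e]
    set s := trRun sumDigit borrow false k x y with hs
    simp only [trStep, List.reverse_cons]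
    rw [ofBits_append_singleton, List.length_reverse, h3, pow_succ]
    have e1 := ofBits_tail s.1.1
    have e2 := ofBits_tail s.1.2
    have e3 := diff_digit (s.1.1.headD false) (s.1.2.headD false) s.2.1
    rw [e1, e2] at ih
    generalize ofBits s.1.1.tail = A' at *
    generalize ofBits s.1.2.tail = B' at *
    generalize (cond (s.1.1.headD false) 1 0 : ℕ) = a at *
    generalize (cond (s.1.2.headD false) 1 0 : ℕ) = b at *
    generalize (cond s.2.1 1 0 : ℕ) = c at *
    generalize (cond (sumDigit (s.1.1.headD false) (s.1.2.headD false) s.2.1) 1 0 : ℕ) = d at *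
    generalize (cond (borrow (s.1.1.headD false) (s.1.2.headD false) s.2.1) 1 0 : ℕ) = w at *
    generalize ofBits s.2.2.reverse = V at *
    zify at ih e3 ⊢
    linear_combination ih - (2 : ℤ) ^ k * e3

@[fun_prop]
theorem pt_sub {f g : α → ℕ} (hf : IsPolyTime f) (hg : IsPolyTime g) :
    IsPolyTime (fun a => f a - g a) := by
  have h := pt_ofBits (pt_reverse (pt_snd (pt_trRun sumDigit borrow false (pt_bitsOf hf)
    (pt_bitsOf hg))))
  have h0 := pt_ite (P := fun a => f a ≤ g a) (pt_le hf hg) (pt_const 0) h
  refine pt_congr h0 (fun a => ?_)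
  by_cases hle : f a ≤ g a
  · rw [if_pos hle]; omega
  rw [if_neg hle]
  set x := bitsOf (f a) with hxd
  set y := bitsOf (g a) with hyd
  obtain ⟨hx, hy⟩ := length_lt_sz_pair x y
  have h1 := sub_inv (sz (x, y)) x y
  have h2 := trRun_size sumDigit borrow false (sz (x, y)) x y
  have h3 := ofBits_lt (trRun sumDigit borrow false (sz (x, y)) x y).2.2.reverse
  rw [List.length_reverse, h2.2.2] at h3
  rw [h2.1, h2.2.1, List.drop_eq_nil_of_le hx.le, List.drop_eq_nil_of_le hy.le] at h1
  simp only [ofBits, mul_zero, add_zero, zero_add] at h1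
  have e1 : ofBits x = f a := ofBits_bitsOf _
  have e2 : ofBits y = g a := ofBits_bitsOf _
  rw [e1, e2] at h1
  cases hc : (trRun sumDigit borrow false (sz (x, y)) x y).2.1
  · rw [hc] at h1
    simp only [cond_false, mul_zero, add_zero] at h1
    omega
  · rw [hc] at h1
    simp only [cond_true, mul_one] at h1
    omega

/-! ### Parity -/

theorem headD_bitsOf (n : ℕ) : (bitsOf n).headD false = decide (n % 2 = 1) := by
  rcases Nat.even_or_odd' n with ⟨m, rfl | rfl⟩
  · by_cases hm : m = 0
    · subst hm; rfl
    · rw [bitsOf_double hm]; simp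
  · rw [bitsOf_double_add_one]
    have : (2 * m + 1) % 2 = 1 := by omega
    simp [this]

@[fun_prop]
theorem pt_odd {f : α → ℕ} (hf : IsPolyTime f) : IsPolyTime (fun a => decide (f a % 2 = 1)) :=
  pt_congr (pt_headD false (pt_bitsOf hf)) (fun _ => headD_bitsOf _)

/-! ### Integers -/

theorem enc_int (n : ℤ) : bitEncode n = bitEncode (n.toNat, (-n).toNat) := rfl

@[fun_prop]
theorem pt_natCast {f : α → ℕ} (hf : IsPolyTime f) : IsPolyTime (fun a => (f a : ℤ)) :=
  pt_congr_enc (f := fun a => (f a, 0)) (fun a => by
    rw [enc_int]
    have h1 : ((f a : ℤ)).toNat = f a := by omega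
    have h2 : (-(f a : ℤ)).toNat = 0 := by omega
    rw [h1, h2]) (by fun_prop)

@[fun_prop]
theorem pt_negNatCast {f : α → ℕ} (hf : IsPolyTime f) : IsPolyTime (fun a => -(f a : ℤ)) :=
  pt_congr_enc (f := fun a => (0, f a)) (fun a => by
    rw [enc_int]
    have h1 : (-(f a : ℤ)).toNat = 0 := by omega
    have h2 : (-(-(f a : ℤ))).toNat = f a := by omega
    rw [h1, h2]) (by fun_prop)

@[fun_prop]
theorem pt_toNat {f : α → ℤ} (hf : IsPolyTime f) : IsPolyTime (fun a => (f a).toNat) := by
  have h : IsPolyTime (fun n : ℤ => (n.toNat, (-n).toNat)) :=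
    pt_congr_enc (f := fun n : ℤ => n) (fun n => rfl) pt_id
  exact pt_comp (g := fun n : ℤ => n.toNat) (pt_fst h) hf

@[fun_prop]
theorem pt_negToNat {f : α → ℤ} (hf : IsPolyTime f) : IsPolyTime (fun a => (-(f a)).toNat) := by
  have h : IsPolyTime (fun n : ℤ => (n.toNat, (-n).toNat)) :=
    pt_congr_enc (f := fun n : ℤ => n) (fun n => rfl) pt_id
  exact pt_comp (g := fun n : ℤ => (-n).toNat) (pt_snd h) hf

end Pool.Agent.Lib.PolyTime
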