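import Pool.Agent.Lib.PolyTime.Arith

/-!
# Multiplication of binary numbers and removal of duplicates in polynomial time
-/

namespace Pool.Agent.Lib.PolyTime

open Turing Function N487b59b3 N68a2faeb

variable {α β γ δ : Type} [N487b59b3 α] [N487b59b3 β] [N487b59b3 γ] [N487b59b3 δ]

/-- one step of the schoolbook multiplication -/
def mulStep (x acc : ℕ) (b : Bool) : ℕ := cond b (2 * acc + x) (2 * acc)

theorem foldl_mulStep (x : ℕ) (l : List Bool) :
    l.foldl (mulStep x) 0 = x * ofBits l.reverse := by
  induction l using List.reverseRecOn with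
  | nil => simp [ofBits]
  | append_singleton l b ih =>
    rw [List.foldl_append, ih, List.reverse_append]
    simp only [List.foldl_cons, List.foldl_nil, List.reverse_cons, List.reverse_nil,
      List.nil_append, List.singleton_append, ofBits, mulStep]
    cases b <;> simp <;> ring

@[fun_prop]
theorem pt_mul {f g : α → ℕ} (hf : IsPolyTime f) (hg : IsPolyTime g) :
    IsPolyTime (fun a => f a * g a) := by
  obtain ⟨qf, hqf⟩ := exists_size hf
  obtain ⟨qg, hqg⟩ := exists_size hg
  have h := pt_foldl (α := α) (β := Bool) (γ := ℕ)
    (g := fun a acc b => mulStep (f a) acc b) (l := fun a => (bitsOf (g a)).reverse)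
    (s := fun _ => 0) (by
      unfold mulStep
      have h1 : IsPolyTime (fun p : α × (ℕ × Bool) => f p.1) := pt_comp hf pt_fst'
      fun_prop) (by fun_prop) (pt_const 0) (qf + qg) (by
      intro a k
      have e : (fun acc b => mulStep (f a) acc b) = mulStep (f a) := rfl
      rw [e, foldl_mulStep]
      set l := ((bitsOf (g a)).reverse.take k).reverse with hl
      have h1 : ofBits l < 2 ^ l.length := ofBits_lt l
      have h2 : sz (f a * ofBits l) ≤ sz (2 ^ l.length * f a) :=
        sz_mono (by rw [mul_comm]; exact Nat.mul_le_mul_right _ h1.le)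
      have h3 := sz_two_pow_mul_le l.length (f a)
      have h4 : l.length ≤ sz (g a) := by
        rw [hl, List.length_reverse, List.length_take, List.length_reverse, sz_nat]
        exact Nat.min_le_right _ _
      have h5 := hqf a
      have h6 := hqg a
      rw [Polynomial.eval_add]
      omega)
  refine pt_congr h (fun a => ?_)
  have e : (fun acc b => mulStep (f a) acc b) = mulStep (f a) := rfl
  rw [e, foldl_mulStep, List.reverse_reverse, ofBits_bitsOf]

/-- the list without repeated elements, in order of first occurrence -/
def uniq {β : Type} [DecidableEq β] (l : List β) : List β :=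
  l.foldl (fun acc b => if b ∈ acc then acc else acc ++ [b]) []

theorem uniq_aux {β : Type} [DecidableEq β] (l acc : List β) (h : acc.Nodup) :
    (l.foldl (fun acc b => if b ∈ acc then acc else acc ++ [b]) acc).Nodup ∧
      ∀ x, x ∈ l.foldl (fun acc b => if b ∈ acc then acc else acc ++ [b]) acc ↔
        x ∈ acc ∨ x ∈ l := by
  induction l generalizing acc with
  | nil => simpa using h
  | cons b l ih =>
    rw [List.foldl_cons]
    by_cases hb : b ∈ acc
    · rw [if_pos hb]
      obtain ⟨h1, h2⟩ := ih acc h
      refine ⟨h1, fun x => ?_⟩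
      rw [h2, List.mem_cons]
      constructor
      · rintro (h | h)
        · exact Or.inl h
        · exact Or.inr (Or.inr h)
      · rintro (h | h | h)
        · exact Or.inl h
        · exact Or.inl (h ▸ hb)
        · exact Or.inr h
    · rw [if_neg hb]
      have h0 : (acc ++ [b]).Nodup := by
        rw [List.nodup_append]
        refine ⟨h, by simp, ?_⟩
        intro x hx y hy hxy
        rw [List.mem_singleton] at hy
        exact hb (hy ▸ hxy ▸ hx)
      obtain ⟨h1, h2⟩ := ih (acc ++ [b]) h0
      refine ⟨h1, fun x => ?_⟩
      rw [h2, List.mem_append, List.mem_singleton, List.mem_cons, or_assoc]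

theorem nodup_uniq {β : Type} [DecidableEq β] (l : List β) : (uniq l).Nodup :=
  (uniq_aux l [] List.nodup_nil).1

theorem mem_uniq {β : Type} [DecidableEq β] {l : List β} {x : β} : x ∈ uniq l ↔ x ∈ l := by
  have h := (uniq_aux l [] List.nodup_nil).2 x
  simpa [uniq] using h

theorem sz_uniq_aux [DecidableEq β] (l acc : List β) :
    sz (l.foldl (fun acc b => if b ∈ acc then acc else acc ++ [b]) acc) ≤ sz acc + sz l := by
  induction l generalizing acc with
  | nil => simp
  | cons b l ih =>
    rw [List.foldl_cons]
    refine (ih _).trans ?_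
    by_cases hb : b ∈ acc
    · rw [if_pos hb, sz_cons]; omega
    · rw [if_neg hb, sz_append, sz_cons, sz_cons, sz_nil]; omega

@[fun_prop]
theorem pt_uniq [DecidableEq β] {l : α → List β} (hl : IsPolyTime l) :
    IsPolyTime (fun a => uniq (l a)) := by
  obtain ⟨q, hq⟩ := exists_size hl
  refine pt_foldl (α := α) (β := β) (γ := List β)
    (g := fun _ acc b => if b ∈ acc then acc else acc ++ [b]) (by fun_prop) hl (pt_const []) q ?_
  intro a k
  refine (sz_uniq_aux _ _).trans ?_
  have h1 := sz_take_le (l a) k
  have h2 := hq a
  rw [sz_nil]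
  omega

end Pool.Agent.Lib.PolyTime
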