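import Pool.Agent.Lib.PolyTime.Prog
import Pool.Prelude.Def_H_3587d628

/-!
# Closure properties of polynomial time functions, part 1

Polynomial bounds, output length of machines, composition, pairing.
The class `N487b59b3` (bit string encodings) and `N68a2faeb.IsPolyTime` come from `Pool.Prelude`.
-/

namespace Pool.Agent.Lib.PolyTime

open Turing Function N487b59b3 N68a2faeb

/-- `B` is bounded by a polynomial. -/
def PolyBd (B : ℕ → ℕ) : Prop := ∃ p : Polynomial ℕ, ∀ n, B n ≤ p.eval n

theorem eval_mono (p : Polynomial ℕ) {m n : ℕ} (h : m ≤ n) : p.eval m ≤ p.eval n := by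
  rw [Polynomial.eval_eq_sum_range, Polynomial.eval_eq_sum_range]
  exact Finset.sum_le_sum fun i _ => Nat.mul_le_mul_left _ (Nat.pow_le_pow_left h i)

namespace PolyBd

theorem poly (p : Polynomial ℕ) : PolyBd (fun n => p.eval n) := ⟨p, fun _ => le_rfl⟩

theorem const (c : ℕ) : PolyBd (fun _ => c) := ⟨Polynomial.C c, fun n => by simp⟩

theorem id : PolyBd (fun n => n) := ⟨Polynomial.X, fun n => by simp⟩

theorem add {B B' : ℕ → ℕ} (h : PolyBd B) (h' : PolyBd B') : PolyBd (fun n => B n + B' n) := by
  obtain ⟨p, hp⟩ := h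
  obtain ⟨q, hq⟩ := h'
  exact ⟨p + q, fun n => by rw [Polynomial.eval_add]; exact Nat.add_le_add (hp n) (hq n)⟩

theorem mul {B B' : ℕ → ℕ} (h : PolyBd B) (h' : PolyBd B') : PolyBd (fun n => B n * B' n) := by
  obtain ⟨p, hp⟩ := h
  obtain ⟨q, hq⟩ := h'
  exact ⟨p * q, fun n => by rw [Polynomial.eval_mul]; exact Nat.mul_le_mul (hp n) (hq n)⟩

theorem mono {B B' : ℕ → ℕ} (h : PolyBd B) (h' : ∀ n, B' n ≤ B n) : PolyBd B' := by
  obtain ⟨p, hp⟩ := h
  exact ⟨p, fun n => (h' n).trans (hp n)⟩

/-- composition of a polynomial with a polynomially bounded function -/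
theorem eval (p : Polynomial ℕ) {B : ℕ → ℕ} (h : PolyBd B) : PolyBd (fun n => p.eval (B n)) := by
  obtain ⟨q, hq⟩ := h
  refine ⟨p.comp q, fun n => ?_⟩
  rw [Polynomial.eval_comp]
  exact eval_mono p (hq n)

end PolyBd

theorem Sub.spec_mono {s : Sub} {inp out : List Bool} {t t' : ℕ} (h : s.spec inp out t)
    (ht : t ≤ t') : s.spec inp out t' := by
  obtain ⟨⟨e, he⟩⟩ := h
  exact ⟨⟨e, he.trans ht⟩⟩

/-- the maximal number of pushes of a statement -/
def pushes {K : Type} {Γ : K → Type} {Λ σ : Type} : TM2.Stmt Γ Λ σ → ℕ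
  | .push _ _ q => pushes q + 1
  | .peek _ _ q => pushes q
  | .pop _ _ q => pushes q
  | .load _ q => pushes q
  | .branch _ q₁ q₂ => max (pushes q₁) (pushes q₂)
  | .goto _ => 0
  | .halt => 0

theorem length_stepAux {K : Type} [DecidableEq K] {Γ : K → Type} {Λ σ : Type}
    (q : TM2.Stmt Γ Λ σ) : ∀ (v : σ) (S : ∀ k, List (Γ k)) (k : K),
      ((TM2.stepAux q v S).stk k).length ≤ (S k).length + pushes q := by
  induction q with
  | push k' f q ih =>
    intro v S k
    refine (ih v _ k).trans ?_
    by_cases h : k = k'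
    · subst h; simp [pushes]; omega
    · simp [h, pushes]
  | peek k' f q ih => intro v S k; exact ih _ S k
  | pop k' f q ih =>
    intro v S k
    refine (ih _ _ k).trans ?_
    by_cases h : k = k'
    · subst h; simp [pushes]
    · simp [h, pushes]
  | load f q ih => intro v S k; exact ih _ S k
  | branch p q₁ q₂ ih1 ih2 =>
    intro v S k
    simp only [TM2.stepAux, pushes]
    cases p v
    · exact (ih2 v S k).trans (by simp)
    · exact (ih1 v S k).trans (by simp)
  | goto f => intro v S k; simp [TM2.stepAux, pushes]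
  | halt => intro v S k; simp [TM2.stepAux, pushes]

/-- bound for the number of pushes in one step of a machine -/
noncomputable def maxPush (tm : FinTM2) : ℕ := Finset.univ.sup fun l => pushes (tm.m l)

theorem length_iterate (tm : FinTM2) : ∀ (n : ℕ) (cfg cfg' : tm.Cfg),
    (flip bind tm.step)^[n] (some cfg) = some cfg' →
      ∀ k, (cfg'.stk k).length ≤ (cfg.stk k).length + n * maxPush tm := by
  intro n
  induction n with
  | zero =>
    intro cfg cfg' h k
    simp only [Function.iterate_zero, id_eq, Option.some.injEq] at h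
    subst h
    simp
  | succ n ih =>
    intro cfg cfg' h k
    rw [Function.iterate_succ_apply] at h
    rcases cfg with ⟨l, x, Sc⟩
    cases l with
    | none =>
      exfalso
      have hnone : ∀ m : ℕ, (flip bind tm.step)^[m] (none : Option tm.Cfg) = none := by
        intro m
        induction m with
        | zero => rfl
        | succ m ihm => rw [Function.iterate_succ_apply]; exact ihm
      have e : flip bind tm.step (some (⟨none, x, Sc⟩ : tm.Cfg)) = none := rfl
      rw [e, hnone] at h
      cases h
    | some l =>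
      have e : flip bind tm.step (some (⟨some l, x, Sc⟩ : tm.Cfg)) =
          some (TM2.stepAux (tm.m l) x Sc) := rfl
      rw [e] at h
      have h1 := ih _ cfg' h k
      have h2 := length_stepAux (tm.m l) x Sc k
      have h3 : pushes (tm.m l) ≤ maxPush tm :=
        Finset.le_sup (f := fun l => pushes (tm.m l)) (Finset.mem_univ l)
      have h4 : (n + 1) * maxPush tm = n * maxPush tm + maxPush tm := by ring
      change _ ≤ (Sc k).length + _
      omega

theorem Sub.length_out {s : Sub} {inp out : List Bool} {t : ℕ} (h : s.spec inp out t) :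
    out.length ≤ inp.length + t * maxPush s.tm := by
  obtain ⟨⟨⟨n, hn⟩, hnt⟩⟩ := h
  simp only [Option.map_some] at hn
  have h1 := length_iterate s.tm n _ _ hn s.tm.k₁
  have h2 : ((haltList s.tm (out.map s.outA.invFun)).stk s.tm.k₁).length = out.length := by
    simp [haltList]
  have h3 : ((initList s.tm (inp.map s.inA.invFun)).stk s.tm.k₁).length ≤ inp.length := by
    simp only [initList]
    by_cases hk : s.tm.k₁ = s.tm.k₀
    · have : ∀ (k : s.tm.K) (h : k = s.tm.k₀), (@dite (List (s.tm.Γ k)) (k = s.tm.k₀)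
          (s.tm.kDecidableEq k s.tm.k₀) (fun h => by rw [h]; exact inp.map s.inA.invFun)
          fun _ => []).length = inp.length := by
        intro k h
        subst h
        simp
      rw [this _ hk]
    · simp [hk]
  have h4 : n * maxPush s.tm ≤ t * maxPush s.tm := Nat.mul_le_mul_right _ hnt
  omega

variable {α β γ δ : Type} [N487b59b3 α] [N487b59b3 β] [N487b59b3 γ] [N487b59b3 δ]

/-- length of the encoding -/
abbrev sz {α : Type} [N487b59b3 α] (a : α) : ℕ := (bitEncode a).length

/-- A polynomial time function gives a subroutine with polynomial bounds on time and output. -/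
theorem exists_sub {f : α → β} (hf : IsPolyTime f) :
    ∃ (s : Sub) (p q : Polynomial ℕ), ∀ a, s.spec (bitEncode a) (bitEncode (f a)) (p.eval (sz a)) ∧
      sz (f a) ≤ q.eval (sz a) := by
  obtain ⟨M⟩ := hf
  refine ⟨⟨M.tm, M.inputAlphabet, M.outputAlphabet⟩, M.time,
    Polynomial.X + M.time * Polynomial.C (maxPush M.tm), fun a => ?_⟩
  have h : (⟨M.tm, M.inputAlphabet, M.outputAlphabet⟩ : Sub).spec (bitEncode a) (bitEncode (f a))
      (M.time.eval (sz a)) := ⟨M.outputsFun a⟩
  refine ⟨h, ?_⟩
  have := Sub.length_out h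
  simpa using this

/-- the size bound of a polynomial time function -/
theorem exists_size {f : α → β} (hf : IsPolyTime f) :
    ∃ q : Polynomial ℕ, ∀ a, sz (f a) ≤ q.eval (sz a) := by
  obtain ⟨s, p, q, h⟩ := exists_sub hf
  exact ⟨q, fun a => (h a).2⟩

/-- Programs with polynomially bounded running time. -/
theorem of_prog {R C : Type} [DecidableEq R] [Fintype R] [DecidableEq C] [Fintype C]
    (subs : C → Sub) (f : α → β) (p : Prog R C) (r₀ r₁ : R) (B : ℕ → ℕ) (hB : PolyBd B)
    (h : ∀ a, ∃ t ≤ B (sz a),
      PRun subs p (update (fun _ => []) r₀ (bitEncode a)) t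
        (update (fun _ => []) r₁ (bitEncode (f a)))) : IsPolyTime f := by
  obtain ⟨q, hq⟩ := hB
  refine Prog.computes subs (bitEncode (α := α)) (bitEncode (α := β)) f p r₀ r₁ q ?_
  intro a
  obtain ⟨t, ht, hr⟩ := h a
  exact ⟨t, ht.trans (hq _), hr⟩

/-- Composition. -/
theorem pt_comp {g : β → γ} {f : α → β} (hg : IsPolyTime g) (hf : IsPolyTime f) :
    IsPolyTime (fun a => g (f a)) := by
  obtain ⟨sf, pf, qf, hf⟩ := exists_sub hf
  obtain ⟨sg, pg, qg, hg⟩ := exists_sub hg
  refine of_prog (R := Unit) (C := Bool) (fun c => if c then sf else sg) _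
    (.seq (.call true ()) (.call false ())) () ()
    (fun n => (2 * pf.eval n + 2 * n + 2 * qf.eval n + 5) +
      (2 * pg.eval (qf.eval n) + 2 * qf.eval n + 2 * qg.eval (qf.eval n) + 5)) ?_ ?_
  · have hpf := PolyBd.poly pf
    have hqf := PolyBd.poly qf
    have hpg := PolyBd.eval pg hqf
    have hqg := PolyBd.eval qg hqf
    have h2 := PolyBd.const 2
    have h5 := PolyBd.const 5
    exact ((((h2.mul hpf).add (h2.mul PolyBd.id)).add (h2.mul hqf)).add h5).add
      ((((h2.mul hpg).add (h2.mul hqf)).add (h2.mul hqg)).add h5)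
  · intro a
    have h1 := PRun.call (subs := fun c : Bool => if c then sf else sg) (c := true) (r := ())
      (s := update (fun _ => []) () (bitEncode a)) (out := bitEncode (f a))
      (t := pf.eval (sz a)) (by simpa using (hf a).1)
    have h2 := PRun.call (subs := fun c : Bool => if c then sf else sg) (c := false) (r := ())
      (s := update (update (fun _ => []) () (bitEncode a)) () (bitEncode (f a)))
      (out := bitEncode (g (f a)))
      (t := pg.eval (sz (f a))) (by simpa using (hg (f a)).1)
    have h3 := PRun.seq h1 h2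
    simp only [update_self, update_idem] at h3
    refine ⟨_, ?_, h3⟩
    have e1 := (hf a).2
    have e2 := (hg (f a)).2
    have e3 := eval_mono pg e1
    have e4 := eval_mono qg e1
    change _ + 2 * sz a + 2 * sz (f a) + 5 + (_ + 2 * sz (f a) + 2 * sz (g (f a)) + 5) ≤ _
    omega

theorem pt_id : IsPolyTime (fun a : α => a) := isPolyTime_id

end Pool.Agent.Lib.PolyTime
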