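import Pool.Agent.Lib.PolyTime.Cmds

/-!
# Closure properties of polynomial time functions, part 2

pairs, constants, branching, equality test, successor, iteration.
-/

namespace Pool.Agent.Lib.PolyTime

open Turing Function N487b59b3 N68a2faeb Prog

variable {α β γ δ : Type} [N487b59b3 α] [N487b59b3 β] [N487b59b3 γ] [N487b59b3 δ]

theorem enc_pair (a : α) (b : β) : bitEncode (a, b) = delimit (bitEncode a) ++ bitEncode b := rfl

theorem enc_nil : bitEncode ([] : List α) = [] := rfl

theorem enc_cons (a : α) (l : List α) :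
    bitEncode (a :: l) = delimit (bitEncode a) ++ bitEncode l := rfl

theorem enc_append (l l' : List α) : bitEncode (l ++ l') = bitEncode l ++ bitEncode l' := by
  induction l with
  | nil => rfl
  | cons a l ih => rw [List.cons_append, enc_cons, enc_cons, ih, List.append_assoc]

theorem enc_bool (b : Bool) : bitEncode b = [b] := rfl

theorem enc_nat (n : ℕ) : bitEncode n = Computability.encodeNat n := rfl

theorem sz_pair (a : α) (b : β) : sz (a, b) = 2 * sz a + 1 + sz b := by
  simp [sz, enc_pair]

theorem sz_nil : sz ([] : List α) = 0 := rfl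

theorem sz_cons (a : α) (l : List α) : sz (a :: l) = 2 * sz a + 1 + sz l := by
  simp [sz, enc_cons]

theorem sz_append (l l' : List α) : sz (l ++ l') = sz l + sz l' := by
  simp [sz, enc_append]

theorem sz_bool (b : Bool) : sz b = 1 := rfl

/-- Polynomial time computability depends only on the encodings of the values. -/
theorem pt_congr_enc {f : α → β} {g : α → γ} (h : ∀ a, bitEncode (f a) = bitEncode (g a))
    (hf : IsPolyTime f) : IsPolyTime g := by
  obtain ⟨M⟩ := hf
  refine ⟨{ toTM2ComputableAux := M.toTM2ComputableAux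
            time := M.time
            outputsFun := fun a => ?_ }⟩
  have := M.outputsFun a
  have e : (N487b59b3.toEncoding (α := β)).encode (f a) =
      (N487b59b3.toEncoding (α := γ)).encode (g a) := h a
  rw [e] at this
  exact this

theorem pt_congr {f g : α → β} (hf : IsPolyTime f) (h : ∀ a, f a = g a) : IsPolyTime g := by
  have : f = g := funext h
  rw [← this]; exact hf

/-- subroutine environment with no subroutines -/
def noSubs : Empty → Sub := fun e => nomatch e

/-- String functions computed by programs without calls. -/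
theorem of_prog0 {R : Type} [DecidableEq R] [Fintype R] (f : α → β) (p : Prog R Empty)
    (r₀ r₁ : R) (B : ℕ → ℕ) (hB : PolyBd B)
    (h : ∀ a, ∃ t ≤ B (sz a),
      PRun noSubs p (update (fun _ => []) r₀ (bitEncode a)) t
        (update (fun _ => []) r₁ (bitEncode (f a)))) : IsPolyTime f :=
  of_prog noSubs f p r₀ r₁ B hB h

/-- constants -/
theorem pt_const (c : β) : IsPolyTime (fun _ : α => c) := by
  refine of_prog0 (R := Unit) _ (.seq (clear ()) (pushList () (bitEncode c))) () ()
    (fun n => 2 * n + 1) (((PolyBd.const 2).mul PolyBd.id).add (PolyBd.const 1)) ?_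
  intro a
  have h1 := clear_run noSubs () (bitEncode a) (update (fun _ => []) () (bitEncode a)) (by simp)
  have h2 := pushList_run noSubs () (bitEncode c)
    (update (update (fun _ => []) () (bitEncode a)) () [])
  refine ⟨_, le_rfl, (PRun.seq h1 h2).cast noSubs (by simp) ?_⟩
  funext x
  simp

theorem delimit_length (l : List Bool) : (delimit l).length = 2 * l.length + 1 := by simp

/-- pairing -/
theorem pt_pair {f : α → β} {g : α → γ} (hf : IsPolyTime f) (hg : IsPolyTime g) :
    IsPolyTime (fun a => (f a, g a)) := by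
  obtain ⟨sf, pf, qf, hf⟩ := exists_sub hf
  obtain ⟨sg, pg, qg, hg⟩ := exists_sub hg
  set subs : Bool → Sub := fun c => if c then sf else sg with hsubs
  refine of_prog (R := Fin 3) (C := Bool) subs _
    (.seq (copy 0 1 2) (.seq (.call true 0) (.seq (.call false 1) (.seq (move 0 2) (delim 2 1)))))
    0 1 (fun n => (4 * n + 2) + ((2 * pf.eval n + 2 * n + 2 * qf.eval n + 5) +
      ((2 * pg.eval n + 2 * n + 2 * qg.eval n + 5) +
        ((2 * qf.eval n + 1) + (2 * qf.eval n + 1))))) ?_ ?_
  · have hpf := PolyBd.poly pf
    have hqf := PolyBd.poly qf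
    have hpg := PolyBd.poly pg
    have hqg := PolyBd.poly qg
    have h1 := PolyBd.const 1
    have h2 := PolyBd.const 2
    have h4 := PolyBd.const 4
    have h5 := PolyBd.const 5
    exact ((h4.mul PolyBd.id).add h2).add
      (((((h2.mul hpf).add (h2.mul PolyBd.id)).add (h2.mul hqf)).add h5).add
        (((((h2.mul hpg).add (h2.mul PolyBd.id)).add (h2.mul hqg)).add h5).add
          (((h2.mul hqf).add h1).add ((h2.mul hqf).add h1))))
  · intro a
    set A := bitEncode a with hA
    have e1 := copy_run subs (r := (0 : Fin 3)) (r' := 1) (u := 2) (by decide) (by decide)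
      (by decide) (update (fun _ => []) 0 A) (by simp)
    set s1 : Fin 3 → List Bool := update (update (fun _ => []) 0 A) 1
      (update (fun _ => []) 0 A 0 ++ update (fun _ => []) 0 A 1) with hs1
    have e2 := PRun.call (subs := subs) (c := true) (r := 0)
      (s := s1) (out := bitEncode (f a))
      (t := pf.eval (sz a)) (by simpa [hs1, hsubs] using (hf a).1)
    set s2 := update s1 0 (bitEncode (f a)) with hs2
    have e3 := PRun.call (subs := subs) (c := false) (r := 1)
      (s := s2) (out := bitEncode (g a))
      (t := pg.eval (sz a)) (by simpa [hs2, hs1, hsubs] using (hg a).1)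
    set s3 := update s2 1 (bitEncode (g a)) with hs3
    have e4 := move_run subs (r := (0 : Fin 3)) (r' := 2) (by decide) (bitEncode (f a)) s3
      (by simp [hs3, hs2])
    set s4 := update (update s3 0 []) 2 ((bitEncode (f a)).reverse ++ s3 2) with hs4
    have e5 := delim_run subs (r := (2 : Fin 3)) (r' := 1) (by decide) (bitEncode (f a)) s4
      (by simp [hs4, hs3, hs2, hs1])
    have hall := PRun.seq e1 (PRun.seq e2 (PRun.seq e3 (PRun.seq e4 e5)))
    refine ⟨_, ?_, hall.cast subs rfl ?_⟩
    · have l1 := (hf a).2
      have l2 := (hg a).2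
      have l3 : (update (fun _ => []) 0 A (0 : Fin 3)).length = sz a := by simp [hA]
      have l4 : (s1 0).length = sz a := by simp [hs1, hA]
      have l5 : (s2 1).length = sz a := by simp [hs2, hs1, hA]
      rw [l3, l4, l5]
      change _ + (_ + 2 * sz (f a) + 5 + (_ + 2 * sz (g a) + 5 +
        (2 * sz (f a) + 1 + (2 * sz (f a) + 1)))) ≤ _
      omega
    · funext x
      fin_cases x
      · simp [hs4]
      · simp [hs4, hs3, enc_pair]
      · simp

/-- projections -/
theorem pt_fst' : IsPolyTime (fun p : α × β => p.1) := by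
  refine of_prog0 (R := Fin 3) _ (.seq (parse 0 1 2) (.seq (clear 0) (move 1 0))) 0 0
    (fun n => 7 * n + 8) (((PolyBd.const 7).mul PolyBd.id).add (PolyBd.const 8)) ?_
  rintro ⟨a, b⟩
  have e1 := parse_run noSubs (r := (0 : Fin 3)) (r' := 1) (u := 2) (by decide) (by decide)
    (by decide) (bitEncode a) (bitEncode b) (update (fun _ => []) 0 (bitEncode (a, b)))
    (by simp [enc_pair]) (by simp)
  set s1 := update (update (update (fun _ => []) (0 : Fin 3) (bitEncode (a, b))) 0 (bitEncode b)) 1
    ((bitEncode a).reverse ++ update (fun _ => []) (0 : Fin 3) (bitEncode (a, b)) 1) with hs1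
  have e2 := clear_run noSubs 0 (bitEncode b) s1 (by simp [hs1])
  have e3 := move_run noSubs (r := (1 : Fin 3)) (r' := 0) (by decide) (bitEncode a).reverse
    (update s1 0 []) (by simp [hs1])
  refine ⟨_, ?_, (PRun.seq e1 (PRun.seq e2 e3)).cast noSubs rfl ?_⟩
  · rw [sz_pair]
    simp only [List.length_reverse]
    change 3 * sz a + 6 + (2 * sz b + 1 + (2 * sz a + 1)) ≤ _
    omega
  · funext x
    fin_cases x
    · simp
    · simp
    · simp [hs1]

theorem pt_snd' : IsPolyTime (fun p : α × β => p.2) := by
  refine of_prog0 (R := Fin 3) _ (.seq (parse 0 1 2) (clear 1)) 0 0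
    (fun n => 7 * n + 8) (((PolyBd.const 7).mul PolyBd.id).add (PolyBd.const 8)) ?_
  rintro ⟨a, b⟩
  have e1 := parse_run noSubs (r := (0 : Fin 3)) (r' := 1) (u := 2) (by decide) (by decide)
    (by decide) (bitEncode a) (bitEncode b) (update (fun _ => []) 0 (bitEncode (a, b)))
    (by simp [enc_pair]) (by simp)
  set s1 := update (update (update (fun _ => []) (0 : Fin 3) (bitEncode (a, b))) 0 (bitEncode b)) 1
    ((bitEncode a).reverse ++ update (fun _ => []) (0 : Fin 3) (bitEncode (a, b)) 1) with hs1
  have e2 := clear_run noSubs 1 (bitEncode a).reverse s1 (by simp [hs1])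
  refine ⟨_, ?_, (PRun.seq e1 e2).cast noSubs rfl ?_⟩
  · rw [sz_pair]
    simp only [List.length_reverse]
    change 3 * sz a + 6 + (2 * sz a + 1) ≤ _
    omega
  · funext x
    fin_cases x
    · simp [hs1]
    · simp
    · simp [hs1]

theorem pt_fst {f : α → β × γ} (hf : IsPolyTime f) : IsPolyTime (fun a => (f a).1) :=
  pt_comp pt_fst' hf

theorem pt_snd {f : α → β × γ} (hf : IsPolyTime f) : IsPolyTime (fun a => (f a).2) :=
  pt_comp pt_snd' hf

/-- cons -/
theorem pt_cons {f : α → β} {g : α → List β} (hf : IsPolyTime f) (hg : IsPolyTime g) :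
    IsPolyTime (fun a => f a :: g a) :=
  pt_congr_enc (f := fun a => (f a, g a)) (fun a => rfl) (pt_pair hf hg)

/-- append -/
theorem pt_append' : IsPolyTime (fun p : List α × List α => p.1 ++ p.2) := by
  refine of_prog0 (R := Fin 3) _ (.seq (parse 0 1 2) (move 1 0)) 0 0
    (fun n => 7 * n + 8) (((PolyBd.const 7).mul PolyBd.id).add (PolyBd.const 8)) ?_
  rintro ⟨a, b⟩
  have e1 := parse_run noSubs (r := (0 : Fin 3)) (r' := 1) (u := 2) (by decide) (by decide)
    (by decide) (bitEncode a) (bitEncode b) (update (fun _ => []) 0 (bitEncode (a, b)))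
    (by simp [enc_pair]) (by simp)
  set s1 := update (update (update (fun _ => []) (0 : Fin 3) (bitEncode (a, b))) 0 (bitEncode b)) 1
    ((bitEncode a).reverse ++ update (fun _ => []) (0 : Fin 3) (bitEncode (a, b)) 1) with hs1
  have e3 := move_run noSubs (r := (1 : Fin 3)) (r' := 0) (by decide) (bitEncode a).reverse
    s1 (by simp [hs1])
  refine ⟨_, ?_, (PRun.seq e1 e3).cast noSubs rfl ?_⟩
  · rw [sz_pair]
    simp only [List.length_reverse]
    change 3 * sz a + 6 + (2 * sz a + 1) ≤ _
    omega
  · funext x
    fin_cases x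
    · simp [hs1, enc_append]
    · simp
    · simp [hs1]

theorem pt_append {f g : α → List β} (hf : IsPolyTime f) (hg : IsPolyTime g) :
    IsPolyTime (fun a => f a ++ g a) :=
  pt_comp pt_append' (pt_pair hf hg)

/-- branching -/
theorem pt_cond {p : α → Bool} {f g : α → β} (hp : IsPolyTime p) (hf : IsPolyTime f)
    (hg : IsPolyTime g) : IsPolyTime (fun a => cond (p a) (f a) (g a)) := by
  obtain ⟨sp, pp, qp, hp⟩ := exists_sub hp
  obtain ⟨sf, pf, qf, hf⟩ := exists_sub hf
  obtain ⟨sg, pg, qg, hg⟩ := exists_sub hg
  set subs : Fin 3 → Sub := fun c => if c = 0 then sp else if c = 1 then sf else sg with hsubs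
  refine of_prog (R := Fin 3) (C := Fin 3) subs _
    (.seq (copy 0 1 2) (.seq (.call 0 1) (.case 1 .skip (.call 2 0) (.call 1 0))))
    0 0 (fun n => (4 * n + 2) + ((2 * pp.eval n + 2 * n + 2 * 1 + 5) +
      ((2 * pf.eval n + 2 * n + 2 * qf.eval n + 5) +
        (2 * pg.eval n + 2 * n + 2 * qg.eval n + 5) + 1))) ?_ ?_
  · have hpp := PolyBd.poly pp
    have hpf := PolyBd.poly pf
    have hqf := PolyBd.poly qf
    have hpg := PolyBd.poly pg
    have hqg := PolyBd.poly qg
    have h1 := PolyBd.const 1
    have h2 := PolyBd.const 2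
    have h21 := PolyBd.const (2 * 1)
    have h4 := PolyBd.const 4
    have h5 := PolyBd.const 5
    exact ((h4.mul PolyBd.id).add h2).add
      (((((h2.mul hpp).add (h2.mul PolyBd.id)).add h21).add h5).add
        (((((((h2.mul hpf).add (h2.mul PolyBd.id)).add (h2.mul hqf)).add h5).add
          ((((h2.mul hpg).add (h2.mul PolyBd.id)).add (h2.mul hqg)).add h5))).add h1))
  · intro a
    set A := bitEncode a with hA
    have e1 := copy_run subs (r := (0 : Fin 3)) (r' := 1) (u := 2) (by decide) (by decide)
      (by decide) (update (fun _ => []) 0 A) (by simp)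
    set s1 : Fin 3 → List Bool := update (update (fun _ => []) 0 A) 1
      (update (fun _ => []) 0 A 0 ++ update (fun _ => []) 0 A 1) with hs1
    have e2 := PRun.call (subs := subs) (c := 0) (r := 1)
      (s := s1) (out := bitEncode (p a))
      (t := pp.eval (sz a)) (by simpa [hs1, hsubs] using (hp a).1)
    set s2 := update s1 1 (bitEncode (p a)) with hs2
    have l1 := (hf a).2
    have l2 := (hg a).2
    have l3 : (update (fun _ => []) 0 A (0 : Fin 3)).length = sz a := by simp [hA]
    have l4 : (s1 1).length = sz a := by simp [hs1, hA]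
    cases hpa : p a with
    | true =>
      have h21 : s2 1 = true :: [] := by simp [hs2, hpa, enc_bool]
      have e3 := PRun.call (subs := subs) (c := 1) (r := 0)
        (s := update s2 1 []) (out := bitEncode (f a))
        (t := pf.eval (sz a)) (by simpa [hs2, hs1, hsubs] using (hf a).1)
      have e4 : PRun subs (.case 1 .skip (.call 2 0) (.call 1 0)) s2 _ _ :=
        PRun.case_true h21 e3
      refine ⟨_, ?_, (PRun.seq e1 (PRun.seq e2 e4)).cast subs rfl ?_⟩
      · have l5 : (update s2 1 [] 0).length = sz a := by simp [hs2, hs1, hA]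
        rw [l3, l4, l5]
        change _ + (_ + 2 * sz (p a) + 5 + (_ + 2 * sz (f a) + 5 + 1)) ≤ _
        rw [sz_bool]
        omega
      · funext x
        fin_cases x
        · simp
        · simp
        · simp [hs2, hs1]
    | false =>
      have h21 : s2 1 = false :: [] := by simp [hs2, hpa, enc_bool]
      have e3 := PRun.call (subs := subs) (c := 2) (r := 0)
        (s := update s2 1 []) (out := bitEncode (g a))
        (t := pg.eval (sz a)) (by simpa [hs2, hs1, hsubs] using (hg a).1)
      have e4 : PRun subs (.case 1 .skip (.call 2 0) (.call 1 0)) s2 _ _ :=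
        PRun.case_false h21 e3
      refine ⟨_, ?_, (PRun.seq e1 (PRun.seq e2 e4)).cast subs rfl ?_⟩
      · have l5 : (update s2 1 [] 0).length = sz a := by simp [hs2, hs1, hA]
        rw [l3, l4, l5]
        change _ + (_ + 2 * sz (p a) + 5 + (_ + 2 * sz (g a) + 5 + 1)) ≤ _
        rw [sz_bool]
        omega
      · funext x
        fin_cases x
        · simp
        · simp
        · simp [hs2, hs1]

theorem pt_ite {P : α → Prop} [DecidablePred P] {f g : α → β}
    (hp : IsPolyTime (fun a => decide (P a))) (hf : IsPolyTime f) (hg : IsPolyTime g) :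
    IsPolyTime (fun a => if P a then f a else g a) :=
  pt_congr (pt_cond hp hf hg) (fun a => by by_cases h : P a <;> simp [h])

end Pool.Agent.Lib.PolyTime
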