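import Pool.Agent.Lib.PolyTime.Closure

/-!
# Closure properties of polynomial time functions, part 3

list head and tail, equality test, successor, naming, iteration.
-/

namespace Pool.Agent.Lib.PolyTime

open Turing Function N487b59b3 N68a2faeb Prog

variable {α β γ δ : Type} [N487b59b3 α] [N487b59b3 β] [N487b59b3 γ] [N487b59b3 δ]

theorem parse_nil_run {R C : Type} [DecidableEq R] (subs : C → Sub) {r r' u : R}
    (h2 : r ≠ u) (s : R → List Bool) (hs : s r = []) (hu : s u = []) :
    PRun subs (parse r r' u) s 6 s := by
  have e0 := PRun.push (subs := subs) u true s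
  rw [hu] at e0
  have e1 := clear_run subs u [true] (update s u [true]) (by simp)
  have e2 : PRun subs (.case r (clear u) (clear u)
        (.case r (clear u) (.push r' false) (.push r' true))) (update s u [true]) 4
          (update (update s u [true]) u []) :=
    PRun.case_none (by rw [update_of_ne h2]; exact hs) e1
  have e3 : PRun subs (.while u (.case r (clear u) (clear u)
        (.case r (clear u) (.push r' false) (.push r' true))))
        (update (update s u [true]) u []) 1 (update (update s u [true]) u []) :=
    PRun.while_done (by simp)
  refine (PRun.seq e0 (PRun.while_step (by simp) e2 e3)).cast subs (by simp) ?_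
  rw [update_idem, update_eq_iff]
  exact ⟨hu.symm, fun _ _ => rfl⟩

/-- tail of a list -/
theorem pt_tail' : IsPolyTime (fun l : List α => l.tail) := by
  refine of_prog0 (R := Fin 3) _ (.seq (parse 0 1 2) (clear 1)) 0 0
    (fun n => 7 * n + 8) (((PolyBd.const 7).mul PolyBd.id).add (PolyBd.const 8)) ?_
  intro l
  cases l with
  | nil =>
    have e1 := parse_nil_run noSubs (r := (0 : Fin 3)) (r' := 1) (u := 2) (by decide)
      (update (fun _ => []) 0 (bitEncode ([] : List α))) (by simp [enc_nil]) (by simp)
    have e2 := clear_run noSubs 1 [] (update (fun _ => []) (0 : Fin 3)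
      (bitEncode ([] : List α))) (by simp)
    refine ⟨_, ?_, (PRun.seq e1 e2).cast noSubs rfl ?_⟩
    · simp
    · funext x
      fin_cases x <;> simp
  | cons a l =>
    have e1 := parse_run noSubs (r := (0 : Fin 3)) (r' := 1) (u := 2) (by decide) (by decide)
      (by decide) (bitEncode a) (bitEncode l) (update (fun _ => []) 0 (bitEncode (a :: l)))
      (by simp [enc_cons]) (by simp)
    set s1 := update (update (update (fun _ => []) (0 : Fin 3) (bitEncode (a :: l))) 0
      (bitEncode l)) 1 ((bitEncode a).reverse ++
        update (fun _ => []) (0 : Fin 3) (bitEncode (a :: l)) 1) with hs1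
    have e2 := clear_run noSubs 1 (bitEncode a).reverse s1 (by simp [hs1])
    refine ⟨_, ?_, (PRun.seq e1 e2).cast noSubs rfl ?_⟩
    · rw [sz_cons]
      simp only [List.length_reverse]
      change 3 * sz a + 6 + (2 * sz a + 1) ≤ _
      omega
    · funext x
      fin_cases x
      · simp [hs1]
      · simp
      · simp [hs1]

theorem pt_tail {f : α → List β} (hf : IsPolyTime f) : IsPolyTime (fun a => (f a).tail) :=
  pt_comp pt_tail' hf

/-- head of a list with a default value -/
theorem pt_headD' (d : α) : IsPolyTime (fun l : List α => l.headD d) := by
  refine of_prog0 (R := Fin 3) _ (.case 0 (pushList 0 (bitEncode d))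
    (.seq (.push 0 false) (.seq (parse 0 1 2) (.seq (clear 0) (move 1 0))))
    (.seq (.push 0 true) (.seq (parse 0 1 2) (.seq (clear 0) (move 1 0))))) 0 0
    (fun n => 7 * n + 9) (((PolyBd.const 7).mul PolyBd.id).add (PolyBd.const 9)) ?_
  intro l
  cases l with
  | nil =>
    have e1 := pushList_run noSubs 0 (bitEncode d) (update (fun _ => []) (0 : Fin 3)
      (bitEncode ([] : List α)))
    refine ⟨_, ?_, (PRun.case_none (by simp [enc_nil]) e1).cast noSubs rfl ?_⟩
    · simp
    · funext x
      fin_cases x <;> simp [enc_nil]
  | cons a l =>
    obtain ⟨b, L, hbL⟩ : ∃ b L, bitEncode (a :: l) = b :: L := by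
      rw [enc_cons]
      cases h : bitEncode a with
      | nil => exact ⟨false, bitEncode l, rfl⟩
      | cons b' L' => exact ⟨true, b' :: (delimit L' ++ bitEncode l), rfl⟩
    have e1 := parse_run noSubs (r := (0 : Fin 3)) (r' := 1) (u := 2) (by decide) (by decide)
      (by decide) (bitEncode a) (bitEncode l) (update (fun _ => []) 0 (bitEncode (a :: l)))
      (by simp [enc_cons]) (by simp)
    set s1 := update (update (update (fun _ => []) (0 : Fin 3) (bitEncode (a :: l))) 0
      (bitEncode l)) 1 ((bitEncode a).reverse ++
        update (fun _ => []) (0 : Fin 3) (bitEncode (a :: l)) 1) with hs1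
    have e2 := clear_run noSubs 0 (bitEncode l) s1 (by simp [hs1])
    have e3 := move_run noSubs (r := (1 : Fin 3)) (r' := 0) (by decide) (bitEncode a).reverse
      (update s1 0 []) (by simp [hs1])
    have e4 := PRun.seq e1 (PRun.seq e2 e3)
    have e0 := PRun.push (subs := noSubs) 0 b (update (update (fun _ => []) (0 : Fin 3)
      (bitEncode (a :: l))) 0 L)
    have e00 : update (update (update (fun _ => []) (0 : Fin 3) (bitEncode (a :: l))) 0 L) 0
        (b :: update (update (fun _ => []) (0 : Fin 3) (bitEncode (a :: l))) 0 L 0) =
        update (fun _ => []) (0 : Fin 3) (bitEncode (a :: l)) := by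
      rw [update_self, update_idem, update_idem, hbL]
    rw [e00] at e0
    have e5 := PRun.seq e0 e4
    have hfin : update (update (update s1 0 []) 1 []) 0
        ((bitEncode a).reverse.reverse ++ update s1 0 [] 0) =
        update (fun _ => []) 0 (bitEncode ((a :: l).headD d)) := by
      funext x
      fin_cases x
      · simp
      · simp
      · simp [hs1]
    have hlen : 0 + (3 * (bitEncode a).length + 6 + (2 * (bitEncode l).length + 1 +
        (2 * (bitEncode a).reverse.length + 1))) + 1 ≤ 7 * sz (a :: l) + 9 := by
      rw [sz_cons]
      simp only [List.length_reverse]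
      change 0 + (3 * sz a + 6 + (2 * sz l + 1 + (2 * sz a + 1))) + 1 ≤ _
      omega
    cases b
    · exact ⟨_, hlen, (PRun.case_false (l := L) (by simp [hbL]) e5).cast noSubs rfl hfin⟩
    · exact ⟨_, hlen, (PRun.case_true (l := L) (by simp [hbL]) e5).cast noSubs rfl hfin⟩

theorem pt_headD (d : β) {f : α → List β} (hf : IsPolyTime f) :
    IsPolyTime (fun a => (f a).headD d) :=
  pt_comp (pt_headD' d) hf

/-- emptiness test -/
theorem pt_isEmpty' : IsPolyTime (fun l : List α => l.isEmpty) := by
  refine of_prog0 (R := Unit) _ (.case () (.push () true)
    (.seq (clear ()) (.push () false)) (.seq (clear ()) (.push () false))) () ()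
    (fun n => 2 * n + 2) (((PolyBd.const 2).mul PolyBd.id).add (PolyBd.const 2)) ?_
  intro l
  cases l with
  | nil =>
    have e1 := PRun.push (subs := noSubs) () true (update (fun _ => [])
      () (bitEncode ([] : List α)))
    refine ⟨_, ?_, (PRun.case_none (by simp [enc_nil]) e1).cast noSubs rfl ?_⟩
    · simp
    · funext x
      simp [enc_nil, enc_bool]
  | cons a l =>
    obtain ⟨b, L, hbL⟩ : ∃ b L, bitEncode (a :: l) = b :: L := by
      rw [enc_cons]
      cases h : bitEncode a with
      | nil => exact ⟨false, bitEncode l, rfl⟩
      | cons b' L' => exact ⟨true, b' :: (delimit L' ++ bitEncode l), rfl⟩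
    have e1 := clear_run noSubs () L (update (update (fun _ => []) () (bitEncode (a :: l))) () L)
      (by simp)
    have e2 := PRun.push (subs := noSubs) () false (update (update (update (fun _ => [])
      () (bitEncode (a :: l))) () L) () [])
    have e3 := PRun.seq e1 e2
    have hfin : update (update (update (update (fun _ => []) () (bitEncode (a :: l))) () L) () [])
        () (false :: update (update (update (fun _ => []) () (bitEncode (a :: l))) () L) () [] ())
        = update (fun _ => []) () (bitEncode ((a :: l).isEmpty)) := by
      funext x
      simp [enc_bool]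
    have hlen : 2 * L.length + 1 + 0 + 1 ≤ 2 * sz (a :: l) + 2 := by
      have : sz (a :: l) = L.length + 1 := by
        change (bitEncode (a :: l)).length = _
        rw [hbL]; rfl
      omega
    cases b
    · exact ⟨_, hlen, (PRun.case_false (l := L) (by simp [hbL]) e3).cast noSubs rfl hfin⟩
    · exact ⟨_, hlen, (PRun.case_true (l := L) (by simp [hbL]) e3).cast noSubs rfl hfin⟩

theorem pt_isEmpty {f : α → List β} (hf : IsPolyTime f) :
    IsPolyTime (fun a => (f a).isEmpty) :=
  pt_comp pt_isEmpty' hf

/-- comparison loop: compares registers 2 and 0, register 3 is the flag -/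
def cmpBody : Prog (Fin 4) Empty :=
  .case 2 .skip (.case 0 (clear 3) .skip (clear 3)) (.case 0 (clear 3) (clear 3) .skip)

/-- Equality test for encodings -/
theorem pt_eqEnc : IsPolyTime (fun p : α × β => decide (bitEncode p.1 = bitEncode p.2)) := by
  refine of_prog0 (R := Fin 4) _ (.seq (parse 0 1 2) (.seq (move 1 2) (.seq (.push 3 true)
    (.seq (.while 2 cmpBody) (.seq (.case 0 .skip (clear 3) (clear 3))
      (.seq (clear 0) (.case 3 (.push 3 false) (.push 3 false) (.push 3 true)))))))) 0 3
    (fun n => 20 * n + 30) (((PolyBd.const 20).mul PolyBd.id).add (PolyBd.const 30)) ?_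
  -- the loop
  have key : ∀ (A B F : List Bool) (s : Fin 4 → List Bool), (F = [] ∨ F = [true]) →
      s 2 = A → s 0 = B → s 3 = F → s 1 = [] →
      ∃ t ≤ 6 * A.length + 1, PRun noSubs (.while 2 cmpBody) s t
        (fun x => if x = 0 then B.drop A.length
          else if x = 3 then (if F = [true] ∧ A = B.take A.length then [true] else [])
          else []) := by
    intro A
    induction A with
    | nil =>
      intro B F s hF h2 h0 h3 h1
      refine ⟨1, by simp, (PRun.while_done h2).cast noSubs rfl ?_⟩
      funext x
      fin_cases x
      · simpa using h0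
      · simpa using h1
      · simpa using h2
      · rcases hF with hF | hF <;> simp [h3, hF]
    | cons b A ih =>
      intro B F s hF h2 h0 h3 h1
      -- one iteration
      have hone : ∃ t ≤ 5, PRun noSubs cmpBody s t
          (fun x => if x = 0 then B.tail else if x = 3 then
            (if F = [true] ∧ B.head? = some b then [true] else []) else
              if x = 2 then A else []) := by
        have hs' : update s 2 A 0 = B := by simp [h0]
        have hclr : ∀ (s' : Fin 4 → List Bool), s' 3 = F →
            ∃ t ≤ 3, PRun noSubs (clear 3) s' t (update s' 3 []) := by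
          intro s' hs'
          refine ⟨_, ?_, clear_run noSubs 3 F s' hs'⟩
          rcases hF with hF | hF <;> simp [hF]
        cases B with
        | nil =>
          obtain ⟨t, ht, hc⟩ := hclr (update s 2 A) (by simp [h3])
          have hfin : update (update s 2 A) 3 [] =
              (fun x => if x = 0 then ([] : List Bool).tail else if x = 3 then
            (if F = [true] ∧ ([] : List Bool).head? = some b then [true] else []) else
              if x = 2 then A else []) := by
            funext x
            fin_cases x
            · simpa using h0
            · simpa using h1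
            · simp
            · simp
          cases b
          · exact ⟨t + 1 + 1, by omega,
              (PRun.case_false h2 (PRun.case_none (by simpa using h0) hc)).cast noSubs rfl hfin⟩
          · exact ⟨t + 1 + 1, by omega,
              (PRun.case_true h2 (PRun.case_none (by simpa using h0) hc)).cast noSubs rfl hfin⟩
        | cons b' B =>
          obtain ⟨t, ht, hc⟩ := hclr (update (update s 2 A) 0 B) (by simp [h3])
          have hfin1 : b ≠ b' → update (update (update s 2 A) 0 B) 3 [] =
              (fun x => if x = 0 then (b' :: B).tail else if x = 3 then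
            (if F = [true] ∧ (b' :: B).head? = some b then [true] else []) else
              if x = 2 then A else []) := by
            intro hb
            funext x
            fin_cases x
            · simp
            · simpa using h1
            · simp
            · simp [hb.symm]
          have hfin2 : b = b' → (update (update s 2 A) 0 B) =
              (fun x => if x = 0 then (b' :: B).tail else if x = 3 then
            (if F = [true] ∧ (b' :: B).head? = some b then [true] else []) else
              if x = 2 then A else []) := by
            intro hb
            funext x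
            fin_cases x
            · simp
            · simpa using h1
            · simp
            · rcases hF with hF | hF <;> simp [hb, h3, hF]
          cases b <;> cases b'
          · exact ⟨1 + 1, by omega, (PRun.case_false h2 (PRun.case_false hs'
              (PRun.skip _))).cast noSubs rfl (hfin2 rfl)⟩
          · exact ⟨t + 1 + 1, by omega, (PRun.case_false h2 (PRun.case_true hs'
              hc)).cast noSubs rfl (hfin1 (by simp))⟩
          · exact ⟨t + 1 + 1, by omega, (PRun.case_true h2 (PRun.case_false hs'
              hc)).cast noSubs rfl (hfin1 (by simp))⟩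
          · exact ⟨1 + 1, by omega, (PRun.case_true h2 (PRun.case_true hs'
              (PRun.skip _))).cast noSubs rfl (hfin2 rfl)⟩
      obtain ⟨t1, ht1, hr1⟩ := hone
      obtain ⟨t2, ht2, hr2⟩ := ih B.tail (if F = [true] ∧ B.head? = some b then [true] else [])
        (fun x => if x = 0 then B.tail else if x = 3 then
            (if F = [true] ∧ B.head? = some b then [true] else []) else
              if x = 2 then A else []) (by split_ifs <;> simp) (by simp) rfl (by simp) (by simp)
      refine ⟨1 + t1 + t2, ?_, (PRun.while_step (by rw [h2]; simp) hr1 hr2).cast noSubs rfl ?_⟩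
      · simp only [List.length_cons]; omega
      · funext x
        fin_cases x
        · simp [List.drop_tail]
        · simp
        · simp
        · cases B with
          | nil => simp
          | cons b' B =>
            by_cases hb : b' = b
            · subst hb; simp
            · have : ¬ b = b' := fun h => hb h.symm
              simp [hb, this]
  rintro ⟨a, b⟩
  have e1 := parse_run noSubs (r := (0 : Fin 4)) (r' := 1) (u := 2) (by decide) (by decide)
    (by decide) (bitEncode a) (bitEncode b) (update (fun _ => []) 0 (bitEncode (a, b)))
    (by simp [enc_pair]) (by simp)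
  set s1 := update (update (update (fun _ => []) (0 : Fin 4) (bitEncode (a, b))) 0 (bitEncode b)) 1
    ((bitEncode a).reverse ++ update (fun _ => []) (0 : Fin 4) (bitEncode (a, b)) 1) with hs1
  have e2 := move_run noSubs (r := (1 : Fin 4)) (r' := 2) (by decide) (bitEncode a).reverse
    s1 (by simp [hs1])
  set s2 := update (update s1 1 []) 2 ((bitEncode a).reverse.reverse ++ s1 2) with hs2
  have e3 := PRun.push (subs := noSubs) 3 true s2
  set s3 := update s2 3 (true :: s2 3) with hs3
  obtain ⟨t4, ht4, e4⟩ := key (bitEncode a) (bitEncode b) [true] s3 (Or.inr rfl)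
    (by simp [hs3, hs2, hs1]) (by simp [hs3, hs2, hs1]) (by simp [hs3, hs2, hs1])
    (by simp [hs3, hs2])
  set s4 : Fin 4 → List Bool := (fun x => if x = 0 then (bitEncode b).drop (bitEncode a).length
          else if x = 3 then (if [true] = [true] ∧ bitEncode a =
            (bitEncode b).take (bitEncode a).length then [true] else [])
          else []) with hs4
  -- the final phase
  have hfinal : ∃ t ≤ 2 * (bitEncode b).length + 10, PRun noSubs
      (.seq (.case 0 .skip (clear 3) (clear 3))
      (.seq (clear 0) (.case 3 (.push 3 false) (.push 3 false) (.push 3 true)))) s4 t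
      (update (fun _ => []) 3 [decide (bitEncode a = bitEncode b)]) := by
    have h43 : s4 3 = [] ∨ s4 3 = [true] := by
      by_cases h : bitEncode a = (bitEncode b).take (bitEncode a).length
      · right
        rw [hs4]
        change (if (3 : Fin 4) = 0 then _ else if (3 : Fin 4) = 3 then _ else _) = _
        rw [if_neg (by decide), if_pos rfl, if_pos ⟨rfl, h⟩]
      · left
        rw [hs4]
        change (if (3 : Fin 4) = 0 then _ else if (3 : Fin 4) = 3 then _ else _) = _
        rw [if_neg (by decide), if_pos rfl, if_neg (fun h' => h h'.2)]
    have hlen0 : (s4 0).length ≤ (bitEncode b).length := by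
      simp [hs4]
    cases h40 : s4 0 with
    | nil =>
      have e5 : PRun noSubs (.case 0 .skip (clear 3) (clear 3)) s4 1 s4 :=
        PRun.case_none h40 (PRun.skip _)
      have e6 := clear_run noSubs 0 [] s4 h40
      have hle : (bitEncode b).length ≤ (bitEncode a).length := by
        simpa [hs4] using h40
      have htake : (bitEncode b).take (bitEncode a).length = bitEncode b :=
        List.take_of_length_le hle
      rcases h43 with h | h
      · have hne : ¬ bitEncode a = bitEncode b := by
          simp only [hs4, htake] at h
          simpa using h
        have e7 := PRun.push (subs := noSubs) 3 false (update s4 0 [])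
        have e8 := PRun.case_none (f := .push 3 false) (tt := .push 3 true)
          (show update s4 0 [] 3 = [] by simp [h]) e7
        refine ⟨_, ?_, (PRun.seq e5 (PRun.seq e6 e8)).cast noSubs rfl ?_⟩
        · simp
        · funext x
          fin_cases x <;> simp [hs4, hne]
          simp [htake, hne]
      · have he : bitEncode a = bitEncode b := by
          by_contra hne
          simp only [hs4, htake] at h
          simp [hne] at h
        have e7 := PRun.push (subs := noSubs) 3 true (update (update s4 0 []) 3 [])
        have e8 := PRun.case_true (e := .push 3 false) (f := .push 3 false)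
          (show update s4 0 [] 3 = true :: [] by simp [h]) e7
        refine ⟨_, ?_, (PRun.seq e5 (PRun.seq e6 e8)).cast noSubs rfl ?_⟩
        · simp
        · funext x
          fin_cases x <;> simp [hs4, he]
    | cons c L =>
      have hne : ¬ bitEncode a = bitEncode b := by
        intro he
        have : s4 0 = [] := by simp [hs4, he]
        rw [this] at h40
        cases h40
      have hc : ∃ t ≤ 3, PRun noSubs (clear 3) (update s4 0 L) t (update (update s4 0 L) 3 []) := by
        refine ⟨_, ?_, clear_run noSubs 3 (s4 3) _ (by simp)⟩
        rcases h43 with h | h <;> simp [h]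
      obtain ⟨t5, ht5, e5⟩ := hc
      have e5' : PRun noSubs (.case 0 .skip (clear 3) (clear 3)) s4 (t5 + 1)
          (update (update s4 0 L) 3 []) := by
        cases c
        · exact PRun.case_false h40 e5
        · exact PRun.case_true h40 e5
      have e6 := clear_run noSubs 0 L (update (update s4 0 L) 3 []) (by simp)
      have e7 := PRun.push (subs := noSubs) 3 false (update (update (update s4 0 L) 3 []) 0 [])
      have e8 := PRun.case_none (f := .push 3 false) (tt := .push 3 true)
          (show update (update (update s4 0 L) 3 []) 0 [] 3 = [] by simp) e7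
      refine ⟨_, ?_, (PRun.seq e5' (PRun.seq e6 e8)).cast noSubs rfl ?_⟩
      · have : L.length + 1 ≤ (bitEncode b).length := by
          rw [h40] at hlen0; simpa using hlen0
        omega
      · funext x
        fin_cases x <;> simp [hs4, hne]
  obtain ⟨t5, ht5, e5⟩ := hfinal
  refine ⟨_, ?_, (PRun.seq e1 (PRun.seq e2 (PRun.seq e3 (PRun.seq e4 e5)))).cast noSubs rfl ?_⟩
  · rw [sz_pair]
    simp only [List.length_reverse]
    change 3 * sz a + 6 + (2 * sz a + 1 + (0 + (t4 + t5))) ≤ _
    change t4 ≤ 6 * sz a + 1 at ht4
    change t5 ≤ 2 * sz b + 10 at ht5
    omega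
  · rfl

/-- Equality test. -/
theorem pt_eq [DecidableEq β] {f g : α → β} (hf : IsPolyTime f) (hg : IsPolyTime g) :
    IsPolyTime (fun a => decide (f a = g a)) := by
  refine pt_congr (pt_comp pt_eqEnc (pt_pair hf hg)) ?_
  intro a
  simp only [decide_eq_decide]
  exact ⟨fun h => bitEncode_injective h, fun h => by rw [h]⟩

theorem pt_and {f g : α → Bool} (hf : IsPolyTime f) (hg : IsPolyTime g) :
    IsPolyTime (fun a => f a && g a) :=
  pt_congr (pt_cond hf hg (pt_const false)) (fun a => by cases f a <;> simp)

theorem pt_or {f g : α → Bool} (hf : IsPolyTime f) (hg : IsPolyTime g) :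
    IsPolyTime (fun a => f a || g a) :=
  pt_congr (pt_cond hf (pt_const true) hg) (fun a => by cases f a <;> simp)

theorem pt_not {f : α → Bool} (hf : IsPolyTime f) : IsPolyTime (fun a => !(f a)) :=
  pt_congr (pt_cond hf (pt_const false) (pt_const true)) (fun a => by cases f a <;> simp)

end Pool.Agent.Lib.PolyTime
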