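import Pool.Agent.Lib.PolyTime.Basic

/-!
# Derived commands for register programs
-/

namespace Pool.Agent.Lib.PolyTime

open Turing Function

namespace Prog

variable {R C : Type}

/-- clear register `r` -/
def clear (r : R) : Prog R C := .while r (.case r .skip .skip .skip)

/-- move register `r` onto register `r'` (reversing it) -/
def move (r r' : R) : Prog R C := .while r (.case r .skip (.push r' false) (.push r' true))

/-- move register `r` onto both `r₁` and `r₂` (reversing it) -/
def move2 (r r₁ r₂ : R) : Prog R C :=
  .while r (.case r .skip (.seq (.push r₁ false) (.push r₂ false))
    (.seq (.push r₁ true) (.push r₂ true)))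

/-- copy register `r` onto register `r'`, using `u` as temporary -/
def copy (r r' u : R) : Prog R C := .seq (move r u) (move2 u r r')

/-- pop all bits of the list `c`: push the constant list `c` onto `r` -/
def pushList (r : R) : List Bool → Prog R C
  | [] => .skip
  | b :: l => .seq (pushList r l) (.push r b)

/-- parse a delimited block from `r`, storing it reversed on `r'`; `u` is a temporary register -/
def parse (r r' u : R) : Prog R C :=
  .seq (.push u true)
    (.while u
      (.case r (clear u) (clear u)
        (.case r (clear u) (.push r' false) (.push r' true))))

/-- delimit: from the reversed block in `r` put the delimited block onto `r'` -/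
def delim (r r' : R) : Prog R C :=
  .seq (.push r' false)
    (.while r (.case r .skip (.seq (.push r' false) (.push r' true))
      (.seq (.push r' true) (.push r' true))))

end Prog

open Prog

variable {R C : Type} [DecidableEq R] (subs : C → Sub)

theorem PRun.cast {p : Prog R C} {s s' s'' : R → List Bool} {t t' : ℕ}
    (h : PRun subs p s t s') (ht : t = t') (hs : s' = s'') : PRun subs p s t' s'' := by
  subst ht hs; exact h

theorem clear_run (r : R) : ∀ (l : List Bool) (s : R → List Bool), s r = l →
    PRun subs (clear r) s (2 * l.length + 1) (update s r []) := by
  intro l
  induction l with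
  | nil =>
    intro s hs
    have : update s r [] = s := by rw [update_eq_iff]; exact ⟨hs.symm, fun _ _ => rfl⟩
    rw [this]
    exact PRun.while_done hs
  | cons b l ih =>
    intro s hs
    have hb : PRun subs (.case r .skip .skip .skip) s 1 (update s r l) := by
      cases b
      · exact PRun.case_false hs (PRun.skip _)
      · exact PRun.case_true hs (PRun.skip _)
    have h2 := ih (update s r l) (by simp)
    rw [update_idem] at h2
    exact (PRun.while_step (by rw [hs]; simp) hb h2).cast subs (by simp; ring) rfl

theorem move_run {r r' : R} (hr : r ≠ r') : ∀ (l : List Bool) (s : R → List Bool), s r = l →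
    PRun subs (move r r') s (2 * l.length + 1)
      (update (update s r []) r' (l.reverse ++ s r')) := by
  intro l
  induction l with
  | nil =>
    intro s hs
    have e : update (update s r []) r' ([].reverse ++ s r') = s := by
      have e1 : update s r [] = s := by rw [update_eq_iff]; exact ⟨hs.symm, fun _ _ => rfl⟩
      rw [e1, update_eq_iff]
      exact ⟨by simp, fun _ _ => rfl⟩
    rw [e]
    exact PRun.while_done hs
  | cons b l ih =>
    intro s hs
    have hb : PRun subs (.case r .skip (.push r' false) (.push r' true)) s 1
        (update (update s r l) r' (b :: s r')) := by
      cases b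
      · refine PRun.case_false (l := l) hs ((PRun.push r' false (update s r l)).cast subs rfl ?_)
        rw [update_of_ne hr.symm]
      · refine PRun.case_true (l := l) hs ((PRun.push r' true (update s r l)).cast subs rfl ?_)
        rw [update_of_ne hr.symm]
    have h2 := ih (update (update s r l) r' (b :: s r')) (by
      rw [update_of_ne hr, update_self])
    refine (PRun.while_step (by rw [hs]; simp) hb h2).cast subs (by simp; ring) ?_
    funext x
    by_cases h1 : x = r'
    · subst h1
      simp
    · by_cases h2 : x = r
      · subst h2
        simp [h1]
      · simp [h1, h2]

theorem move2_run {r r₁ r₂ : R} (h1 : r ≠ r₁) (h2 : r ≠ r₂) (h12 : r₁ ≠ r₂) :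
    ∀ (l : List Bool) (s : R → List Bool), s r = l →
    PRun subs (move2 r r₁ r₂) s (2 * l.length + 1)
      (update (update (update s r []) r₁ (l.reverse ++ s r₁)) r₂ (l.reverse ++ s r₂)) := by
  intro l
  induction l with
  | nil =>
    intro s hs
    have e : update (update (update s r []) r₁ ([].reverse ++ s r₁)) r₂ ([].reverse ++ s r₂) =
        s := by
      funext x
      by_cases hx2 : x = r₂
      · subst hx2; simp
      · by_cases hx1 : x = r₁
        · subst hx1; simp [hx2]
        · by_cases hx : x = r
          · subst hx; simp [hx1, hx2, hs]
          · simp [hx, hx1, hx2]
    rw [e]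
    exact PRun.while_done hs
  | cons b l ih =>
    intro s hs
    have hb : PRun subs (.case r .skip (.seq (.push r₁ false) (.push r₂ false))
        (.seq (.push r₁ true) (.push r₂ true))) s 1
        (update (update (update s r l) r₁ (b :: s r₁)) r₂ (b :: s r₂)) := by
      cases b
      · refine PRun.case_false (l := l) hs ((PRun.seq (PRun.push r₁ false (update s r l))
          (PRun.push r₂ false _)).cast subs rfl ?_)
        rw [update_of_ne h1.symm, update_of_ne h12.symm, update_of_ne h2.symm]
      · refine PRun.case_true (l := l) hs ((PRun.seq (PRun.push r₁ true (update s r l))
          (PRun.push r₂ true _)).cast subs rfl ?_)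
        rw [update_of_ne h1.symm, update_of_ne h12.symm, update_of_ne h2.symm]
    have h3 := ih (update (update (update s r l) r₁ (b :: s r₁)) r₂ (b :: s r₂)) (by
      rw [update_of_ne h2, update_of_ne h1, update_self])
    refine (PRun.while_step (by rw [hs]; simp) hb h3).cast subs (by simp; ring) ?_
    funext x
    by_cases hx2 : x = r₂
    · subst hx2; simp
    · by_cases hx1 : x = r₁
      · subst hx1; simp [hx2]
      · by_cases hx : x = r
        · subst hx; simp [hx1, hx2]
        · simp [hx, hx1, hx2]

theorem copy_run {r r' u : R} (h1 : r ≠ r') (h2 : r ≠ u) (h3 : r' ≠ u) (s : R → List Bool)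
    (hu : s u = []) :
    PRun subs (copy r r' u) s (4 * (s r).length + 2) (update s r' (s r ++ s r')) := by
  have e1 := move_run subs h2 (s r) s rfl
  have e2 := move2_run subs h2.symm h3.symm h1 ((s r).reverse)
    (update (update s r []) u ((s r).reverse ++ s u)) (by simp [hu])
  refine (PRun.seq e1 e2).cast subs (by simp; ring) ?_
  funext x
  by_cases hx1 : x = r'
  · subst hx1
    simp [h1.symm, h3]
  · by_cases hx2 : x = r
    · subst hx2
      simp [h2, hx1]
    · by_cases hx3 : x = u
      · subst hx3
        simp [hx1, hx2, hu]
      · simp [hx1, hx2, hx3]

theorem pushList_run (r : R) : ∀ (l : List Bool) (s : R → List Bool),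
    PRun subs (pushList r l) s 0 (update s r (l ++ s r)) := by
  intro l
  induction l with
  | nil =>
    intro s
    have : update s r ([] ++ s r) = s := by simp
    rw [this]
    exact PRun.skip s
  | cons b l ih =>
    intro s
    refine (PRun.seq (ih s) (PRun.push r b _)).cast subs rfl ?_
    simp

open N487b59b3 in
theorem parse_run {r r' u : R} (h1 : r ≠ r') (h2 : r ≠ u) (h3 : r' ≠ u) :
    ∀ (A B : List Bool) (s : R → List Bool), s r = delimit A ++ B → s u = [] →
    PRun subs (parse r r' u) s (3 * A.length + 6)
      (update (update s r B) r' (A.reverse ++ s r')) := by
  have key : ∀ (A B : List Bool) (s : R → List Bool), s r = delimit A ++ B → s u = [true] →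
      PRun subs (.while u (.case r (clear u) (clear u)
        (.case r (clear u) (.push r' false) (.push r' true)))) s (3 * A.length + 6)
        (update (update (update s r B) r' (A.reverse ++ s r')) u []) := by
    intro A
    induction A with
    | nil =>
      intro B s hs hu
      have e1 := clear_run subs u [true] (update s r B) (by rw [update_of_ne h2.symm]; exact hu)
      have e2 : PRun subs (.case r (clear u) (clear u)
        (.case r (clear u) (.push r' false) (.push r' true))) s 4
          (update (update s r B) u []) := PRun.case_false (by rw [hs]; rfl) e1
      have e3 : PRun subs (.while u (.case r (clear u) (clear u)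
        (.case r (clear u) (.push r' false) (.push r' true)))) (update (update s r B) u []) 1
          (update (update s r B) u []) := PRun.while_done (by simp)
      refine (PRun.while_step (by rw [hu]; simp) e2 e3).cast subs (by simp) ?_
      congr 1
      funext x
      by_cases hx : x = r'
      · subst hx; simp [h1.symm]
      · simp [hx]
    | cons b A ih =>
      intro B s hs hu
      have hs' : s r = true :: b :: (delimit A ++ B) := by rw [hs]; rfl
      have e1 : PRun subs (.case r (clear u) (clear u)
        (.case r (clear u) (.push r' false) (.push r' true))) s 2
          (update (update s r (delimit A ++ B)) r' (b :: s r')) := by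
        refine PRun.case_true hs' ?_
        cases b
        · refine PRun.case_false (l := delimit A ++ B) (by simp) ?_
          refine (PRun.push r' false _).cast subs rfl ?_
          rw [update_idem, update_of_ne h1.symm]
        · refine PRun.case_true (l := delimit A ++ B) (by simp) ?_
          refine (PRun.push r' true _).cast subs rfl ?_
          rw [update_idem, update_of_ne h1.symm]
      have e2 := ih B (update (update s r (delimit A ++ B)) r' (b :: s r'))
        (by rw [update_of_ne h1, update_self]) (by
          rw [update_of_ne h3.symm, update_of_ne h2.symm]; exact hu)
      refine (PRun.while_step (by rw [hu]; simp) e1 e2).cast subs (by simp; ring) ?_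
      congr 1
      funext x
      by_cases hx : x = r'
      · subst hx; simp
      · by_cases hx' : x = r
        · subst hx'; simp [hx]
        · simp [hx, hx']
  intro A B s hs hu
  have e0 := PRun.push (subs := subs) u true s
  rw [hu] at e0
  have e1 := key A B (update s u [true]) (by rw [update_of_ne h2]; exact hs) (by simp)
  refine (PRun.seq e0 e1).cast subs (by ring) ?_
  funext x
  by_cases hx : x = u
  · subst hx; simp [h2.symm, h3.symm, hu]
  · by_cases hx' : x = r'
    · subst hx'; simp [hx]
    · by_cases hx'' : x = r
      · subst hx''; simp [hx, hx']
      · simp [hx, hx', hx'']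

open N487b59b3 in
theorem delim_run {r r' : R} (h1 : r ≠ r') (A : List Bool) (s : R → List Bool)
    (hs : s r = A.reverse) :
    PRun subs (delim r r') s (2 * A.length + 1)
      (update (update s r []) r' (delimit A ++ s r')) := by
  have key : ∀ (L : List Bool) (A : List Bool) (B : List Bool) (s : R → List Bool), s r = L →
      s r' = delimit A ++ B →
      PRun subs (.while r (.case r .skip (.seq (.push r' false) (.push r' true))
        (.seq (.push r' true) (.push r' true)))) s (2 * L.length + 1)
        (update (update s r []) r' (delimit (L.reverse ++ A) ++ B)) := by
    intro L
    induction L with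
    | nil =>
      intro A B s hs hs'
      have e : update (update s r []) r' (delimit ([].reverse ++ A) ++ B) = s := by
        funext x
        by_cases hx : x = r'
        · subst hx; simp [hs']
        · by_cases hx' : x = r
          · subst hx'; simp [hx, hs]
          · simp [hx, hx']
      rw [e]
      exact PRun.while_done hs
    | cons b L ih =>
      intro A B s hs hs'
      have hb : PRun subs (.case r .skip (.seq (.push r' false) (.push r' true))
        (.seq (.push r' true) (.push r' true))) s 1
          (update (update s r L) r' (delimit (b :: A) ++ B)) := by
        cases b
        · refine PRun.case_false (l := L) hs ((PRun.seq (PRun.push r' false (update s r L))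
            (PRun.push r' true _)).cast subs rfl ?_)
          rw [update_self, update_idem, update_of_ne h1.symm, hs']
          rfl
        · refine PRun.case_true (l := L) hs ((PRun.seq (PRun.push r' true (update s r L))
            (PRun.push r' true _)).cast subs rfl ?_)
          rw [update_self, update_idem, update_of_ne h1.symm, hs']
          rfl
      have h2 := ih (b :: A) B (update (update s r L) r' (delimit (b :: A) ++ B)) (by
        rw [update_of_ne h1, update_self]) (by simp)
      refine (PRun.while_step (by rw [hs]; simp) hb h2).cast subs (by simp; ring) ?_
      funext x
      by_cases hx : x = r'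
      · subst hx; simp
      · by_cases hx' : x = r
        · subst hx'; simp [hx]
        · simp [hx, hx']
  have e0 := PRun.push (subs := subs) r' false s
  have e1 := key A.reverse [] (s r') (update s r' (false :: s r')) (by
    rw [update_of_ne h1]; exact hs) (by simp [delimit])
  refine (PRun.seq e0 e1).cast subs (by simp) ?_
  funext x
  by_cases hx : x = r'
  · subst hx; simp
  · by_cases hx' : x = r
    · subst hx'; simp [hx]
    · simp [hx, hx']

end Pool.Agent.Lib.PolyTime
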