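import Mathlib

/-!
# Structured code for multi-stack machines (layer 0)

`Code K Γ σ` is a structured language (sequence, branching, switch, while loops) over stacks
indexed by `K` with alphabets `Γ k` and a finite control variable of type `σ`.
Every code is compiled to a `Turing.FinTM2` (Mathlib's multi-stack Turing machine).
-/

namespace Pool.Agent.Lib.PolyTime

open Turing Function

/-- Structured code over stacks. -/
inductive Code (K : Type) (Γ : K → Type) (σ : Type) : Type 1
  | skip : Code K Γ σ
  | push (k : K) (f : σ → Γ k) : Code K Γ σ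
  | peek (k : K) (f : σ → Option (Γ k) → σ) : Code K Γ σ
  | pop (k : K) (f : σ → Option (Γ k) → σ) : Code K Γ σ
  | load (f : σ → σ) : Code K Γ σ
  | seq (a b : Code K Γ σ) : Code K Γ σ
  | ite (p : σ → Bool) (a b : Code K Γ σ) : Code K Γ σ
  | sw (ι : Type) (h : Fintype ι) (f : σ → ι) (c : ι → Code K Γ σ) : Code K Γ σ
  | loop (p : σ → Bool) (a : Code K Γ σ) : Code K Γ σ

namespace Code

variable {K : Type} {Γ : K → Type} {σ : Type}

/-- Labels used by the compiled code. -/
def Lab : Code K Γ σ → Type
  | skip => Empty
  | push _ _ => Empty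
  | peek _ _ => Empty
  | pop _ _ => Empty
  | load _ => Empty
  | seq a b => Lab a ⊕ Lab b
  | ite _ a b => Lab a ⊕ Lab b
  | sw ι _ _ c => Σ i : ι, Option (Lab (c i))
  | loop _ a => Option (Lab a)

/-- The label types are finite. -/
noncomputable instance labFintype : (c : Code K Γ σ) → Fintype (Lab c)
  | skip => inferInstanceAs (Fintype Empty)
  | push _ _ => inferInstanceAs (Fintype Empty)
  | peek _ _ => inferInstanceAs (Fintype Empty)
  | pop _ _ => inferInstanceAs (Fintype Empty)
  | load _ => inferInstanceAs (Fintype Empty)
  | seq a b =>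
    letI := labFintype a
    letI := labFintype b
    inferInstanceAs (Fintype (Lab a ⊕ Lab b))
  | ite _ a b =>
    letI := labFintype a
    letI := labFintype b
    inferInstanceAs (Fintype (Lab a ⊕ Lab b))
  | sw ι h _ c =>
    letI := h
    letI := fun i => labFintype (c i)
    inferInstanceAs (Fintype (Σ i : ι, Option (Lab (c i))))
  | loop _ a =>
    letI := labFintype a
    inferInstanceAs (Fintype (Option (Lab a)))

/-- The statement executing `c` and then `next`. -/
def compile : (c : Code K Γ σ) → {Λ : Type} → (Lab c → Λ) → TM2.Stmt Γ Λ σ → TM2.Stmt Γ Λ σ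
  | skip, _, _, next => next
  | push k f, _, _, next => .push k f next
  | peek k f, _, _, next => .peek k f next
  | pop k f, _, _, next => .pop k f next
  | load f, _, _, next => .load f next
  | seq a b, _, emb, next =>
    compile a (fun l => emb (Sum.inl l)) (compile b (fun l => emb (Sum.inr l)) next)
  | ite p a b, _, emb, next =>
    .branch p (compile a (fun l => emb (Sum.inl l)) next)
      (compile b (fun l => emb (Sum.inr l)) next)
  | sw _ _ f _, _, emb, _ => .goto (fun v => emb ⟨f v, none⟩)
  | loop _ _, _, emb, _ => .goto (fun _ => emb none)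

/-- The statements attached to the labels of `c`. -/
def table : (c : Code K Γ σ) → {Λ : Type} → (Lab c → Λ) → TM2.Stmt Γ Λ σ → Lab c →
    TM2.Stmt Γ Λ σ
  | skip, _, _, _, l => nomatch l
  | push _ _, _, _, _, l => nomatch l
  | peek _ _, _, _, _, l => nomatch l
  | pop _ _, _, _, _, l => nomatch l
  | load _, _, _, _, l => nomatch l
  | seq a b, _, emb, next, Sum.inl l =>
    table a (fun l => emb (Sum.inl l)) (compile b (fun l => emb (Sum.inr l)) next) l
  | seq _ b, _, emb, next, Sum.inr l => table b (fun l => emb (Sum.inr l)) next l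
  | ite _ a _, _, emb, next, Sum.inl l => table a (fun l => emb (Sum.inl l)) next l
  | ite _ _ b, _, emb, next, Sum.inr l => table b (fun l => emb (Sum.inr l)) next l
  | sw _ _ _ c, _, emb, next, ⟨i, none⟩ => compile (c i) (fun l => emb ⟨i, some l⟩) next
  | sw _ _ _ c, _, emb, next, ⟨i, some l⟩ => table (c i) (fun l => emb ⟨i, some l⟩) next l
  | loop p a, _, emb, next, none =>
    .branch p (compile a (fun l => emb (some l)) (.goto fun _ => emb none)) next
  | loop _ a, _, emb, _, some l =>
    table a (fun l => emb (some l)) (.goto fun _ => emb none) l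

variable [DecidableEq K]

/-- Big step semantics, counting the steps of the compiled machine. -/
inductive Run : Code K Γ σ → σ → (∀ k, List (Γ k)) → ℕ → σ → (∀ k, List (Γ k)) → Prop
  | skip (v S) : Run skip v S 0 v S
  | push (k f v S) : Run (push k f) v S 0 v (update S k (f v :: S k))
  | peek (k f v S) : Run (peek k f) v S 0 (f v (S k).head?) S
  | pop (k f v S) : Run (pop k f) v S 0 (f v (S k).head?) (update S k (S k).tail)
  | load (f v S) : Run (load f) v S 0 (f v) S
  | seq {a b v S t v' S' t' v'' S''} : Run a v S t v' S' → Run b v' S' t' v'' S'' →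
      Run (seq a b) v S (t + t') v'' S''
  | ite_true {p a b v S t v' S'} : p v = true → Run a v S t v' S' → Run (ite p a b) v S t v' S'
  | ite_false {p a b v S t v' S'} : p v = false → Run b v S t v' S' → Run (ite p a b) v S t v' S'
  | sw {ι h f c v S t v' S'} : Run (c (f v)) v S t v' S' → Run (sw ι h f c) v S (t + 1) v' S'
  | loop_false {p a v S} : p v = false → Run (loop p a) v S 1 v S
  | loop_true {p a v S t v' S' t' v'' S''} : p v = true → Run a v S t v' S' →
      Run (loop p a) v' S' t' v'' S'' → Run (loop p a) v S (1 + t + t') v'' S''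

theorem run_sound {c : Code K Γ σ} {v S t v' S'} (h : Run c v S t v' S') :
    ∀ {Λ : Type} (emb : Lab c → Λ) (next : TM2.Stmt Γ Λ σ) (M : Λ → TM2.Stmt Γ Λ σ),
      (∀ l, M (emb l) = table c emb next l) →
      (flip bind (TM2.step M))^[t] (some (TM2.stepAux (compile c emb next) v S)) =
        some (TM2.stepAux next v' S') := by
  induction h with
  | skip v S => intro Λ emb next M _; rfl
  | push k f v S => intro Λ emb next M _; rfl
  | peek k f v S => intro Λ emb next M _; rfl
  | pop k f v S => intro Λ emb next M _; rfl
  | load f v S => intro Λ emb next M _; rfl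
  | @seq a b v S t v' S' t' v'' S'' h1 h2 ih1 ih2 =>
    intro Λ emb next M hM
    rw [Nat.add_comm, Function.iterate_add_apply]
    have e1 := ih1 (fun l => emb (Sum.inl l)) (compile b (fun l => emb (Sum.inr l)) next) M
      (fun l => hM (Sum.inl l))
    have e2 := ih2 (fun l => emb (Sum.inr l)) next M (fun l => hM (Sum.inr l))
    simp only [compile]
    rw [e1, e2]
  | @ite_true p a b v S t v' S' hp h ih =>
    intro Λ emb next M hM
    have e1 := ih (fun l => emb (Sum.inl l)) next M (fun l => hM (Sum.inl l))
    simp only [compile, TM2.stepAux, hp, cond_true]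
    exact e1
  | @ite_false p a b v S t v' S' hp h ih =>
    intro Λ emb next M hM
    have e1 := ih (fun l => emb (Sum.inr l)) next M (fun l => hM (Sum.inr l))
    simp only [compile, TM2.stepAux, hp, cond_false]
    exact e1
  | @sw ι hι f c v S t v' S' h ih =>
    intro Λ emb next M hM
    have e1 := ih (fun l => emb ⟨f v, some l⟩) next M (fun l => hM ⟨f v, some l⟩)
    rw [Function.iterate_add_apply, Function.iterate_one]
    have e2 : flip bind (TM2.step M) (some (TM2.stepAux (compile (sw ι hι f c) emb next) v S)) =
        some (TM2.stepAux (compile (c (f v)) (fun l => emb ⟨f v, some l⟩) next) v S) := by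
      simp only [compile, TM2.stepAux, flip, Option.bind_eq_bind, Option.bind_some, TM2.step]
      rw [hM ⟨f v, none⟩]
      rfl
    rw [e2, e1]
  | @loop_false p a v S hp =>
    intro Λ emb next M hM
    rw [Function.iterate_one]
    simp only [compile, TM2.stepAux, flip, Option.bind_eq_bind, Option.bind_some, TM2.step]
    rw [hM none]
    simp only [table, TM2.stepAux, hp, cond_false]
  | @loop_true p a v S t v' S' t' v'' S'' hp h1 h2 ih1 ih2 =>
    intro Λ emb next M hM
    have e0 : flip bind (TM2.step M) (some (TM2.stepAux (compile (loop p a) emb next) v S)) =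
        some (TM2.stepAux (compile a (fun l => emb (some l)) (.goto fun _ => emb none)) v S) := by
      simp only [compile, TM2.stepAux, flip, Option.bind_eq_bind, Option.bind_some, TM2.step]
      rw [hM none]
      simp only [table, TM2.stepAux, hp, cond_true]
    have e1 := ih1 (fun l => emb (some l)) (.goto fun _ => emb none) M (fun l => hM (some l))
    have e2 := ih2 emb next M hM
    have : 1 + t + t' = t' + (t + 1) := by omega
    rw [this, Function.iterate_add_apply, Function.iterate_add_apply, Function.iterate_one, e0, e1]
    exact e2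

theorem dite_eq_update {K : Type} [DecidableEq K] {Γ : K → Type} (k₀ : K) (inp : List (Γ k₀))
    (k : K) :
    (@dite (List (Γ k)) (k = k₀) (inferInstance) (fun h => by rw [h]; exact inp) fun _ => []) =
      update (fun _ => []) k₀ inp k := by
  by_cases h : k = k₀
  · subst h
    simp
  · simp [h, update]

/-- The machine of a code. -/
noncomputable def toTM (c : Code K Γ σ) [Fintype K] [Fintype σ] (v0 : σ) (k₀ k₁ : K)
    [Fintype (Γ k₀)] : FinTM2 where
  K := K
  k₀ := k₀
  k₁ := k₁
  Γ := Γ
  Λ := Option (Lab c)
  main := none
  σ := σ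
  initialState := v0
  m := fun l =>
    match l with
    | none => compile c some .halt
    | some l => table c some .halt l

theorem toTM_outputs (c : Code K Γ σ) [Fintype K] [Fintype σ] (v0 : σ) (k₀ k₁ : K)
    [Fintype (Γ k₀)] (inp : List (Γ k₀)) (out : List (Γ k₁)) (t : ℕ)
    (h : Run c v0 (update (fun _ => []) k₀ inp) t v0 (update (fun _ => []) k₁ out)) :
    Nonempty (TM2OutputsInTime (toTM c v0 k₀ k₁) inp (some out) (t + 1)) := by
  refine ⟨⟨⟨t + 1, ?_⟩, le_rfl⟩⟩
  have h0 : initList (toTM c v0 k₀ k₁) inp =
      ⟨some none, v0, update (fun _ => []) k₀ inp⟩ := by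
    unfold initList
    congr 1
    funext k
    exact dite_eq_update k₀ inp k
  have h1 : haltList (toTM c v0 k₀ k₁) out =
      ⟨none, v0, update (fun _ => []) k₁ out⟩ := by
    unfold haltList
    congr 1
    funext k
    exact dite_eq_update k₁ out k
  rw [h0]
  simp only [Option.map]
  rw [h1, Function.iterate_add_apply, Function.iterate_one]
  have e1 := run_sound h some .halt (toTM c v0 k₀ k₁).m (fun l => rfl)
  simp only [TM2.stepAux] at e1
  exact e1

end Code

end Pool.Agent.Lib.PolyTime
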