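import Pool.Agent.Lib.PolyTime.Closure2

/-!
# Closure properties of polynomial time functions, part 4

successor, naming by numbers, bounded iteration, folds, `flatMap`, `map`, `filter`.
-/

namespace Pool.Agent.Lib.PolyTime

open Turing Function N487b59b3 N68a2faeb Prog

variable {α β γ δ : Type} [N487b59b3 α] [N487b59b3 β] [N487b59b3 γ] [N487b59b3 δ]

/-- binary increment of a list of digits (least significant first) -/
def inc : List Bool → List Bool
  | [] => [true]
  | false :: l => true :: l
  | true :: l => false :: inc l

theorem encodePosNum_succ (n : PosNum) :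
    Computability.encodePosNum n.succ = inc (Computability.encodePosNum n) := by
  induction n with
  | one => rfl
  | bit1 n ih =>
    simp only [PosNum.succ, Computability.encodePosNum, inc]
    rw [ih]
  | bit0 n ih => rfl

theorem encodeNat_succ (n : ℕ) :
    Computability.encodeNat (n + 1) = inc (Computability.encodeNat n) := by
  unfold Computability.encodeNat
  have : ((n + 1 : ℕ) : Num) = Num.succ (n : Num) := by
    push_cast
    rw [Num.add_one]
  rw [this]
  cases h : (n : Num) with
  | zero => rfl
  | pos m =>
    simp only [Num.succ, Num.succ', Computability.encodeNum]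
    exact encodePosNum_succ m

theorem inc_length (l : List Bool) : (inc l).length ≤ l.length + 1 := by
  induction l with
  | nil => simp [inc]
  | cons b l ih =>
    cases b
    · simp [inc]
    · simp only [inc, List.length_cons]; omega

/-- successor -/
theorem pt_succ' : IsPolyTime (fun n : ℕ => n + 1) := by
  refine of_prog0 (R := Fin 3) _ (.seq (.push 2 true)
    (.seq (.while 2 (.case 0 (.seq (.push 0 true) (clear 2)) (.seq (.push 0 true) (clear 2))
      (.push 1 false))) (move 1 0))) 0 0
    (fun n => 4 * n + 10) (((PolyBd.const 4).mul PolyBd.id).add (PolyBd.const 10)) ?_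
  have key : ∀ (l : List Bool) (m : ℕ) (s : Fin 3 → List Bool), s 0 = l → s 2 = [true] →
      s 1 = List.replicate m false →
      ∃ t ≤ 2 * l.length + 6, ∃ (l' : List Bool) (m' : ℕ), m' ≤ m + l.length ∧
        List.replicate m' false ++ l' = List.replicate m false ++ inc l ∧
        PRun noSubs (.while 2 (.case 0 (.seq (.push 0 true) (clear 2))
          (.seq (.push 0 true) (clear 2)) (.push 1 false))) s t
          (fun x => if x = 0 then l' else if x = 1 then List.replicate m' false else []) := by
    intro l
    induction l with
    | nil =>
      intro m s h0 h2 h1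
      have e1 := PRun.push (subs := noSubs) 0 true s
      have e2 := clear_run noSubs 2 [true] (update s 0 (true :: s 0)) (by simpa using h2)
      have e3 := PRun.case_none (f := .seq (.push 0 true) (clear 2)) (tt := .push 1 false) h0
        (PRun.seq e1 e2)
      have e4 : PRun noSubs (.while 2 (.case 0 (.seq (.push 0 true) (clear 2))
          (.seq (.push 0 true) (clear 2)) (.push 1 false)))
          (update (update s 0 (true :: s 0)) 2 []) 1 _ := PRun.while_done (by simp)
      refine ⟨_, ?_, [true], m, by simp, rfl,
        (PRun.while_step (by rw [h2]; simp) e3 e4).cast noSubs rfl ?_⟩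
      · simp
      · funext x
        fin_cases x <;> simp [h0, h1]
    | cons b l ih =>
      intro m s h0 h2 h1
      cases b
      · have e1 := PRun.push (subs := noSubs) 0 true (update s 0 l)
        have e2 := clear_run noSubs 2 [true] (update (update s 0 l) 0 (true :: update s 0 l 0))
          (by simpa using h2)
        have e3 := PRun.case_false (e := .seq (.push 0 true) (clear 2)) (tt := .push 1 false) h0
          (PRun.seq e1 e2)
        have e4 : PRun noSubs (.while 2 (.case 0 (.seq (.push 0 true) (clear 2))
          (.seq (.push 0 true) (clear 2)) (.push 1 false)))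
          (update (update (update s 0 l) 0 (true :: update s 0 l 0)) 2 []) 1 _ :=
          PRun.while_done (by simp)
        refine ⟨_, ?_, true :: l, m, by simp, rfl,
          (PRun.while_step (by rw [h2]; simp) e3 e4).cast noSubs rfl ?_⟩
        · simp
        · funext x
          fin_cases x <;> simp [h1]
      · have e1 := PRun.push (subs := noSubs) 1 false (update s 0 l)
        have e3 := PRun.case_true (e := .seq (.push 0 true) (clear 2))
          (f := .seq (.push 0 true) (clear 2)) h0 e1
        obtain ⟨t, ht, l', m', hm', heq, hr⟩ := ih (m + 1)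
          (update (update s 0 l) 1 (false :: update s 0 l 1)) (by simp) (by simpa using h2)
          (by simp [h1, List.replicate_succ])
        refine ⟨_, ?_, l', m', ?_, ?_,
          (PRun.while_step (by rw [h2]; simp) e3 hr)⟩
        · simp only [List.length_cons]; omega
        · simp only [List.length_cons]; omega
        · rw [heq]
          simp only [inc]
          rw [List.replicate_succ']
          simp
  intro n
  set l := bitEncode n with hl
  have e1 := PRun.push (subs := noSubs) 2 true (update (fun _ => []) (0 : Fin 3) l)
  obtain ⟨t, ht, l', m', hm', heq, hr⟩ := key l 0 (update (update (fun _ => []) (0 : Fin 3) l) 2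
    (true :: update (fun _ => []) (0 : Fin 3) l 2)) (by simp) (by simp) (by simp)
  set s2 : Fin 3 → List Bool :=
    (fun x => if x = 0 then l' else if x = 1 then List.replicate m' false else []) with hs2
  have e3 := move_run noSubs (r := (1 : Fin 3)) (r' := 0) (by decide) (List.replicate m' false)
    s2 (by simp [hs2])
  refine ⟨_, ?_, (PRun.seq e1 (PRun.seq hr e3)).cast noSubs rfl ?_⟩
  · have : l.length = sz n := rfl
    simp only [List.length_replicate]
    omega
  · funext x
    fin_cases x
    · simp only [List.replicate_zero, List.nil_append] at heq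
      have : bitEncode (n + 1) = inc l := encodeNat_succ n
      simp [hs2, this, heq]
    · simp
    · simp [hs2]

theorem pt_succ {f : α → ℕ} (hf : IsPolyTime f) : IsPolyTime (fun a => f a + 1) :=
  pt_comp pt_succ' hf

theorem decodePosNum_append_true (l : List Bool) :
    Computability.encodePosNum (Computability.decodePosNum (l ++ [true])) = l ++ [true] := by
  induction l with
  | nil => rfl
  | cons b l ih =>
    cases b
    · simp only [List.cons_append, Computability.decodePosNum, Computability.encodePosNum]
      rw [ih]
    · simp only [List.cons_append, Computability.decodePosNum]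
      rw [if_neg (by simp)]
      simp only [Computability.encodePosNum]
      rw [ih]

/-- the number whose binary digits are `l` followed by a leading one -/
def natOfBits (l : List Bool) : ℕ := Computability.decodeNat (l ++ [true])

theorem encodeNat_natOfBits (l : List Bool) :
    Computability.encodeNat (natOfBits l) = l ++ [true] := by
  unfold natOfBits Computability.decodeNat Computability.encodeNat Computability.decodeNum
  rw [if_neg (by simp)]
  have : (((Computability.decodePosNum (l ++ [true]) : Num) : ℕ) : Num) =
      (Computability.decodePosNum (l ++ [true]) : Num) := by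
    exact Num.of_to_nat _
  rw [this, PosNum.cast_to_num]
  exact decodePosNum_append_true l

theorem natOfBits_injective : Injective natOfBits := by
  intro a b h
  have := congrArg Computability.encodeNat h
  rw [encodeNat_natOfBits, encodeNat_natOfBits] at this
  simpa using this

/-- a number naming the element `a` -/
def name {α : Type} [N487b59b3 α] (a : α) : ℕ := natOfBits (bitEncode a)

theorem name_injective : Injective (name (α := α)) := by
  intro a b h
  exact bitEncode_injective (natOfBits_injective h)

theorem pt_name' : IsPolyTime (fun a : α => name a) := by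
  refine of_prog0 (R := Fin 2) _ (.seq (move 0 1) (.seq (.push 0 true) (move 1 0))) 0 0
    (fun n => 4 * n + 2) (((PolyBd.const 4).mul PolyBd.id).add (PolyBd.const 2)) ?_
  intro a
  have e1 := move_run noSubs (r := (0 : Fin 2)) (r' := 1) (by decide) (bitEncode a)
    (update (fun _ => []) 0 (bitEncode a)) (by simp)
  set s1 := update (update (update (fun _ => []) (0 : Fin 2) (bitEncode a)) 0 []) 1
    ((bitEncode a).reverse ++ update (fun _ => []) (0 : Fin 2) (bitEncode a) 1) with hs1
  have e2 := PRun.push (subs := noSubs) 0 true s1
  have e3 := move_run noSubs (r := (1 : Fin 2)) (r' := 0) (by decide) (bitEncode a).reverse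
    (update s1 0 (true :: s1 0)) (by simp [hs1])
  refine ⟨_, ?_, (PRun.seq e1 (PRun.seq e2 e3)).cast noSubs rfl ?_⟩
  · simp only [List.length_reverse]
    change 2 * sz a + 1 + (0 + (2 * sz a + 1)) ≤ _
    omega
  · funext x
    fin_cases x
    · simp [hs1, enc_nat, name, encodeNat_natOfBits]
    · simp

theorem pt_name {f : α → β} (hf : IsPolyTime f) : IsPolyTime (fun a => name (f a)) :=
  pt_comp pt_name' hf

/-- Bounded iteration: `f` is iterated as often as the encoding of `c a` has bits. -/
theorem pt_iter {f : γ → γ} {c : α → δ} {i : α → γ} (hf : IsPolyTime f) (hc : IsPolyTime c)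
    (hi : IsPolyTime i) (q : Polynomial ℕ)
    (hq : ∀ a, ∀ k ≤ sz (c a), sz (f^[k] (i a)) ≤ q.eval (sz a)) :
    IsPolyTime (fun a => f^[sz (c a)] (i a)) := by
  obtain ⟨sf, pf, qf, hf⟩ := exists_sub hf
  obtain ⟨sc, pc, qc, hc⟩ := exists_sub hc
  obtain ⟨si, pi, qi, hi⟩ := exists_sub hi
  set subs : Fin 3 → Sub := fun c => if c = 0 then sf else if c = 1 then sc else si with hsubs
  refine of_prog (R := Fin 3) (C := Fin 3) subs _
    (.seq (copy 0 1 2) (.seq (.call 1 1) (.seq (.call 2 0)
      (.while 1 (.case 1 .skip (.call 0 0) (.call 0 0))))))
    0 0 (fun n => (4 * n + 2) + ((2 * pc.eval n + 2 * n + 2 * qc.eval n + 5) +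
      ((2 * pi.eval n + 2 * n + 2 * qi.eval n + 5) +
        ((2 * pf.eval (q.eval n) + 2 * q.eval n + 2 * q.eval n + 7) * qc.eval n + 1)))) ?_ ?_
  · have hpf := PolyBd.eval pf (PolyBd.poly q)
    have hq' := PolyBd.poly q
    have hpc := PolyBd.poly pc
    have hqc := PolyBd.poly qc
    have hpi := PolyBd.poly pi
    have hqi := PolyBd.poly qi
    have h1 := PolyBd.const 1
    have h2 := PolyBd.const 2
    have h4 := PolyBd.const 4
    have h5 := PolyBd.const 5
    have h7 := PolyBd.const 7
    exact ((h4.mul PolyBd.id).add h2).add
      (((((h2.mul hpc).add (h2.mul PolyBd.id)).add (h2.mul hqc)).add h5).add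
        (((((h2.mul hpi).add (h2.mul PolyBd.id)).add (h2.mul hqi)).add h5).add
          ((((((h2.mul hpf).add (h2.mul hq')).add (h2.mul hq')).add h7).mul hqc).add h1)))
  · intro a
    set A := bitEncode a with hA
    have e1 := copy_run subs (r := (0 : Fin 3)) (r' := 1) (u := 2) (by decide) (by decide)
      (by decide) (update (fun _ => []) 0 A) (by simp)
    set s1 : Fin 3 → List Bool := update (update (fun _ => []) 0 A) 1
      (update (fun _ => []) 0 A 0 ++ update (fun _ => []) 0 A 1) with hs1
    have e2 := PRun.call (subs := subs) (c := 1) (r := 1)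
      (s := s1) (out := bitEncode (c a))
      (t := pc.eval (sz a)) (by simpa [hs1, hsubs] using (hc a).1)
    set s2 := update s1 1 (bitEncode (c a)) with hs2
    have e3 := PRun.call (subs := subs) (c := 2) (r := 0)
      (s := s2) (out := bitEncode (i a))
      (t := pi.eval (sz a)) (by simpa [hs2, hs1, hsubs] using (hi a).1)
    set s3 := update s2 0 (bitEncode (i a)) with hs3
    -- the loop
    have key : ∀ (L : List Bool) (k : ℕ), k + L.length = sz (c a) → ∀ s : Fin 3 → List Bool,
        s 0 = bitEncode (f^[k] (i a)) → s 1 = L → s 2 = [] →
        ∃ t ≤ (2 * pf.eval (q.eval (sz a)) + 2 * q.eval (sz a) + 2 * q.eval (sz a) + 7) *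
            L.length + 1,
          PRun subs (.while 1 (.case 1 .skip (.call 0 0) (.call 0 0))) s t
            (update (fun _ => []) 0 (bitEncode (f^[k + L.length] (i a)))) := by
      intro L
      induction L with
      | nil =>
        intro k hk s h0 h1 h2
        refine ⟨1, by simp, (PRun.while_done h1).cast subs rfl ?_⟩
        funext x
        fin_cases x
        · simpa using h0
        · simpa using h1
        · simpa using h2
      | cons b L ih =>
        intro k hk s h0 h1 h2
        have hk1 : sz (f^[k] (i a)) ≤ q.eval (sz a) := hq a k (by simp at hk; omega)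
        have hk2 : sz (f^[k + 1] (i a)) ≤ q.eval (sz a) := hq a (k + 1) (by simp at hk; omega)
        have hcall := PRun.call (subs := subs) (c := 0) (r := 0)
          (s := update s 1 L) (out := bitEncode (f^[k + 1] (i a)))
          (t := pf.eval (q.eval (sz a))) (by
            have := (hf (f^[k] (i a))).1
            rw [Function.iterate_succ_apply']
            refine Sub.spec_mono ?_ (eval_mono pf hk1)
            simpa [hsubs, h0] using this)
        have hbody : ∃ t ≤ 2 * pf.eval (q.eval (sz a)) + 2 * q.eval (sz a) +
            2 * q.eval (sz a) + 6, PRun subs (.case 1 .skip (.call 0 0) (.call 0 0)) s t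
            (update (update s 1 L) 0 (bitEncode (f^[k + 1] (i a)))) := by
          have hl : (update s 1 L 0).length = sz (f^[k] (i a)) := by
            simp [h0]
          rw [hl] at hcall
          cases b
          · refine ⟨_, ?_, PRun.case_false h1 hcall⟩
            change _ + 2 * sz (f^[k + 1] (i a)) + 5 + 1 ≤ _
            omega
          · refine ⟨_, ?_, PRun.case_true h1 hcall⟩
            change _ + 2 * sz (f^[k + 1] (i a)) + 5 + 1 ≤ _
            omega
        obtain ⟨t1, ht1, hr1⟩ := hbody
        obtain ⟨t2, ht2, hr2⟩ := ih (k + 1) (by simp at hk; omega)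
          (update (update s 1 L) 0 (bitEncode (f^[k + 1] (i a)))) (by simp) (by simp)
          (by simpa using h2)
        refine ⟨1 + t1 + t2, ?_, (PRun.while_step (by rw [h1]; simp) hr1 hr2).cast subs rfl ?_⟩
        · simp only [List.length_cons]
          rw [Nat.mul_succ]
          omega
        · have : k + 1 + L.length = k + (b :: L).length := by simp; omega
          rw [this]
    obtain ⟨t4, ht4, hr4⟩ := key (bitEncode (c a)) 0 (by simp) s3 (by simp [hs3])
      (by simp [hs3, hs2]) (by simp [hs3, hs2, hs1])
    refine ⟨_, ?_, (PRun.seq e1 (PRun.seq e2 (PRun.seq e3 hr4))).cast subs rfl ?_⟩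
    · have l1 := (hc a).2
      have l2 := (hi a).2
      have l3 : (update (fun _ => []) 0 A (0 : Fin 3)).length = sz a := by simp [hA]
      have l4 : (s1 1).length = sz a := by simp [hs1, hA]
      have l5 : (s2 0).length = sz a := by simp [hs2, hs1, hA]
      rw [l3, l4, l5]
      change _ + (_ + 2 * sz (c a) + 5 + (_ + 2 * sz (i a) + 5 + t4)) ≤ _
      have l6 : t4 ≤ (2 * pf.eval (q.eval (sz a)) + 2 * q.eval (sz a) + 2 * q.eval (sz a) + 7) *
          qc.eval (sz a) + 1 := by
        refine ht4.trans (Nat.add_le_add_right (Nat.mul_le_mul_left _ ?_) 1)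
        exact l1
      omega
    · simp

end Pool.Agent.Lib.PolyTime
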