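import Pool.Agent.Lib.PolyTime.Iter

/-!
# Closure properties of polynomial time functions, part 5: lists
-/

namespace Pool.Agent.Lib.PolyTime

open Turing Function N487b59b3 N68a2faeb

variable {α β γ δ : Type} [N487b59b3 α] [N487b59b3 β] [N487b59b3 γ] [N487b59b3 δ]

theorem sz_drop_le (l : List α) (k : ℕ) : sz (l.drop k) ≤ sz l := by
  induction l generalizing k with
  | nil => simp
  | cons a l ih =>
    cases k with
    | zero => simp
    | succ k => rw [List.drop_succ_cons, sz_cons]; have := ih k; omega

theorem sz_take_le (l : List α) (k : ℕ) : sz (l.take k) ≤ sz l := by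
  induction l generalizing k with
  | nil => simp
  | cons a l ih =>
    cases k with
    | zero => simp [sz_nil]
    | succ k => rw [List.take_succ_cons, sz_cons, sz_cons]; have := ih k; omega

theorem length_le_sz (l : List α) : l.length ≤ sz l := by
  induction l with
  | nil => simp
  | cons a l ih => rw [sz_cons, List.length_cons]; omega

theorem sz_le_of_mem {l : List α} {a : α} (h : a ∈ l) : sz a ≤ sz l := by
  induction l with
  | nil => simp at h
  | cons b l ih =>
    rw [sz_cons]
    rcases List.mem_cons.mp h with rfl | h
    · omega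
    · have := ih h; omega

theorem sz_le_mul {l : List α} {M : ℕ} (h : ∀ a ∈ l, sz a ≤ M) :
    sz l ≤ l.length * (2 * M + 1) := by
  induction l with
  | nil => simp [sz_nil]
  | cons b l ih =>
    rw [sz_cons, List.length_cons]
    have h1 := ih (fun a ha => h a (List.mem_cons_of_mem _ ha))
    have h2 := h b List.mem_cons_self
    calc _ ≤ 2 * M + 1 + l.length * (2 * M + 1) := by omega
      _ = _ := by ring

omit [N487b59b3 α] in
theorem sz_flatMap_le {l : List α} {f : α → List β} {M : ℕ} (h : ∀ a ∈ l, sz (f a) ≤ M) :
    sz (l.flatMap f) ≤ l.length * M := by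
  induction l with
  | nil => simp [sz_nil]
  | cons b l ih =>
    rw [List.flatMap_cons, sz_append, List.length_cons]
    have h1 := ih (fun a ha => h a (List.mem_cons_of_mem _ ha))
    have h2 := h b List.mem_cons_self
    calc _ ≤ M + l.length * M := by omega
      _ = _ := by ring

/-- the state transformer for folds -/
def foldStep (g : δ → γ → β → γ) (d : β) (st : List β × (δ × γ)) : List β × (δ × γ) :=
  cond (st.1.isEmpty) st (st.1.tail, (st.2.1, g st.2.1 st.2.2 (st.1.headD d)))

omit [N487b59b3 β] [N487b59b3 γ] [N487b59b3 δ] in
theorem foldStep_iter (g : δ → γ → β → γ) (d : β) (x : δ) :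
    ∀ (k : ℕ) (l : List β) (s : γ), (foldStep g d)^[k] (l, (x, s)) =
      (l.drop k, (x, (l.take k).foldl (g x) s)) := by
  intro k
  induction k with
  | zero => intro l s; simp
  | succ k ih =>
    intro l s
    rw [Function.iterate_succ_apply]
    cases l with
    | nil =>
      have : foldStep g d ([], (x, s)) = ([], (x, s)) := rfl
      rw [this, ih]; simp
    | cons b l =>
      have : foldStep g d (b :: l, (x, s)) = (l, (x, g x s b)) := rfl
      rw [this, ih]; simp

/-- Folds with a polynomial bound on the size of the accumulator. -/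
theorem pt_foldl {g : α → γ → β → γ} {l : α → List β} {s : α → γ}
    (hg : IsPolyTime (fun p : α × (γ × β) => g p.1 p.2.1 p.2.2)) (hl : IsPolyTime l)
    (hs : IsPolyTime s) (q : Polynomial ℕ)
    (hq : ∀ a k, sz (((l a).take k).foldl (g a) (s a)) ≤ q.eval (sz a)) :
    IsPolyTime (fun a => (l a).foldl (g a) (s a)) := by
  by_cases hne : Nonempty β
  · obtain ⟨d⟩ := hne
    have hstep : IsPolyTime (foldStep (δ := α) g d) := by
      have h1 : IsPolyTime (fun st : List β × (α × γ) => st.1) := pt_fst'
      have h2 : IsPolyTime (fun st : List β × (α × γ) => st.2.1) := pt_fst pt_snd'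
      have h3 : IsPolyTime (fun st : List β × (α × γ) => st.2.2) := pt_snd pt_snd'
      have h4 : IsPolyTime (fun st : List β × (α × γ) => g st.2.1 st.2.2 (st.1.headD d)) :=
        pt_comp (g := fun p : α × (γ × β) => g p.1 p.2.1 p.2.2)
          (f := fun st : List β × (α × γ) => (st.2.1, (st.2.2, st.1.headD d))) hg
          (pt_pair h2 (pt_pair h3 (pt_headD d h1)))
      exact pt_cond (pt_isEmpty h1) pt_id (pt_pair (pt_tail h1) (pt_pair h2 h4))
    obtain ⟨ql, hql⟩ := exists_size hl
    have hiter := pt_iter (γ := List β × (α × γ)) (f := foldStep (δ := α) g d) (c := l)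
      (i := fun a => (l a, (a, s a))) hstep hl (pt_pair hl (pt_pair pt_id hs))
      (2 * ql + 1 + (2 * Polynomial.X + 1 + q)) (by
        intro a k _
        rw [foldStep_iter, sz_pair, sz_pair]
        have h1 := sz_drop_le (l a) k
        have h2 := hq a k
        have h3 := hql a
        simp only [Polynomial.eval_add, Polynomial.eval_mul, Polynomial.eval_ofNat,
          Polynomial.eval_X, Polynomial.eval_one]
        omega)
    refine pt_congr (pt_snd (pt_snd hiter)) ?_
    intro a
    rw [foldStep_iter]
    simp only
    rw [List.take_of_length_le (length_le_sz (l a))]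
  · refine pt_congr hs ?_
    intro a
    cases h : l a with
    | nil => rfl
    | cons b _ => exact absurd ⟨b⟩ hne

/-- `flatMap` with context -/
theorem pt_flatMap {l : α → List β} {f : α → β → List γ} (hl : IsPolyTime l)
    (hf : IsPolyTime (fun p : α × β => f p.1 p.2)) :
    IsPolyTime (fun a => (l a).flatMap (f a)) := by
  obtain ⟨ql, hql⟩ := exists_size hl
  obtain ⟨qf, hqf⟩ := exists_size hf
  have hg : IsPolyTime (fun p : α × (List γ × β) => p.2.1 ++ f p.1 p.2.2) :=
    pt_append (pt_fst pt_snd') (pt_comp (g := fun p : α × β => f p.1 p.2)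
      (f := fun p : α × (List γ × β) => (p.1, p.2.2)) hf (pt_pair pt_fst' (pt_snd pt_snd')))
  have hfold : ∀ (a : α) (L : List β) (s : List γ),
      L.foldl (fun s b => s ++ f a b) s = s ++ L.flatMap (f a) := by
    intro a L
    induction L with
    | nil => intro s; simp
    | cons b L ih => intro s; rw [List.foldl_cons, ih]; simp
  have h := pt_foldl (g := fun a s b => s ++ f a b) (s := fun _ => ([] : List γ)) hg hl
    (pt_const []) (ql * qf.comp (2 * Polynomial.X + 1 + ql)) (by
      intro a k
      rw [hfold, List.nil_append]
      have h1 : ∀ b ∈ (l a).take k, sz (f a b) ≤ qf.eval (2 * sz a + 1 + ql.eval (sz a)) := by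
        intro b hb
        refine (hqf (a, b)).trans (eval_mono qf ?_)
        rw [sz_pair]
        have h2 := sz_le_of_mem hb
        have h3 := sz_take_le (l a) k
        have h4 := hql a
        omega
      refine (sz_flatMap_le h1).trans ?_
      simp only [Polynomial.eval_add, Polynomial.eval_mul, Polynomial.eval_ofNat,
          Polynomial.eval_X, Polynomial.eval_one, Polynomial.eval_comp]
      refine Nat.mul_le_mul_right _ ?_
      have h5 := length_le_sz ((l a).take k)
      have h3 := sz_take_le (l a) k
      exact h5.trans (h3.trans (hql a)))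
  exact pt_congr h (fun a => by rw [hfold, List.nil_append])

/-- `map` with context -/
theorem pt_map {l : α → List β} {f : α → β → γ} (hl : IsPolyTime l)
    (hf : IsPolyTime (fun p : α × β => f p.1 p.2)) :
    IsPolyTime (fun a => (l a).map (f a)) := by
  refine pt_congr (pt_flatMap (f := fun a b => [f a b]) hl (pt_cons hf (pt_const []))) ?_
  intro a
  induction l a with
  | nil => rfl
  | cons b L ih => rw [List.flatMap_cons, ih]; rfl

/-- `filter` with context -/
theorem pt_filter {l : α → List β} {p : α → β → Bool} (hl : IsPolyTime l)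
    (hp : IsPolyTime (fun x : α × β => p x.1 x.2)) :
    IsPolyTime (fun a => (l a).filter (p a)) := by
  refine pt_congr (pt_flatMap (f := fun a b => cond (p a b) [b] []) hl
    (pt_cond hp (pt_cons pt_snd' (pt_const [])) (pt_const []))) ?_
  intro a
  induction l a with
  | nil => rfl
  | cons b L ih =>
    rw [List.flatMap_cons, ih]
    cases h : p a b <;> simp [h]

theorem pt_any {l : α → List β} {p : α → β → Bool} (hl : IsPolyTime l)
    (hp : IsPolyTime (fun x : α × β => p x.1 x.2)) :
    IsPolyTime (fun a => (l a).any (p a)) := by
  refine pt_congr (pt_not (pt_isEmpty (pt_filter hl hp))) ?_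
  intro a
  induction l a with
  | nil => rfl
  | cons b L ih =>
    rw [List.filter_cons, List.any_cons, ← ih]
    cases h : p a b <;> simp

theorem pt_all {l : α → List β} {p : α → β → Bool} (hl : IsPolyTime l)
    (hp : IsPolyTime (fun x : α × β => p x.1 x.2)) :
    IsPolyTime (fun a => (l a).all (p a)) := by
  refine pt_congr (pt_not (pt_any (p := fun a b => !(p a b)) hl (pt_not hp))) ?_
  intro a
  induction l a with
  | nil => rfl
  | cons b L ih =>
    rw [List.any_cons, List.all_cons, ← ih]
    cases h : p a b <;> simp

theorem pt_mem [DecidableEq β] {f : α → β} {l : α → List β} (hf : IsPolyTime f)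
    (hl : IsPolyTime l) : IsPolyTime (fun a => decide (f a ∈ l a)) := by
  refine pt_congr (pt_any (p := fun a b => decide (f a = b)) hl
    (pt_eq (pt_comp hf pt_fst') pt_snd')) ?_
  intro a
  rw [Bool.eq_iff_iff]
  simp

/-- reversal -/
theorem pt_reverse {l : α → List β} (hl : IsPolyTime l) : IsPolyTime (fun a => (l a).reverse) := by
  obtain ⟨ql, hql⟩ := exists_size hl
  have hfold : ∀ (L : List β) (s : List β), L.foldl (fun s b => b :: s) s = L.reverse ++ s := by
    intro L
    induction L with
    | nil => intro s; rfl
    | cons b L ih => intro s; rw [List.foldl_cons, ih]; simp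
  have hrev : ∀ (L : List β), sz L.reverse = sz L := by
    intro L
    induction L with
    | nil => rfl
    | cons b L ih =>
      rw [List.reverse_cons, sz_append, ih, sz_cons, sz_cons, sz_nil]; omega
  have h := pt_foldl (g := fun (_ : α) s b => b :: s) (s := fun _ => ([] : List β))
    (pt_cons (pt_snd pt_snd') (pt_fst pt_snd')) hl (pt_const []) ql (by
      intro a k
      rw [hfold, List.append_nil, hrev]
      exact (sz_take_le _ _).trans (hql a))
  exact pt_congr h (fun a => by rw [hfold, List.append_nil])

theorem sz_nat_le (n : ℕ) : sz n ≤ n := by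
  induction n with
  | zero => exact le_rfl
  | succ n ih =>
    have : sz (n + 1) = (inc (bitEncode n)).length := congrArg List.length (encodeNat_succ n)
    rw [this]
    exact (inc_length _).trans (Nat.succ_le_succ ih)

/-- length as a natural number in binary -/
theorem pt_length {l : α → List β} (hl : IsPolyTime l) : IsPolyTime (fun a => (l a).length) := by
  obtain ⟨ql, hql⟩ := exists_size hl
  have hfold : ∀ (L : List β) (s : ℕ), L.foldl (fun s _ => s + 1) s = s + L.length := by
    intro L
    induction L with
    | nil => intro s; rfl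
    | cons b L ih => intro s; rw [List.foldl_cons, ih]; simp; omega
  have h := pt_foldl (g := fun (_ : α) (s : ℕ) (_ : β) => s + 1) (s := fun _ => (0 : ℕ))
    (pt_succ (pt_fst pt_snd')) hl (pt_const 0) ql (by
      intro a k
      rw [hfold, zero_add]
      have h1 := sz_nat_le ((l a).take k).length
      have h2 := length_le_sz ((l a).take k)
      exact (h1.trans (h2.trans (sz_take_le _ _))).trans (hql a))
  exact pt_congr h (fun a => by rw [hfold, zero_add])

end Pool.Agent.Lib.PolyTime
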