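import Pool.Agent.Lib.PolyTime.Code

/-!
# Register programs with calls (layer 1)

`Prog R C` is a language over registers (stacks of Booleans) indexed by `R`, with calls to
given Turing machines `subs : C → Sub`. `PRun` is its big-step semantics with running time and
`Prog.computes` says that a program with polynomial running time gives a
`TM2ComputableInPolyTime`.
-/

namespace Pool.Agent.Lib.PolyTime

open Turing Function

/-- A Turing machine with Boolean input and output alphabets. -/
structure Sub where
  tm : FinTM2
  inA : tm.Γ tm.k₀ ≃ Bool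
  outA : tm.Γ tm.k₁ ≃ Bool

/-- the machine `s` outputs `out` on input `inp` in time `t` -/
def Sub.spec (s : Sub) (inp out : List Bool) (t : ℕ) : Prop :=
  Nonempty (TM2OutputsInTime s.tm (inp.map s.inA.invFun) (some (out.map s.outA.invFun)) t)

/-- Register programs. -/
inductive Prog (R C : Type) : Type
  | skip : Prog R C
  | push (r : R) (b : Bool) : Prog R C
  | case (r : R) (e f t : Prog R C) : Prog R C
  | seq (a b : Prog R C) : Prog R C
  | while (r : R) (a : Prog R C) : Prog R C
  | call (c : C) (r : R) : Prog R C

section

variable {R C : Type} [DecidableEq R] (subs : C → Sub)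

/-- Big-step semantics of register programs. -/
inductive PRun : Prog R C → (R → List Bool) → ℕ → (R → List Bool) → Prop
  | skip (s) : PRun .skip s 0 s
  | push (r b s) : PRun (.push r b) s 0 (update s r (b :: s r))
  | case_none {r e f tt s t s'} : s r = [] → PRun e s t s' → PRun (.case r e f tt) s (t + 1) s'
  | case_false {r e f tt s l t s'} : s r = false :: l → PRun f (update s r l) t s' →
      PRun (.case r e f tt) s (t + 1) s'
  | case_true {r e f tt s l t s'} : s r = true :: l → PRun tt (update s r l) t s' →
      PRun (.case r e f tt) s (t + 1) s'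
  | seq {a b s t s' t' s''} : PRun a s t s' → PRun b s' t' s'' → PRun (.seq a b) s (t + t') s''
  | while_done {r a s} : s r = [] → PRun (.while r a) s 1 s
  | while_step {r a s t s' t' s''} : s r ≠ [] → PRun a s t s' → PRun (.while r a) s' t' s'' →
      PRun (.while r a) s (1 + t + t') s''
  | call {c r s out t} : (subs c).spec (s r) out t →
      PRun (.call c r) s (2 * t + 2 * (s r).length + 2 * out.length + 5) (update s r out)

end

section host

variable (R : Type) {C : Type} [DecidableEq R] [DecidableEq C] (subs : C → Sub)

/-- stack index type of the host machine -/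
abbrev HK := Option R ⊕ (Σ c, (subs c).tm.K)

/-- alphabets of the host machine -/
@[reducible] def HΓ : HK R subs → Type
  | .inl _ => Bool
  | .inr ⟨c, k⟩ => (subs c).tm.Γ k

/-- finite state of the host machine -/
abbrev Hσ := Option Bool × (∀ c, Option (subs c).tm.Λ × (subs c).tm.σ)

variable {R}

/-- Host code simulating a statement of a subroutine machine. -/
def lift (c : C) : TM2.Stmt (subs c).tm.Γ (subs c).tm.Λ (subs c).tm.σ →
    Code (HK R subs) (HΓ R subs) (Hσ subs)
  | .push k f q => .seq (.push (.inr ⟨c, k⟩) (fun v => f (v.2 c).2)) (lift c q)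
  | .peek k f q =>
    .seq (.peek (.inr ⟨c, k⟩) (fun v o => (v.1, update v.2 c ((v.2 c).1, f (v.2 c).2 o))))
      (lift c q)
  | .pop k f q =>
    .seq (.pop (.inr ⟨c, k⟩) (fun v o => (v.1, update v.2 c ((v.2 c).1, f (v.2 c).2 o))))
      (lift c q)
  | .load f q =>
    .seq (.load (fun v => (v.1, update v.2 c ((v.2 c).1, f (v.2 c).2)))) (lift c q)
  | .branch p q₁ q₂ => .ite (fun v => p (v.2 c).2) (lift c q₁) (lift c q₂)
  | .goto f => .load (fun v => (v.1, update v.2 c (some (f (v.2 c).2), (v.2 c).2)))
  | .halt => .load (fun v => (v.1, update v.2 c (none, (v.2 c).2)))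

/-- Host stacks whose part belonging to `c` is `Sc`. -/
def setS (c : C) (S : ∀ k, List (HΓ R subs k)) (Sc : ∀ k, List ((subs c).tm.Γ k)) :
    ∀ k, List (HΓ R subs k)
  | .inl r => S (.inl r)
  | .inr ⟨c', k⟩ => (update (fun c' k => S (.inr ⟨c', k⟩)) c Sc :
      ∀ c', ∀ k, List ((subs c').tm.Γ k)) c' k

theorem setS_self (c : C) (S : ∀ k, List (HΓ R subs k)) (Sc) (k) :
    setS subs c S Sc (.inr ⟨c, k⟩) = Sc k := by
  simp [setS]

theorem update_setS (c : C) (S : ∀ k, List (HΓ R subs k)) (Sc) (k)
    (x : List ((subs c).tm.Γ k)) :
    update (setS subs c S Sc) (.inr ⟨c, k⟩) x = setS subs c S (update Sc k x) := by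
  funext k'
  rcases k' with r | ⟨c', k'⟩
  · simp [setS]
  · by_cases hc : c' = c
    · subst hc
      by_cases hk : k' = k
      · subst hk
        simp [setS]
      · have : (Sum.inr ⟨c', k'⟩ : HK R subs) ≠ Sum.inr ⟨c', k⟩ := by
          intro h
          apply hk
          simpa using h
        rw [update_of_ne this]
        simp [setS, hk]
    · have : (Sum.inr ⟨c', k'⟩ : HK R subs) ≠ Sum.inr ⟨c, k⟩ := by
        intro h
        apply hc
        simp only [Sum.inr.injEq, Sigma.mk.injEq] at h
        exact h.1
      rw [update_of_ne this]
      simp [setS, hc]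

theorem lift_run (c : C) (v : Hσ subs) (S : ∀ k, List (HΓ R subs k)) :
    ∀ (q : TM2.Stmt (subs c).tm.Γ (subs c).tm.Λ (subs c).tm.σ) (l0 : Option (subs c).tm.Λ)
      (x : (subs c).tm.σ) (Sc : ∀ k, List ((subs c).tm.Γ k)),
      Code.Run (lift subs c q) (v.1, update v.2 c (l0, x)) (setS subs c S Sc) 0
        (v.1, update v.2 c ((TM2.stepAux q x Sc).l, (TM2.stepAux q x Sc).var))
        (setS subs c S (TM2.stepAux q x Sc).stk) := by
  intro q
  induction q with
  | push k f q ih =>
    intro l0 x Sc
    have h1 := Code.Run.push (σ := Hσ subs) (.inr ⟨c, k⟩ : HK R subs)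
      (fun v => f (v.2 c).2) (v.1, update v.2 c (l0, x)) (setS subs c S Sc)
    rw [setS_self, update_setS] at h1
    simp only [update_self] at h1
    have h2 := ih l0 x (update Sc k (f x :: Sc k))
    exact Code.Run.seq h1 h2
  | peek k f q ih =>
    intro l0 x Sc
    have h1 := Code.Run.peek (.inr ⟨c, k⟩ : HK R subs)
      (fun v o => (v.1, update v.2 c ((v.2 c).1, f (v.2 c).2 o)))
      (v.1, update v.2 c (l0, x)) (setS subs c S Sc)
    rw [setS_self] at h1
    simp only [update_self, update_idem] at h1
    have h2 := ih l0 (f x (Sc k).head?) Sc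
    exact Code.Run.seq h1 h2
  | pop k f q ih =>
    intro l0 x Sc
    have h1 := Code.Run.pop (.inr ⟨c, k⟩ : HK R subs)
      (fun v o => (v.1, update v.2 c ((v.2 c).1, f (v.2 c).2 o)))
      (v.1, update v.2 c (l0, x)) (setS subs c S Sc)
    rw [setS_self, update_setS] at h1
    simp only [update_self, update_idem] at h1
    have h2 := ih l0 (f x (Sc k).head?) (update Sc k (Sc k).tail)
    exact Code.Run.seq h1 h2
  | load f q ih =>
    intro l0 x Sc
    have h1 := Code.Run.load
      (fun v : Hσ subs => (v.1, update v.2 c ((v.2 c).1, f (v.2 c).2)))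
      (v.1, update v.2 c (l0, x)) (setS subs c S Sc)
    simp only [update_self, update_idem] at h1
    have h2 := ih l0 (f x) Sc
    exact Code.Run.seq h1 h2
  | branch p q₁ q₂ ih1 ih2 =>
    intro l0 x Sc
    simp only [lift]
    cases hp : p x with
    | true =>
      apply Code.Run.ite_true
      · simp [hp]
      · simpa [TM2.stepAux, hp] using ih1 l0 x Sc
    | false =>
      apply Code.Run.ite_false
      · simp [hp]
      · simpa [TM2.stepAux, hp] using ih2 l0 x Sc
  | goto f =>
    intro l0 x Sc
    have h1 := Code.Run.load
      (fun v : Hσ subs => (v.1, update v.2 c (some (f (v.2 c).2), (v.2 c).2)))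
      (v.1, update v.2 c (l0, x)) (setS subs c S Sc)
    simp only [update_self, update_idem] at h1
    exact h1
  | halt =>
    intro l0 x Sc
    have h1 := Code.Run.load
      (fun v : Hσ subs => (v.1, update v.2 c (none, (v.2 c).2)))
      (v.1, update v.2 c (l0, x)) (setS subs c S Sc)
    simp only [update_self, update_idem] at h1
    exact h1

instance (tm : FinTM2) : Fintype tm.Λ := tm.ΛFin
instance (tm : FinTM2) : Fintype tm.K := tm.kFin
instance (tm : FinTM2) : Fintype tm.σ := tm.σFin

/-- Host code running the machine `c` from its current label until it halts. -/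
def runSub (c : C) : Code (HK R subs) (HΓ R subs) (Hσ subs) :=
  .loop (fun v => (v.2 c).1.isSome)
    (.sw (Option (subs c).tm.Λ) inferInstance (fun v => (v.2 c).1) (fun o =>
      match o with
      | none => .skip
      | some l => lift subs c ((subs c).tm.m l)))

theorem runSub_run (c : C) (v : Hσ subs) (S : ∀ k, List (HΓ R subs k)) :
    ∀ (n : ℕ) (cfg cfg' : (subs c).tm.Cfg),
      (flip bind (subs c).tm.step)^[n] (some cfg) = some cfg' → cfg'.l = none →
      Code.Run (runSub subs c) (v.1, update v.2 c (cfg.l, cfg.var)) (setS subs c S cfg.stk)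
        (2 * n + 1) (v.1, update v.2 c (none, cfg'.var)) (setS subs c S cfg'.stk) := by
  intro n
  induction n with
  | zero =>
    intro cfg cfg' h hl
    simp only [Function.iterate_zero, id_eq, Option.some.injEq] at h
    subst h
    rw [hl]
    apply Code.Run.loop_false
    simp
  | succ n ih =>
    intro cfg cfg' h hl
    rw [Function.iterate_succ_apply] at h
    rcases cfg with ⟨l, x, Sc⟩
    cases l with
    | none =>
      exfalso
      have hnone : ∀ m : ℕ, (flip bind (subs c).tm.step)^[m] (none : Option (subs c).tm.Cfg) = none := by
        intro m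
        induction m with
        | zero => rfl
        | succ m ihm => rw [Function.iterate_succ_apply]; exact ihm
      have e : flip bind (subs c).tm.step (some (⟨none, x, Sc⟩ : (subs c).tm.Cfg)) = none := rfl
      rw [e, hnone] at h
      cases h
    | some l =>
      have e : flip bind (subs c).tm.step (some (⟨some l, x, Sc⟩ : (subs c).tm.Cfg)) =
          some (TM2.stepAux ((subs c).tm.m l) x Sc) := rfl
      rw [e] at h
      have h2 := ih _ cfg' h hl
      have h1 := lift_run subs c v S ((subs c).tm.m l) (some l) x Sc
      have : 2 * (n + 1) + 1 = 1 + (0 + 1) + (2 * n + 1) := by ring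
      rw [this]
      refine Code.Run.loop_true (by simp) (Code.Run.sw ?_) h2
      simp only [update_self]
      exact h1

/-- Host code moving stack `k` onto stack `k'` (reversing it). -/
def mv (k : HK R subs) (g : HΓ R subs k → Bool) (k' : HK R subs) (h : Bool → HΓ R subs k') :
    Code (HK R subs) (HΓ R subs) (Hσ subs) :=
  .seq (.pop k (fun v o => (o.map g, v.2)))
    (.loop (fun v => v.1.isSome)
      (.seq (.push k' (fun v => h (v.1.getD false))) (.pop k (fun v o => (o.map g, v.2)))))

theorem mv_run (k : HK R subs) (g : HΓ R subs k → Bool) (k' : HK R subs)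
    (h : Bool → HΓ R subs k') (hk : k ≠ k') (w) (S : ∀ k, List (HΓ R subs k)) :
    Code.Run (mv subs k g k' h) (none, w) S ((S k).length + 1) (none, w)
      (update (update S k []) k' ((S k).reverse.map (fun x => h (g x)) ++ S k')) := by
  have key : ∀ (L : List (HΓ R subs k)) (acc : List (HΓ R subs k')),
      Code.Run (.loop (fun v => v.1.isSome)
        (.seq (.push k' (fun v => h (v.1.getD false))) (.pop k (fun v o => (o.map g, v.2)))))
        ((L.head?).map g, w) (update (update S k L.tail) k' acc) (L.length + 1)
        (none, w) (update (update S k []) k' (L.reverse.map (fun x => h (g x)) ++ acc)) := by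
    intro L
    induction L with
    | nil =>
      intro acc
      simp only [List.head?_nil, Option.map_none, List.tail_nil, List.length_nil, zero_add,
        List.reverse_nil, List.map_nil, List.nil_append]
      exact Code.Run.loop_false (by simp)
    | cons x L ih =>
      intro acc
      have e : (x :: L).length + 1 = 1 + (0 + 0) + (L.length + 1) := by
        simp; ring
      rw [e]
      have h1 := Code.Run.push (σ := Hσ subs) k' (fun v => h (v.1.getD false))
        (some (g x), w) (update (update S k L) k' acc)
      have h2 := Code.Run.pop (σ := Hσ subs) k (fun v o => (o.map g, v.2)) (some (g x), w)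
        (update (update (update S k L) k' acc) k' (h (g x) :: acc))
      rw [update_idem, update_of_ne hk, update_self] at h2
      rw [update_self, update_idem] at h1
      have e2 : update (update (update S k L) k' (h (g x) :: acc)) k L.tail =
          update (update S k L.tail) k' (h (g x) :: acc) := by
        rw [update_comm hk.symm, update_idem]
      rw [e2] at h2
      have h3 := ih (h (g x) :: acc)
      have h4 : (x :: L).reverse.map (fun x => h (g x)) ++ acc =
          L.reverse.map (fun x => h (g x)) ++ (h (g x) :: acc) := by
        simp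
      rw [h4]
      exact Code.Run.loop_true (by simp) (Code.Run.seq h1 h2) h3
  have h0 := Code.Run.pop (σ := Hσ subs) k (fun v o => (o.map g, v.2)) (none, w) S
  have h1 := key (S k) (S k')
  have e : update (update S k (S k).tail) k' (S k') = update S k (S k).tail := by
    apply update_eq_iff.mpr
    refine ⟨?_, fun _ _ => rfl⟩
    rw [update_of_ne hk.symm]
  rw [e] at h1
  have := Code.Run.seq h0 h1
  rw [zero_add] at this
  exact this

/-- Host stacks for register contents `s` (all other stacks empty). -/
def HS (s : R → List Bool) : ∀ k, List (HΓ R subs k)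
  | .inl none => []
  | .inl (some r) => s r
  | .inr _ => []

/-- clean host state -/
def Hv : Hσ subs := (none, fun c => (none, (subs c).tm.initialState))

/-- the body of the loop for `while` -/
def whileLoop (r : R) (a : Code (HK R subs) (HΓ R subs) (Hσ subs)) :
    Code (HK R subs) (HΓ R subs) (Hσ subs) :=
  .loop (fun v => v.1.isSome)
    (.seq (.load (fun v => (none, v.2)))
      (.seq a (.peek (.inl (some r)) (fun v o => (o, v.2)))))

/-- Translation of register programs to host code. -/
def trans : Prog R C → Code (HK R subs) (HΓ R subs) (Hσ subs)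
  | .skip => .skip
  | .push r b => .push (.inl (some r)) (fun _ => b)
  | .case r e f t =>
    .seq (.pop (.inl (some r)) (fun v o => (o, v.2)))
      (.sw (Option Bool) inferInstance (fun v => v.1) (fun o =>
        .seq (.load (fun v => (none, v.2)))
          (match o with
            | none => trans e
            | some false => trans f
            | some true => trans t)))
  | .seq a b => .seq (trans a) (trans b)
  | .while r a =>
    .seq (.peek (.inl (some r)) (fun v o => (o, v.2))) (whileLoop subs r (trans a))
  | .call c r =>
    .seq (mv subs (.inl (some r)) (fun x => x) (.inl none) (fun x => x))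
      (.seq (mv subs (.inl none) (fun x => x) (.inr ⟨c, (subs c).tm.k₀⟩) (subs c).inA.invFun)
        (.seq (.load (fun v => (v.1, update v.2 c (some (subs c).tm.main, (v.2 c).2))))
          (.seq (runSub subs c)
            (.seq (mv subs (.inr ⟨c, (subs c).tm.k₁⟩) (subs c).outA (.inl none) (fun x => x))
              (mv subs (.inl none) (fun x => x) (.inl (some r)) (fun x => x))))))

theorem HS_update (s : R → List Bool) (r : R) (l : List Bool) :
    update (HS subs s) (.inl (some r)) l = HS subs (update s r l) := by
  funext k
  rcases k with (_ | r') | k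
  · simp [HS]
  · by_cases h : r' = r
    · subst h; simp [HS]
    · have : (Sum.inl (some r') : HK R subs) ≠ Sum.inl (some r) := by simpa using h
      rw [update_of_ne this]
      simp [HS, h]
  · simp [HS]

theorem call_run (c : C) (r : R) (s : R → List Bool) (out : List Bool) (t : ℕ)
    (h : (subs c).spec (s r) out t) :
    ∃ t' ≤ 2 * t + 2 * (s r).length + 2 * out.length + 5,
      Code.Run (trans subs (.call c r)) (Hv subs) (HS subs s) t' (Hv subs)
        (HS subs (update s r out)) := by
  obtain ⟨⟨⟨n, hn⟩, hnt⟩⟩ := h
  simp only [Option.map_some] at hn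
  have hnt' : n ≤ t := hnt
  -- step 1
  have h1 := mv_run subs (.inl (some r)) (fun x => x) (.inl none) (fun x => x) (by simp)
    (Hv subs).2 (HS subs s)
  have e1 : update (update (HS subs s) (.inl (some r)) []) (.inl none)
      ((HS subs s (.inl (some r))).reverse.map (fun x => x) ++ HS subs s (.inl none)) =
      update (HS subs (update s r [])) (.inl none) (s r).reverse := by
    rw [HS_update]
    congr 1
    simp [HS]
  rw [e1] at h1
  set S1 := update (HS subs (update s r [])) (.inl none) (s r).reverse with hS1
  have h2 := mv_run subs (.inl none) (fun x => x) (.inr ⟨c, (subs c).tm.k₀⟩) (subs c).inA.invFun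
    (by simp) (Hv subs).2 S1
  have e2 : update (update S1 (.inl none) []) (.inr ⟨c, (subs c).tm.k₀⟩)
      ((S1 (.inl none)).reverse.map (fun x => (subs c).inA.invFun x) ++
        S1 (.inr ⟨c, (subs c).tm.k₀⟩)) =
      setS subs c (HS subs (update s r []))
        (initList (subs c).tm ((s r).map (subs c).inA.invFun)).stk := by
    funext k
    rcases k with (_ | r') | ⟨c', k'⟩
    · simp [setS, HS]
    · simp [setS, HS, hS1]
    · by_cases hc : c' = c
      · subst hc
        by_cases hk : k' = (subs c').tm.k₀
        · subst hk
          simp only [update_self, setS, hS1, HS, initList]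
          simp
          rfl
        · have : (Sum.inr ⟨c', k'⟩ : HK R subs) ≠ Sum.inr ⟨c', (subs c').tm.k₀⟩ := by
            intro h
            apply hk
            simpa using h
          rw [update_of_ne this]
          simp [setS, hS1, HS, initList, hk]
      · have : (Sum.inr ⟨c', k'⟩ : HK R subs) ≠ Sum.inr ⟨c, (subs c).tm.k₀⟩ := by
          intro h
          apply hc
          simp only [Sum.inr.injEq, Sigma.mk.injEq] at h
          exact h.1
        rw [update_of_ne this]
        simp [setS, hS1, HS, hc]
  rw [e2] at h2
  have h3 := Code.Run.load (Γ := HΓ R subs)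
    (fun v : Hσ subs => (v.1, update v.2 c (some (subs c).tm.main, (v.2 c).2)))
    (none, (Hv subs).2) (setS subs c (HS subs (update s r []))
        (initList (subs c).tm ((s r).map (subs c).inA.invFun)).stk)
  have h4 := runSub_run subs c (Hv subs) (HS subs (update s r [])) n _ _ hn rfl
  have h5 := mv_run subs (.inr ⟨c, (subs c).tm.k₁⟩) (subs c).outA (.inl none) (fun x => x)
    (by simp) (Hv subs).2 (setS subs c (HS subs (update s r []))
      (haltList (subs c).tm (out.map (subs c).outA.invFun)).stk)
  have e5 : (setS subs c (HS subs (update s r []))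
      (haltList (subs c).tm (out.map (subs c).outA.invFun)).stk) (.inr ⟨c, (subs c).tm.k₁⟩) =
      out.map (subs c).outA.invFun := by
    rw [setS_self]
    simp only [haltList]
    simp
  have e5' : (setS subs c (HS subs (update s r []))
      (haltList (subs c).tm (out.map (subs c).outA.invFun)).stk) (.inl none) = [] := rfl
  rw [e5, e5'] at h5
  have e6 : update (update (setS subs c (HS subs (update s r []))
      (haltList (subs c).tm (out.map (subs c).outA.invFun)).stk) (.inr ⟨c, (subs c).tm.k₁⟩) [])
        (.inl none) ((out.map (subs c).outA.invFun).reverse.map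
          (fun x => (subs c).outA x) ++ []) =
      update (HS subs (update s r [])) (.inl none) out.reverse := by
    funext k
    rcases k with (_ | r') | ⟨c', k'⟩
    · simp
    · simp [setS, HS]
    · by_cases hc : c' = c
      · subst hc
        by_cases hk : k' = (subs c').tm.k₁
        · subst hk
          simp [HS]
        · have : (Sum.inr ⟨c', k'⟩ : HK R subs) ≠ Sum.inr ⟨c', (subs c').tm.k₁⟩ := by
            intro h
            apply hk
            simpa using h
          rw [update_of_ne (by simp), update_of_ne this]
          simp [setS, HS, haltList, hk]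
      · have : (Sum.inr ⟨c', k'⟩ : HK R subs) ≠ Sum.inr ⟨c, (subs c).tm.k₁⟩ := by
          intro h
          apply hc
          simp only [Sum.inr.injEq, Sigma.mk.injEq] at h
          exact h.1
        rw [update_of_ne (by simp), update_of_ne this]
        simp [setS, HS, hc]
  rw [e6] at h5
  have h6 := mv_run subs (.inl none) (fun x => x) (.inl (some r)) (fun x => x) (by simp)
    (Hv subs).2 (update (HS subs (update s r [])) (.inl none) out.reverse)
  have e7 : update (update (update (HS subs (update s r [])) (.inl none) out.reverse)
      (.inl none) []) (.inl (some r))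
      (((update (HS subs (update s r [])) (.inl none) out.reverse) (.inl none)).reverse.map
        (fun x => x) ++ (update (HS subs (update s r [])) (.inl none) out.reverse)
          (.inl (some r))) = HS subs (update s r out) := by
    funext k
    rcases k with (_ | r') | ⟨c', k'⟩
    · simp [HS]
    · by_cases hr : r' = r
      · subst hr
        simp [HS]
      · have : (Sum.inl (some r') : HK R subs) ≠ Sum.inl (some r) := by simpa using hr
        rw [update_of_ne this]
        simp [HS, hr]
    · simp [HS]
  rw [e7] at h6
  have hv : ((Hv subs).1, update (Hv subs).2 c (none, (haltList (subs c).tm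
      (out.map (subs c).outA.invFun)).var)) = (none, (Hv subs).2) := by
    unfold Hv
    simp only [haltList]
    congr 1
    apply update_eq_iff.mpr
    exact ⟨rfl, fun _ _ => rfl⟩
  rw [hv] at h4
  have hall := Code.Run.seq h1 (Code.Run.seq h2 (Code.Run.seq h3 (Code.Run.seq
    h4 (Code.Run.seq h5 h6))))
  refine ⟨_, ?_, hall⟩
  have l1 : (HS subs s (.inl (some r))).length = (s r).length := rfl
  have l2 : (S1 (.inl none)).length = (s r).length := by simp [hS1]
  have l3 : ((update (HS subs (update s r [])) (.inl none) out.reverse) (.inl none)).length =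
      out.length := by simp
  rw [l1, l2, l3]
  simp only [List.length_map]
  omega

theorem trans_run {p : Prog R C} {s : R → List Bool} {t : ℕ} {s' : R → List Bool}
    (h : PRun subs p s t s') :
    (∃ t' ≤ t, Code.Run (trans subs p) (Hv subs) (HS subs s) t' (Hv subs) (HS subs s')) ∧
      ∀ r a, p = .while r a → ∃ t' ≤ t, Code.Run (whileLoop subs r (trans subs a))
        ((s r).head?, (Hv subs).2) (HS subs s) t' (Hv subs) (HS subs s') := by
  induction h with
  | skip s => exact ⟨⟨0, le_rfl, Code.Run.skip _ _⟩, fun _ _ h => by cases h⟩
  | push r b s =>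
    refine ⟨⟨0, le_rfl, ?_⟩, fun _ _ h => by cases h⟩
    have h1 := Code.Run.push (σ := Hσ subs) (.inl (some r) : HK R subs) (fun _ => b)
      (Hv subs) (HS subs s)
    rw [HS_update] at h1
    exact h1
  | @case_none r e f tt s t s' hr h ih =>
    obtain ⟨⟨t', ht', ih⟩, -⟩ := ih
    refine ⟨⟨t' + 1, by omega, ?_⟩, fun _ _ h => by cases h⟩
    have h1 := Code.Run.pop (σ := Hσ subs) (.inl (some r) : HK R subs) (fun v o => (o, v.2))
      (Hv subs) (HS subs s)
    have e1 : HS subs s (.inl (some r)) = [] := hr
    rw [e1, HS_update] at h1
    have e2 : update s r ([] : List Bool).tail = s := by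
      rw [update_eq_iff]; exact ⟨by simp [hr], fun _ _ => rfl⟩
    rw [e2] at h1
    have h2 := Code.Run.load (Γ := HΓ R subs) (fun v : Hσ subs => (none, v.2))
      (none, (Hv subs).2) (HS subs s)
    have := Code.Run.seq h1 (Code.Run.sw (h := inferInstance) (ι := Option Bool)
      (f := fun v : Hσ subs => v.1)
      (c := fun o => Code.seq (.load (fun v => (none, v.2)))
          (match o with
            | none => trans subs e
            | some false => trans subs f
            | some true => trans subs tt)) (Code.Run.seq h2 ih))
    simp only [zero_add] at this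
    exact this
  | @case_false r e f tt s l t s' hr h ih =>
    obtain ⟨⟨t', ht', ih⟩, -⟩ := ih
    refine ⟨⟨t' + 1, by omega, ?_⟩, fun _ _ h => by cases h⟩
    have h1 := Code.Run.pop (σ := Hσ subs) (.inl (some r) : HK R subs) (fun v o => (o, v.2))
      (Hv subs) (HS subs s)
    have e1 : HS subs s (.inl (some r)) = false :: l := hr
    rw [e1, HS_update] at h1
    have h2 := Code.Run.load (Γ := HΓ R subs) (fun v : Hσ subs => (none, v.2))
      (some false, (Hv subs).2) (HS subs (update s r l))
    have := Code.Run.seq h1 (Code.Run.sw (h := inferInstance) (ι := Option Bool)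
      (f := fun v : Hσ subs => v.1)
      (c := fun o => Code.seq (.load (fun v => (none, v.2)))
          (match o with
            | none => trans subs e
            | some false => trans subs f
            | some true => trans subs tt)) (Code.Run.seq h2 ih))
    simp only [zero_add] at this
    exact this
  | @case_true r e f tt s l t s' hr h ih =>
    obtain ⟨⟨t', ht', ih⟩, -⟩ := ih
    refine ⟨⟨t' + 1, by omega, ?_⟩, fun _ _ h => by cases h⟩
    have h1 := Code.Run.pop (σ := Hσ subs) (.inl (some r) : HK R subs) (fun v o => (o, v.2))
      (Hv subs) (HS subs s)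
    have e1 : HS subs s (.inl (some r)) = true :: l := hr
    rw [e1, HS_update] at h1
    have h2 := Code.Run.load (Γ := HΓ R subs) (fun v : Hσ subs => (none, v.2))
      (some true, (Hv subs).2) (HS subs (update s r l))
    have := Code.Run.seq h1 (Code.Run.sw (h := inferInstance) (ι := Option Bool)
      (f := fun v : Hσ subs => v.1)
      (c := fun o => Code.seq (.load (fun v => (none, v.2)))
          (match o with
            | none => trans subs e
            | some false => trans subs f
            | some true => trans subs tt)) (Code.Run.seq h2 ih))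
    simp only [zero_add] at this
    exact this
  | @seq a b s t s' t' s'' h1 h2 ih1 ih2 =>
    obtain ⟨⟨t1, ht1, ih1⟩, -⟩ := ih1
    obtain ⟨⟨t2, ht2, ih2⟩, -⟩ := ih2
    exact ⟨⟨t1 + t2, by omega, Code.Run.seq ih1 ih2⟩, fun _ _ h => by cases h⟩
  | @while_done r a s hr =>
    have hloop : Code.Run (whileLoop subs r (trans subs a))
        ((s r).head?, (Hv subs).2) (HS subs s) 1 (Hv subs) (HS subs s) := by
      rw [hr]
      exact Code.Run.loop_false (by simp)
    refine ⟨⟨0 + 1, by omega, ?_⟩, ?_⟩
    · have h1 := Code.Run.peek (σ := Hσ subs) (.inl (some r) : HK R subs) (fun v o => (o, v.2))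
        (Hv subs) (HS subs s)
      exact Code.Run.seq h1 hloop
    · intro r' a' h
      cases h
      exact ⟨1, le_rfl, hloop⟩
  | @while_step r a s t s' t' s'' hr h1 h2 ih1 ih2 =>
    obtain ⟨⟨t1, ht1, ih1⟩, -⟩ := ih1
    obtain ⟨-, ih2⟩ := ih2
    obtain ⟨t2, ht2, ih2⟩ := ih2 r a rfl
    have hloop : Code.Run (whileLoop subs r (trans subs a))
        ((s r).head?, (Hv subs).2) (HS subs s) (1 + (0 + (t1 + 0)) + t2) (Hv subs)
          (HS subs s'') := by
      have hp : (fun v : Hσ subs => v.1.isSome) ((s r).head?, (Hv subs).2) = true := by
        cases hsr : s r with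
        | nil => exact absurd hsr hr
        | cons b l => simp
      have h3 := Code.Run.load (Γ := HΓ R subs) (fun v : Hσ subs => (none, v.2))
        ((s r).head?, (Hv subs).2) (HS subs s)
      have h4 := Code.Run.peek (σ := Hσ subs) (.inl (some r) : HK R subs) (fun v o => (o, v.2))
        (Hv subs) (HS subs s')
      exact Code.Run.loop_true hp (Code.Run.seq h3 (Code.Run.seq ih1 h4)) ih2
    refine ⟨⟨0 + (1 + (0 + (t1 + 0)) + t2), by omega, ?_⟩, ?_⟩
    · have h1 := Code.Run.peek (σ := Hσ subs) (.inl (some r) : HK R subs) (fun v o => (o, v.2))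
        (Hv subs) (HS subs s)
      exact Code.Run.seq h1 hloop
    · intro r' a' h
      cases h
      exact ⟨_, by omega, hloop⟩
  | @call c r s out t h =>
    exact ⟨call_run subs c r s out t h, fun _ _ h => by cases h⟩

theorem HS_single (r₀ : R) (inp : List Bool) :
    HS subs (update (fun _ => []) r₀ inp) =
      (update (fun _ => []) (Sum.inl (some r₀) : HK R subs) inp :
        ∀ k, List (HΓ R subs k)) := by
  rw [← HS_update]
  congr 1
  funext k
  rcases k with (_ | r) | k <;> rfl

/-- A register program with polynomial running time gives a polynomial time Turing machine. -/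
theorem Prog.computes [Fintype R] [Fintype C] {α β : Type} (ea : α → List Bool)
    (eb : β → List Bool) (f : α → β) (p : Prog R C) (r₀ r₁ : R) (time : Polynomial ℕ)
    (h : ∀ a, ∃ t ≤ time.eval (ea a).length,
      PRun subs p (update (fun _ => []) r₀ (ea a)) t (update (fun _ => []) r₁ (eb (f a)))) :
    Nonempty (TM2ComputableInPolyTime ea eb f) := by
  classical
  have hrun : ∀ a, ∃ t ≤ time.eval (ea a).length,
      Code.Run (trans subs p) (Hv subs)
        (update (fun _ => []) (Sum.inl (some r₀) : HK R subs) (ea a)) t (Hv subs)
        (update (fun _ => []) (Sum.inl (some r₁) : HK R subs) (eb (f a))) := by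
    intro a
    obtain ⟨t, ht, hp⟩ := h a
    obtain ⟨⟨t', ht', hr⟩, -⟩ := trans_run subs hp
    rw [HS_single, HS_single] at hr
    exact ⟨t', ht'.trans ht, hr⟩
  have hout : ∀ a, Nonempty (TM2OutputsInTime
      (Code.toTM (trans subs p) (Hv subs) (.inl (some r₀)) (.inl (some r₁))) (ea a)
      (some (eb (f a))) ((time + 1).eval (ea a).length)) := by
    intro a
    obtain ⟨t, ht, hr⟩ := hrun a
    obtain ⟨⟨⟨n, hn⟩, hnt⟩⟩ := Code.toTM_outputs _ _ _ _ _ _ _ hr
    refine ⟨⟨⟨n, hn⟩, hnt.trans ?_⟩⟩
    simp only [Polynomial.eval_add, Polynomial.eval_one]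
    omega
  refine ⟨{ tm := Code.toTM (trans subs p) (Hv subs) (.inl (some r₀)) (.inl (some r₁))
            inputAlphabet := Equiv.refl Bool
            outputAlphabet := Equiv.refl Bool
            time := time + 1
            outputsFun := fun a => ?_ }⟩
  have e1 : ∀ l : List Bool, List.map (Equiv.refl Bool).invFun l = l := fun l => List.map_id l
  have := (hout a).some
  exact cast (congrArg₂ (fun x y => TM2OutputsInTime
    (Code.toTM (trans subs p) (Hv subs) (.inl (some r₀)) (.inl (some r₁))) x (some y)
    ((time + 1).eval (ea a).length)) (e1 (ea a)).symm (e1 (eb (f a))).symm) this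

end host

end Pool.Agent.Lib.PolyTime
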